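import Mathlib

set_option autoImplicit false

namespace Pool.Agent.Helper1.BackForth

variable {X T : Type} [LinearOrder T]

/-- Closure hypotheses for a family of functions into a chain. -/
structure Hyp (G : Set (X → T)) : Prop where
  ite : ∀ f ∈ G, ∀ g ∈ G, ∀ h ∈ G, ∀ k ∈ G, (fun x => if f x < g x then h x else k x) ∈ G
  dense : ∀ f ∈ G, ∀ g ∈ G, ∃ h ∈ G, ∀ x, f x < g x → f x < h x ∧ h x < g x
  top : ∀ f ∈ G, ∃ h ∈ G, ∀ x, f x < h x
  bot : ∀ f ∈ G, ∃ h ∈ G, ∀ x, h x < f x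

theorem Hyp.sup {G : Set (X → T)} (H : Hyp G) {f g : X → T} (hf : f ∈ G) (hg : g ∈ G) :
    f ⊔ g ∈ G := by
  have : f ⊔ g = fun x => if f x < g x then g x else f x := by
    funext x
    simp only [Pi.sup_apply]
    split_ifs with h
    · exact sup_eq_right.2 h.le
    · exact sup_eq_left.2 (not_lt.1 h)
  rw [this]
  exact H.ite f hf g hg g hg f hf

theorem Hyp.inf {G : Set (X → T)} (H : Hyp G) {f g : X → T} (hf : f ∈ G) (hg : g ∈ G) :
    f ⊓ g ∈ G := by
  have : f ⊓ g = fun x => if f x < g x then f x else g x := by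
    funext x
    simp only [Pi.inf_apply]
    split_ifs with h
    · exact inf_eq_left.2 h.le
    · exact inf_eq_right.2 (not_lt.1 h)
  rw [this]
  exact H.ite f hf g hg f hf g hg

/-- Finite partial isomorphisms. -/
def IsPI (G : Set (X → T)) (F : Finset (G × G)) : Prop :=
  ∀ p ∈ F, ∀ q ∈ F, ∀ x, (p.1.1 x < q.1.1 x ↔ p.2.1 x < q.2.1 x)

theorem IsPI.eq_iff {G : Set (X → T)} {F : Finset (G × G)} (h : IsPI G F) {p q : G × G}
    (hp : p ∈ F) (hq : q ∈ F) (x : X) : p.1.1 x = q.1.1 x ↔ p.2.1 x = q.2.1 x := by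
  have h1 := h p hp q hq x
  have h2 := h q hq p hp x
  constructor
  · intro e
    apply le_antisymm
    · exact not_lt.1 (fun hl => absurd (h2.2 hl) (by rw [e]; exact lt_irrefl _))
    · exact not_lt.1 (fun hl => absurd (h1.2 hl) (by rw [e]; exact lt_irrefl _))
  · intro e
    apply le_antisymm
    · exact not_lt.1 (fun hl => absurd (h2.1 hl) (by rw [e]; exact lt_irrefl _))
    · exact not_lt.1 (fun hl => absurd (h1.1 hl) (by rw [e]; exact lt_irrefl _))

theorem extend {G : Set (X → T)} (H : Hyp G) (F : Finset (G × G)) (hF : IsPI G F) (a : G) :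
    ∃ b : G, ∀ p ∈ F, ∀ x, (p.1.1 x < a.1 x ↔ p.2.1 x < b.1 x) ∧
      (a.1 x < p.1.1 x ↔ b.1 x < p.2.1 x) := by
  classical
  rcases F.eq_empty_or_nonempty with rfl | hne
  · exact ⟨a, by simp⟩
  -- global bounds
  obtain ⟨m0, hm0G, hm0⟩ : ∃ m0 ∈ G, ∀ p ∈ F, ∀ x, m0 x < p.2.1 x := by
    have h1 : F.inf' hne (fun p => p.2.1) ∈ G := by
      apply Finset.inf'_induction hne (fun p => p.2.1) (p := fun f => f ∈ G)
      · intro f hf g hg
        exact H.inf hf hg
      · intro p _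
        exact p.2.2
    obtain ⟨m0, hm, hlt⟩ := H.bot _ h1
    refine ⟨m0, hm, fun p hp x => lt_of_lt_of_le (hlt x) ?_⟩
    rw [Finset.inf'_apply]
    exact Finset.inf'_le (fun p : G × G => p.2.1 x) hp
  obtain ⟨M0, hM0G, hM0⟩ : ∃ M0 ∈ G, ∀ p ∈ F, ∀ x, p.2.1 x < M0 x := by
    have h1 : F.sup' hne (fun p => p.2.1) ∈ G := by
      apply Finset.sup'_induction hne (fun p => p.2.1) (p := fun f => f ∈ G)
      · intro f hf g hg
        exact H.sup hf hg
      · intro p _
        exact p.2.2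
    obtain ⟨m0, hm, hlt⟩ := H.top _ h1
    refine ⟨m0, hm, fun p hp x => lt_of_le_of_lt ?_ (hlt x)⟩
    rw [Finset.sup'_apply]
    exact Finset.le_sup' (fun p : G × G => p.2.1 x) hp
  let lf : G × G → X → T := fun p x => if p.1.1 x < a.1 x then p.2.1 x else m0 x
  let uf : G × G → X → T := fun p x => if a.1 x < p.1.1 x then p.2.1 x else M0 x
  have hL : F.sup' hne lf ∈ G := by
    apply Finset.sup'_induction hne lf (p := fun f => f ∈ G)
    · intro f hf g hg
      exact H.sup hf hg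
    · intro p _
      exact H.ite _ p.1.2 _ a.2 _ p.2.2 _ hm0G
  have hU : F.inf' hne uf ∈ G := by
    apply Finset.inf'_induction hne uf (p := fun f => f ∈ G)
    · intro f hf g hg
      exact H.inf hf hg
    · intro p _
      exact H.ite _ a.2 _ p.1.2 _ p.2.2 _ hM0G
  obtain ⟨h, hhG, hh⟩ := H.dense _ hL _ hU
  have hLU : ∀ x, (F.sup' hne lf) x < (F.inf' hne uf) x := by
    intro x
    rw [Finset.sup'_apply, Finset.inf'_apply, Finset.sup'_lt_iff]
    intro p hp
    rw [Finset.lt_inf'_iff]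
    intro q hq
    simp only [lf, uf]
    split_ifs with h1 h2 h2
    · exact (hF p hp q hq x).1 (h1.trans h2)
    · exact hM0 p hp x
    · exact hm0 q hq x
    · exact (hm0 p hp x).trans (hM0 p hp x)
  have hhx := fun x => hh x (hLU x)
  -- final gluing
  have key : ∀ s : Finset (G × G), s ⊆ F → ∃ b ∈ G, ∀ x,
      (∀ p ∈ s, p.1.1 x = a.1 x → b x = p.2.1 x) ∧
      ((∀ p ∈ s, p.1.1 x ≠ a.1 x) → b x = h x) := by
    intro s
    induction s using Finset.induction_on with
    | empty => exact fun _ => ⟨h, hhG, fun x => ⟨by simp, fun _ => rfl⟩⟩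
    | insert p s hps ih =>
      intro hs
      obtain ⟨b', hb'G, hb'⟩ := ih (fun q hq => hs (Finset.mem_insert_of_mem hq))
      have hpF : p ∈ F := hs (Finset.mem_insert_self _ _)
      refine ⟨fun x => if p.1.1 x < a.1 x then b' x else
        (fun x => if a.1 x < p.1.1 x then b' x else p.2.1 x) x, ?_, ?_⟩
      · exact H.ite _ p.1.2 _ a.2 _ hb'G _ (H.ite _ a.2 _ p.1.2 _ hb'G _ p.2.2)
      · intro x
        constructor
        · intro q hq hqa
          rcases Finset.mem_insert.1 hq with rfl | hq'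
          · have n1 : ¬ q.1.1 x < a.1 x := by rw [hqa]; exact lt_irrefl _
            have n2 : ¬ a.1 x < q.1.1 x := by rw [hqa]; exact lt_irrefl _
            simp only [n1, n2, if_false]
          · rcases lt_trichotomy (p.1.1 x) (a.1 x) with h1 | h1 | h1
            · simp only [h1, if_true]
              exact (hb' x).1 q hq' hqa
            · have n1 : ¬ p.1.1 x < a.1 x := by rw [h1]; exact lt_irrefl _
              have n2 : ¬ a.1 x < p.1.1 x := by rw [h1]; exact lt_irrefl _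
              simp only [n1, n2, if_false]
              exact (hF.eq_iff hpF (hs hq) x).1 (h1.trans hqa.symm)
            · have n1 : ¬ p.1.1 x < a.1 x := not_lt.2 h1.le
              simp only [n1, h1, if_true, if_false]
              exact (hb' x).1 q hq' hqa
        · intro hall
          have hpa := hall p (Finset.mem_insert_self _ _)
          have h2 := (hb' x).2 (fun q hq => hall q (Finset.mem_insert_of_mem hq))
          rcases lt_trichotomy (p.1.1 x) (a.1 x) with h1 | h1 | h1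
          · simp only [h1, if_true, h2]
          · exact absurd h1 hpa
          · have n1 : ¬ p.1.1 x < a.1 x := not_lt.2 h1.le
            simp only [n1, h1, if_true, if_false, h2]
  obtain ⟨b, hbG, hb⟩ := key F (Finset.Subset.refl _)
  refine ⟨⟨b, hbG⟩, fun p hp x => ?_⟩
  show (p.1.1 x < a.1 x ↔ p.2.1 x < b x) ∧ (a.1 x < p.1.1 x ↔ b x < p.2.1 x)
  by_cases hex : ∃ q ∈ F, q.1.1 x = a.1 x
  · obtain ⟨q, hq, hqa⟩ := hex
    rw [(hb x).1 q hq hqa, ← hqa]
    exact ⟨hF p hp q hq x, hF q hq p hp x⟩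
  · push Not at hex
    rw [(hb x).2 hex]
    have hL' := (hhx x).1
    have hU' := (hhx x).2
    rw [Finset.sup'_apply, Finset.sup'_lt_iff] at hL'
    rw [Finset.inf'_apply, Finset.lt_inf'_iff] at hU'
    have hLp := hL' p hp
    have hUp := hU' p hp
    simp only [lf, uf] at hLp hUp
    rcases lt_trichotomy (p.1.1 x) (a.1 x) with h1 | h1 | h1
    · have n1 : ¬ a.1 x < p.1.1 x := not_lt.2 h1.le
      rw [if_pos h1] at hLp
      exact ⟨⟨fun _ => hLp, fun _ => h1⟩, ⟨fun h => absurd h n1, fun h => absurd h (not_lt.2 hLp.le)⟩⟩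
    · exact absurd h1 (hex p hp)
    · have n1 : ¬ p.1.1 x < a.1 x := not_lt.2 h1.le
      rw [if_pos h1] at hUp
      exact ⟨⟨fun h => absurd h n1, fun h => absurd h (not_lt.2 hUp.le)⟩, ⟨fun _ => hUp, fun _ => h1⟩⟩

/-- The poset of finite partial isomorphisms. -/
def PIso (G : Set (X → T)) : Type := { F : Finset (G × G) // IsPI G F }

instance (G : Set (X → T)) : Preorder (PIso G) := Subtype.preorder _

open Classical in
theorem left_cofinal {G : Set (X → T)} (H : Hyp G) (a : G) :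
    IsCofinal {F : PIso G | ∃ b : G, (a, b) ∈ F.1} := by
  intro F
  obtain ⟨b, hb⟩ := extend H F.1 F.2 a
  refine ⟨⟨insert (a, b) F.1, ?_⟩, ⟨b, Finset.mem_insert_self _ _⟩, Finset.subset_insert _ _⟩
  intro p hp q hq x
  rcases Finset.mem_insert.1 hp with rfl | hp' <;> rcases Finset.mem_insert.1 hq with rfl | hq'
  · simp
  · exact (hb q hq' x).2
  · exact (hb p hp' x).1
  · exact F.2 p hp' q hq' x

open Classical in
theorem right_cofinal {G : Set (X → T)} (H : Hyp G) (b : G) :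
    IsCofinal {F : PIso G | ∃ a : G, (a, b) ∈ F.1} := by
  intro F
  have hswap : IsPI G (F.1.image Prod.swap) := by
    intro p hp q hq x
    obtain ⟨p', hp', rfl⟩ := Finset.mem_image.1 hp
    obtain ⟨q', hq', rfl⟩ := Finset.mem_image.1 hq
    exact (F.2 p' hp' q' hq' x).symm
  obtain ⟨a, ha⟩ := extend H _ hswap b
  have ha' : ∀ p ∈ F.1, ∀ x, (p.2.1 x < b.1 x ↔ p.1.1 x < a.1 x) ∧
      (b.1 x < p.2.1 x ↔ a.1 x < p.1.1 x) := by
    intro p hp x
    exact ha p.swap (Finset.mem_image_of_mem _ hp) x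
  refine ⟨⟨insert (a, b) F.1, ?_⟩, ⟨a, Finset.mem_insert_self _ _⟩, Finset.subset_insert _ _⟩
  intro p hp q hq x
  rcases Finset.mem_insert.1 hp with rfl | hp' <;> rcases Finset.mem_insert.1 hq with rfl | hq'
  · simp
  · exact (ha' q hq' x).2.symm
  · exact (ha' p hp' x).1.symm
  · exact F.2 p hp' q hq' x

theorem main {G : Set (X → T)} (H : Hyp G) (hc : G.Countable) (F0 : Finset (G × G))
    (hF0 : IsPI G F0) :
    ∃ Φ : G ≃ G, (∀ a b : G, ∀ x, a.1 x < b.1 x ↔ (Φ a).1 x < (Φ b).1 x) ∧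
      ∀ p ∈ F0, Φ p.1 = p.2 := by
  classical
  haveI : Countable G := hc
  obtain ⟨enc⟩ := nonempty_encodable (G ⊕ G)
  letI := enc
  let D : G ⊕ G → Order.Cofinal (PIso G) := fun s =>
    match s with
    | Sum.inl a => ⟨_, left_cofinal H a⟩
    | Sum.inr b => ⟨_, right_cofinal H b⟩
  let I : Order.Ideal (PIso G) := Order.idealOfCofinals ⟨F0, hF0⟩ D
  let R : G → G → Prop := fun a b => ∃ F ∈ I, (a, b) ∈ F.1
  have hleft : ∀ a, ∃ b, R a b := by
    intro a
    obtain ⟨F, ⟨b, hb⟩, hFI⟩ := Order.cofinal_meets_idealOfCofinals ⟨F0, hF0⟩ D (Sum.inl a)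
    exact ⟨b, F, hFI, hb⟩
  have hright : ∀ b, ∃ a, R a b := by
    intro b
    obtain ⟨F, ⟨a, ha⟩, hFI⟩ := Order.cofinal_meets_idealOfCofinals ⟨F0, hF0⟩ D (Sum.inr b)
    exact ⟨a, F, hFI, ha⟩
  have hR : ∀ a b a' b', R a b → R a' b' → ∀ x, (a.1 x < a'.1 x ↔ b.1 x < b'.1 x) := by
    rintro a b a' b' ⟨F, hF, hab⟩ ⟨F', hF', hab'⟩ x
    obtain ⟨m, _, h1, h2⟩ := I.directed _ hF _ hF'
    exact m.2 (a, b) (h1 hab) (a', b') (h2 hab') x
  have hfun : ∀ a b b', R a b → R a b' → b = b' := by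
    intro a b b' h1 h2
    apply Subtype.ext
    funext x
    have e1 := hR a b a b' h1 h2 x
    have e2 := hR a b' a b h2 h1 x
    apply le_antisymm
    · exact not_lt.1 (fun hl => lt_irrefl _ (e2.2 hl))
    · exact not_lt.1 (fun hl => lt_irrefl _ (e1.2 hl))
  have hinj : ∀ a a' b, R a b → R a' b → a = a' := by
    intro a a' b h1 h2
    apply Subtype.ext
    funext x
    have e1 := hR a b a' b h1 h2 x
    have e2 := hR a' b a b h2 h1 x
    apply le_antisymm
    · exact not_lt.1 (fun hl => lt_irrefl _ (e2.1 hl))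
    · exact not_lt.1 (fun hl => lt_irrefl _ (e1.1 hl))
  choose φ hφ using hleft
  choose ψ hψ using hright
  refine ⟨⟨φ, ψ, fun a => ?_, fun b => ?_⟩, ?_, ?_⟩
  · exact hinj _ _ _ (hψ (φ a)) (hφ a)
  · exact hfun _ _ _ (hφ (ψ b)) (hψ b)
  · intro a b x
    exact hR _ _ _ _ (hφ a) (hφ b) x
  · intro p hp
    exact hfun _ _ _ (hφ p.1) ⟨⟨F0, hF0⟩, Order.mem_idealOfCofinals _ _, hp⟩

end Pool.Agent.Helper1.BackForth
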