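import Mathlib

set_option autoImplicit false
open Filter Topology

namespace Pool.Agent.Helper1.Baire4

abbrev A := ℤ_[2]
noncomputable instance iDA : DecidableEq A := Classical.decEq _
abbrev Om := Option (Option A)
noncomputable instance iDOm : DecidableEq Om := inferInstance

/-- A permutation group, to be given the discrete metric. -/
def H : Type := Equiv.Perm Om

noncomputable instance iG : Group H := inferInstanceAs (Group (Equiv.Perm Om))
noncomputable instance iD : DecidableEq H := Classical.decEq _

noncomputable instance iM : MetricSpace H where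
  dist x y := if x = y then 0 else 1
  dist_self := by intro x; simp
  dist_comm := by intro x y; simp [eq_comm]
  dist_triangle := by
    intro x y z
    by_cases h1 : x = y
    · subst h1; simp
    · by_cases h2 : x = z
      · simp only [h2, if_true]; positivity
      · simp only [h1, h2, if_false]
        have : (0 : ℝ) ≤ if y = z then 0 else 1 := by positivity
        linarith
  eq_of_dist_eq_zero := by
    intro x y h
    by_contra hne
    simp [hne] at h

lemma eq_of_dist_lt (x y : H) (h : dist x y < 1) : x = y := by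
  by_contra hne
  have : dist x y = 1 := if_neg hne
  linarith

instance iT : DiscreteTopology H := by
  rw [discreteTopology_iff_isOpen_singleton]
  intro x
  rw [Metric.isOpen_iff]
  intro y hy
  refine ⟨1, one_pos, fun z hz => ?_⟩
  have := eq_of_dist_lt z y hz
  rw [this]; exact hy

instance iTG : IsTopologicalGroup H where
  continuous_mul := continuous_of_discreteTopology
  continuous_inv := continuous_of_discreteTopology

instance iC : CompleteSpace H := by
  apply Metric.complete_of_cauchySeq_tendsto
  intro u hu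
  obtain ⟨N, hN⟩ := Metric.cauchySeq_iff'.1 hu 1 one_pos
  refine ⟨u N, tendsto_const_nhds.congr' ?_⟩
  filter_upwards [eventually_ge_atTop N] with n hn
  exact (eq_of_dist_lt _ _ (hN n hn)).symm

abbrev M := Multiplicative A

/-- translation action -/
noncomputable def P1 : M →* H :=
  MonoidHom.mk' (fun a => ((Equiv.addRight (Multiplicative.toAdd a)).optionCongr.optionCongr :
    Equiv.Perm Om)) (by
    intro a b
    apply Equiv.ext
    intro x
    change _ = (Equiv.optionCongr (Equiv.optionCongr (Equiv.addRight (Multiplicative.toAdd a))))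
      ((Equiv.optionCongr (Equiv.optionCongr (Equiv.addRight (Multiplicative.toAdd b)))) x)
    rcases x with _ | _ | x
    · rfl
    · rfl
    · simp only [Equiv.optionCongr_apply, Option.map_some, Equiv.coe_addRight, toAdd_mul]
      congr 2
      ring)

/-- the change of coordinates -/
noncomputable def Th : H :=
  (((Equiv.neg A).optionCongr * Equiv.swap (some 0) none : Equiv.Perm (Option A)).optionCongr :
    Equiv.Perm Om)

noncomputable def tau : H := (Equiv.swap (some (some 0)) none : Equiv.Perm Om)

noncomputable def P2 : M →* H := (MulAut.conj Th).toMonoidHom.comp P1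
noncomputable def P3 : M →* H := (MulAut.conj tau).toMonoidHom.comp (P1.comp invMonoidHom)
noncomputable def P4 : M →* H := (MulAut.conj tau).toMonoidHom.comp (P2.comp invMonoidHom)

noncomputable def sw : H := (Equiv.swap (some none) none : Equiv.Perm Om)

/-- the constant value -/
noncomputable def gg : H := sw * tau

/-- evaluation -/
def ev (h : H) (x : Om) : Om := (show Equiv.Perm Om from h) x

lemma ev_P1 (a : M) : ev (P1 a) (some (some 0)) = some (some (Multiplicative.toAdd a)) := by
  change (Equiv.optionCongr (Equiv.optionCongr (Equiv.addRight (Multiplicative.toAdd a))))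
    (some (some 0)) = _
  simp

lemma ev_Th0 : ev Th (some (some 0)) = some none := by
  change (Equiv.optionCongr ((Equiv.neg A).optionCongr * Equiv.swap (some 0) none :
    Equiv.Perm (Option A))) (some (some 0)) = _
  simp

lemma ev_Th (a : A) (ha : a ≠ 0) : ev Th (some (some a)) = some (some (-a)) := by
  change (Equiv.optionCongr ((Equiv.neg A).optionCongr * Equiv.swap (some 0) none :
    Equiv.Perm (Option A))) (some (some a)) = _
  have h : Equiv.swap (some 0) (none : Option A) (some a) = some a := by
    apply Equiv.swap_apply_of_ne_of_ne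
    · simpa using ha
    · simp
  simp [h]

lemma ev_mul (a b : H) (x : Om) : ev (a * b) x = ev a (ev b x) := rfl

lemma ev_inv (a : H) (x y : Om) (h : ev a y = x) : ev a⁻¹ x = y := by
  rw [← h]
  exact Equiv.symm_apply_apply (show Equiv.Perm Om from a) y

lemma ev_P2 (a : M) (ha : Multiplicative.toAdd a ≠ 0) :
    ev (P2 a) (some (some (Multiplicative.toAdd a))) = some none := by
  have h1 : P2 a = Th * P1 a * Th⁻¹ := rfl
  rw [h1, ev_mul, ev_mul]
  have h2 : ev Th⁻¹ (some (some (Multiplicative.toAdd a))) =
      some (some (-(Multiplicative.toAdd a))) := by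
    apply ev_inv
    rw [ev_Th _ (neg_ne_zero.2 ha), neg_neg]
  rw [h2]
  have h3 : ev (P1 a) (some (some (-(Multiplicative.toAdd a)))) = some (some 0) := by
    change (Equiv.optionCongr (Equiv.optionCongr (Equiv.addRight (Multiplicative.toAdd a))))
      (some (some (-(Multiplicative.toAdd a)))) = _
    simp
  rw [h3, ev_Th0]

lemma ev_none1 (a : M) : ev (P1 a) none = none := rfl

lemma ev_noneTh : ev Th none = none := rfl

lemma conj_swap (h : H) (x y : Om) : h * (show H from (Equiv.swap x y : Equiv.Perm Om)) * h⁻¹ =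
    (show H from (Equiv.swap (ev h x) (ev h y) : Equiv.Perm Om)) :=
  (Equiv.swap_apply_apply (show Equiv.Perm Om from h) x y).symm

lemma ev_none2 (a : M) : ev (P2 a) none = none := by
  have h1 : P2 a = Th * P1 a * Th⁻¹ := rfl
  rw [h1, ev_mul, ev_mul, ev_inv Th none none ev_noneTh, ev_none1, ev_noneTh]

lemma prod_eq (a : M) (ha : Multiplicative.toAdd a ≠ 0) : P2 a * P1 a * P3 a * P4 a = gg := by
  have h3 : P3 a = tau * (P1 a)⁻¹ * tau⁻¹ := by
    have : P3 a = tau * P1 (a⁻¹) * tau⁻¹ := rfl
    rw [this, map_inv]
  have h4 : P4 a = tau * (P2 a)⁻¹ * tau⁻¹ := by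
    have : P4 a = tau * P2 (a⁻¹) * tau⁻¹ := rfl
    rw [this, map_inv]
  have h5 : P2 a * P1 a * P3 a * P4 a = (P2 a * P1 a) * tau * (P2 a * P1 a)⁻¹ * tau⁻¹ := by
    rw [h3, h4]; group
  rw [h5]
  have h6 : (P2 a * P1 a) * tau * (P2 a * P1 a)⁻¹ = sw := by
    have e1 : ev (P2 a * P1 a) (some (some 0)) = some none := by
      rw [ev_mul, ev_P1, ev_P2 a ha]
    have e2 : ev (P2 a * P1 a) none = none := by
      rw [ev_mul, ev_none1, ev_none2]
    have := conj_swap (P2 a * P1 a) (some (some 0)) none
    rw [e1, e2] at this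
    exact this
  rw [h6]
  have h7 : tau⁻¹ = tau := by
    change (Equiv.swap (some (some 0)) none : Equiv.Perm Om)⁻¹ = Equiv.swap (some (some 0)) none
    exact Equiv.swap_inv _ _
  rw [h7]
  rfl

lemma gg_ne : gg ≠ 1 := by
  intro h
  have h1 : ev gg (some (some 0)) = some (some 0) := by rw [h]; rfl
  have h3 : ev tau (some (some 0)) = none := Equiv.swap_apply_left _ _
  have h4 : ev sw none = some none := Equiv.swap_apply_right _ _
  have h2 : ev gg (some (some 0)) = some none := by
    rw [gg, ev_mul, h3, h4]
  rw [h2] at h1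
  simp at h1

lemma noncomm : ∃ a b : H, a * b ≠ b * a := by
  refine ⟨sw, tau, fun h => ?_⟩
  have h3 : ev tau (some (some 0)) = none := Equiv.swap_apply_left _ _
  have h4 : ev sw none = some none := Equiv.swap_apply_right _ _
  have h5 : ev sw (some (some 0)) = some (some 0) :=
    Equiv.swap_apply_of_ne_of_ne (by simp) (by simp)
  have h6 : ev (sw * tau) (some (some 0)) = ev (tau * sw) (some (some 0)) := by rw [h]
  rw [ev_mul, ev_mul, h3, h4, h5, h3] at h6
  simp at h6

/-- the ambient group -/
abbrev G := M × H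

noncomputable def Uf : Fin 4 → (G →* G) := fun i =>
  (MonoidHom.inr M H).comp ((![P2, P1, P3, P4] i).comp (MonoidHom.fst M H))

lemma prod_U (x : G) : (List.ofFn (fun i => Uf i x)).prod =
    (1, P2 x.1 * P1 x.1 * P3 x.1 * P4 x.1) := by
  have h : (List.ofFn (fun i => Uf i x)) = [((1 : M), P2 x.1), (1, P1 x.1), (1, P3 x.1), (1, P4 x.1)] :=
    rfl
  rw [h]
  simp [mul_assoc]

lemma prod_U0 (x : G) (hx : x.1 = 1) : (List.ofFn (fun i => Uf i x)).prod = (1, 1) := by
  rw [prod_U, hx]; simp

lemma prod_U1 (x : G) (hx : x.1 ≠ 1) : (List.ofFn (fun i => Uf i x)).prod = (1, gg) := by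
  rw [prod_U, prod_eq]
  intro h
  exact hx h

noncomputable instance iMM : MetricSpace M := inferInstanceAs (MetricSpace ℤ_[2])
instance iCM : CompleteSpace M := inferInstanceAs (CompleteSpace ℤ_[2])

/-- clopen neighbourhoods -/
def V (k : ℕ) : Set G := {x | ‖Multiplicative.toAdd x.1‖ < 1 / ((k : ℝ) + 1)}

lemma V_clopen (k : ℕ) : IsClopen (V k) := by
  have h1 : IsClopen (Metric.ball (0 : ℤ_[2]) (1 / ((k : ℝ) + 1))) :=
    IsUltrametricDist.isClopen_ball _ _
  have h2 : Continuous (fun x : G => Multiplicative.toAdd x.1) :=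
    continuous_toAdd.comp continuous_fst
  have h3 : V k = (fun x : G => Multiplicative.toAdd x.1) ⁻¹' Metric.ball (0 : ℤ_[2]) (1 / ((k : ℝ) + 1)) := by
    ext x; simp [V]
  rw [h3]
  exact h1.preimage h2

open Classical in
/-- approximations -/
noncomputable def ap (k : ℕ) : G → G := (V k).piecewise (fun _ => (1, 1)) (fun _ => (1, gg))

lemma ap_cont (k : ℕ) : Continuous (ap k) := by
  classical
  apply Continuous.piecewise
  · intro a ha
    rw [(V_clopen k).frontier_eq] at ha
    exact absurd ha (Set.notMem_empty a)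
  · exact continuous_const
  · exact continuous_const

lemma ap_lim (x : G) : Tendsto (fun k => ap k x) atTop (𝓝 (List.ofFn (fun i => Uf i x)).prod) := by
  classical
  by_cases hx : x.1 = 1
  · rw [prod_U0 x hx]
    have : ∀ k, ap k x = (1, 1) := by
      intro k
      apply Set.piecewise_eq_of_mem
      change ‖Multiplicative.toAdd x.1‖ < 1 / ((k : ℝ) + 1)
      rw [hx]
      simp only [toAdd_one, norm_zero]
      positivity
    simp only [this]
    exact tendsto_const_nhds
  · rw [prod_U1 x hx]
    have hpos : 0 < ‖Multiplicative.toAdd x.1‖ := by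
      rw [norm_pos_iff]
      intro h
      exact hx h
    obtain ⟨n, hn⟩ := exists_nat_one_div_lt hpos
    apply tendsto_const_nhds.congr'
    filter_upwards [eventually_ge_atTop n] with k hk
    symm
    apply Set.piecewise_eq_of_notMem
    intro hV
    change ‖Multiplicative.toAdd x.1‖ < 1 / ((k : ℝ) + 1) at hV
    have : 1 / ((k : ℝ) + 1) ≤ 1 / ((n : ℝ) + 1) := by
      apply one_div_le_one_div_of_le (by positivity)
      have : (n : ℝ) ≤ k := by exact_mod_cast hk
      linarith
    linarith

lemma not_cont : ¬ Continuous (fun x : G => (List.ofFn (fun i => Uf i x)).prod) := by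
  intro hc
  let y : ℕ → G := fun k => (Multiplicative.ofAdd ((2 : ℤ_[2]) ^ k), 1)
  have hy : Tendsto y atTop (𝓝 ((1 : M), (1 : H))) := by
    apply Tendsto.prodMk_nhds _ tendsto_const_nhds
    have h2 : ‖(2 : ℤ_[2])‖ < 1 := by
      have h : ‖((2 : ℕ) : ℤ_[2])‖ = ((2 : ℕ) : ℝ)⁻¹ := PadicInt.norm_p
      have h' : ((2 : ℕ) : ℤ_[2]) = 2 := by norm_num
      rw [h'] at h
      rw [h]
      norm_num
    have h1 : Tendsto (fun k : ℕ => (2 : ℤ_[2]) ^ k) atTop (𝓝 0) :=
      tendsto_pow_atTop_nhds_zero_of_norm_lt_one h2
    exact (continuous_ofAdd.tendsto (0 : ℤ_[2])).comp h1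
  have h3 := (hc.tendsto ((1 : M), (1 : H))).comp hy
  have h4 : ∀ k, (List.ofFn (fun i => Uf i (y k))).prod = ((1 : M), gg) := by
    intro k
    apply prod_U1
    intro h
    have : (2 : ℤ_[2]) ^ k = 0 := h
    exact (pow_ne_zero k (by norm_num)) this
  have h5 : (List.ofFn (fun i => Uf i ((1 : M), (1 : H)))).prod = ((1 : M), (1 : H)) :=
    prod_U0 _ rfl
  rw [h5] at h3
  have h6 : Tendsto (fun _ : ℕ => ((1 : M), gg)) atTop (𝓝 ((1 : M), (1 : H))) := by
    refine h3.congr ?_
    intro k
    exact h4 k
  have h7 := tendsto_nhds_unique h6 tendsto_const_nhds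
  exact gg_ne (congrArg Prod.snd h7).symm

end Pool.Agent.Helper1.Baire4
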