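import Mathlib

set_option autoImplicit false

namespace Pool.Agent.Helper1.ClassTrans

open Equiv

/-- the subgroup generated by class transpositions -/
def CT : Subgroup (Equiv.Perm ℤ) := Subgroup.closure
        {σ : Equiv.Perm ℤ | ∃ r₁ m₁ r₂ m₂ : ℤ,
          0 ≤ r₁ ∧ r₁ < m₁ ∧ 0 ≤ r₂ ∧ r₂ < m₂ ∧
          (∀ n : ℤ, ¬ (Int.ModEq m₁ n r₁ ∧ Int.ModEq m₂ n r₂)) ∧
          (∀ k : ℤ, σ (r₁ + m₁ * k) = r₂ + m₂ * k ∧ σ (r₂ + m₂ * k) = r₁ + m₁ * k) ∧
          ∀ n : ℤ, ¬ Int.ModEq m₁ n r₁ → ¬ Int.ModEq m₂ n r₂ → σ n = n}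

/-- a residue class `(r, m)` -/
abbrev Cls := ℤ × ℤ

/-- `n` lies in the class -/
def Inn (n : ℤ) (c : Cls) : Prop := Int.ModEq c.2 n c.1

lemma inn_iff {n : ℤ} {c : Cls} : Inn n c ↔ ∃ k : ℤ, n = c.1 + c.2 * k := by
  unfold Inn
  rw [Int.modEq_comm, Int.modEq_iff_dvd]
  constructor
  · rintro ⟨k, hk⟩; exact ⟨k, by linarith⟩
  · rintro ⟨k, hk⟩; exact ⟨k, by linarith⟩

/-- `g` maps class `c` canonically onto class `d` -/
def Maps (g : Perm ℤ) (c d : Cls) : Prop := ∀ k : ℤ, g (c.1 + c.2 * k) = d.1 + d.2 * k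

/-- disjoint classes -/
def Dj (c d : Cls) : Prop := ∀ n : ℤ, ¬ (Inn n c ∧ Inn n d)

lemma Dj.symm {c d : Cls} (h : Dj c d) : Dj d c := fun n hn => h n ⟨hn.2, hn.1⟩

/-- a list of pairwise disjoint classes -/
structure PD (l : List Cls) : Prop where
  rng : ∀ c ∈ l, 0 ≤ c.1 ∧ c.1 < c.2
  disj : l.Pairwise Dj

lemma PD.perm {l l' : List Cls} (h : PD l) (hp : l.Perm l') : PD l' :=
  ⟨fun c hc => h.rng c (hp.mem_iff.mpr hc), (hp.pairwise_iff (fun h => Dj.symm h)).mp h.disj⟩

open Classical in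
/-- the class transposition, as a function -/
noncomputable def tf (c d : Cls) (n : ℤ) : ℤ :=
  if Inn n c then d.1 + d.2 * ((n - c.1) / c.2)
  else if Inn n d then c.1 + c.2 * ((n - d.1) / d.2) else n

lemma tf_left {c d : Cls} (hc : 0 < c.2) (k : ℤ) : tf c d (c.1 + c.2 * k) = d.1 + d.2 * k := by
  unfold tf
  rw [if_pos (inn_iff.mpr ⟨k, rfl⟩)]
  congr 2
  rw [add_sub_cancel_left, Int.mul_ediv_cancel_left _ hc.ne']

lemma tf_right {c d : Cls} (hd : 0 < d.2) (h : Dj c d) (k : ℤ) :
    tf c d (d.1 + d.2 * k) = c.1 + c.2 * k := by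
  unfold tf
  have h1 : Inn (d.1 + d.2 * k) d := inn_iff.mpr ⟨k, rfl⟩
  rw [if_neg (fun h2 => h _ ⟨h2, h1⟩), if_pos h1]
  congr 2
  rw [add_sub_cancel_left, Int.mul_ediv_cancel_left _ hd.ne']

lemma tf_fix {c d : Cls} {n : ℤ} (h1 : ¬ Inn n c) (h2 : ¬ Inn n d) : tf c d n = n := by
  unfold tf
  rw [if_neg h1, if_neg h2]

lemma tf_tf {c d : Cls} (hc : 0 < c.2) (hd : 0 < d.2) (h : Dj c d) (n : ℤ) :
    tf c d (tf c d n) = n := by
  by_cases h1 : Inn n c
  · obtain ⟨k, rfl⟩ := inn_iff.mp h1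
    rw [tf_left hc, tf_right hd h]
  · by_cases h2 : Inn n d
    · obtain ⟨k, rfl⟩ := inn_iff.mp h2
      rw [tf_right hd h, tf_left hc]
    · rw [tf_fix h1 h2, tf_fix h1 h2]

lemma exists_trans {c d : Cls} (hc : 0 ≤ c.1 ∧ c.1 < c.2) (hd : 0 ≤ d.1 ∧ d.1 < d.2) (h : Dj c d) :
    ∃ g ∈ CT, Maps g c d ∧ Maps g d c ∧ ∀ n, ¬ Inn n c → ¬ Inn n d → g n = n := by
  have hc' : 0 < c.2 := by omega
  have hd' : 0 < d.2 := by omega
  let g : Perm ℤ := ⟨tf c d, tf c d, tf_tf hc' hd' h, tf_tf hc' hd' h⟩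
  have h1 : Maps g c d := fun k => tf_left hc' k
  have h2 : Maps g d c := fun k => tf_right hd' h k
  have h3 : ∀ n, ¬ Inn n c → ¬ Inn n d → g n = n := fun n a b => tf_fix a b
  refine ⟨g, ?_, h1, h2, h3⟩
  apply Subgroup.subset_closure
  exact ⟨c.1, c.2, d.1, d.2, hc.1, hc.2, hd.1, hd.2, h, fun k => ⟨h1 k, h2 k⟩, h3⟩

lemma Maps.comp {g h : Perm ℤ} {c d e : Cls} (h1 : Maps g c d) (h2 : Maps h d e) :
    Maps (h * g) c e := fun k => by
  change h (g _) = _
  rw [h1 k, h2 k]

lemma Maps.inv {g : Perm ℤ} {c d : Cls} (h1 : Maps g c d) : Maps g⁻¹ d c := fun k => by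
  rw [← h1 k]
  exact g.symm_apply_apply _

lemma maps_of_fix {g : Perm ℤ} {c : Cls} (h : ∀ n, Inn n c → g n = n) : Maps g c c := fun k =>
  h _ (inn_iff.mpr ⟨k, rfl⟩)

lemma forall₂_trans {α : Type} {R S T : α → α → Prop} (h : ∀ x y z, R x y → S y z → T x z) :
    ∀ {a b c : List α}, List.Forall₂ R a b → List.Forall₂ S b c → List.Forall₂ T a c
  | _, _, _, .nil, .nil => .nil
  | _, _, _, .cons h1 h2, .cons h3 h4 => .cons (h _ _ _ h1 h3) (forall₂_trans h h2 h4)

lemma forall₂_self {α : Type} {R : α → α → Prop} : ∀ {a : List α}, (∀ x ∈ a, R x x) →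
    List.Forall₂ R a a
  | [], _ => .nil
  | x :: a, h => .cons (h x (by simp)) (forall₂_self (fun y hy => h y (by simp [hy])))

lemma perm_rel {l l' : List Cls} (hp : l.Perm l') : PD l →
    ∃ g ∈ CT, List.Forall₂ (Maps g) l l' ∧ ∀ n, (∀ c ∈ l, ¬ Inn n c) → g n = n := by
  induction hp with
  | nil => intro _; exact ⟨1, Subgroup.one_mem _, .nil, fun n _ => rfl⟩
  | cons x hp ih =>
    intro h
    have h' := List.pairwise_cons.mp h.disj
    obtain ⟨g, hg, h1, h2⟩ := ih ⟨fun c hc => h.rng c (by simp [hc]), h'.2⟩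
    refine ⟨g, hg, .cons ?_ h1, ?_⟩
    · apply maps_of_fix
      intro n hn
      apply h2
      intro c hc hnc
      exact h'.1 c hc n ⟨hn, hnc⟩
    · intro n hn
      exact h2 n (fun c hc => hn c (by simp [hc]))
  | swap x y l =>
    intro h
    have h' := List.pairwise_cons.mp h.disj
    have h'' := List.pairwise_cons.mp h'.2
    obtain ⟨g, hg, h1, h2, h3⟩ := exists_trans (h.rng y (by simp)) (h.rng x (by simp))
      (h'.1 x (by simp))
    refine ⟨g, hg, .cons h1 (.cons h2 (forall₂_self ?_)), ?_⟩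
    · intro c hc
      apply maps_of_fix
      intro n hn
      apply h3
      · intro h4; exact h'.1 c (by simp [hc]) n ⟨h4, hn⟩
      · intro h4; exact h''.1 c hc n ⟨h4, hn⟩
    · intro n hn
      exact h3 n (hn y (by simp)) (hn x (by simp))
  | trans hp1 hp2 ih1 ih2 =>
    intro h
    obtain ⟨g, hg, h1, h2⟩ := ih1 h
    obtain ⟨g', hg', h1', h2'⟩ := ih2 (h.perm hp1)
    refine ⟨g' * g, Subgroup.mul_mem _ hg' hg, forall₂_trans (fun _ _ _ a b => a.comp b) h1 h1', ?_⟩
    intro n hn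
    change g' (g n) = n
    rw [h2 n hn]
    apply h2'
    intro c hc
    exact hn c (hp1.mem_iff.mpr hc)

/-- partitions of `ℤ` into residue classes -/
structure IsPart (l : List Cls) : Prop extends PD l where
  cover : ∀ n : ℤ, ∃ c ∈ l, Inn n c

lemma IsPart.perm {l l' : List Cls} (h : IsPart l) (hp : l.Perm l') : IsPart l' :=
  ⟨h.toPD.perm hp, fun n => by
    obtain ⟨c, hc, hn⟩ := h.cover n
    exact ⟨c, hp.mem_iff.mp hc, hn⟩⟩

/-- equivalence of lists of classes under `CT` -/
def Rel (l l' : List Cls) : Prop := ∃ g ∈ CT, List.Forall₂ (Maps g) l l'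

lemma Rel.refl (l : List Cls) : Rel l l :=
  ⟨1, Subgroup.one_mem _, forall₂_self (fun _ _ _ => rfl)⟩

lemma Rel.symm {l l' : List Cls} (h : Rel l l') : Rel l' l := by
  obtain ⟨g, hg, h1⟩ := h
  refine ⟨g⁻¹, Subgroup.inv_mem _ hg, ?_⟩
  have := h1.flip
  exact this.imp (fun a b h => Maps.inv h)

lemma Rel.trans {l l' l'' : List Cls} (h : Rel l l') (h' : Rel l' l'') : Rel l l'' := by
  obtain ⟨g, hg, h1⟩ := h
  obtain ⟨g', hg', h1'⟩ := h'
  exact ⟨g' * g, Subgroup.mul_mem _ hg' hg, forall₂_trans (fun _ _ _ a b => a.comp b) h1 h1'⟩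

lemma rel_of_perm {l l' : List Cls} (hp : l.Perm l') (h : IsPart l) : Rel l l' := by
  obtain ⟨g, hg, h1, -⟩ := perm_rel hp h.toPD
  exact ⟨g, hg, h1⟩

/-- splitting a class -/
def pieces (c : Cls) (q : ℕ) : List Cls :=
  (List.range q).map (fun j : ℕ => ((c.1 + c.2 * (j : ℤ), c.2 * (q : ℤ)) : Cls))

lemma length_pieces (c : Cls) (q : ℕ) : (pieces c q).length = q := by simp [pieces]

lemma mem_pieces {c d : Cls} {q : ℕ} :
    d ∈ pieces c q ↔ ∃ j : ℕ, j < q ∧ d = (c.1 + c.2 * (j : ℤ), c.2 * (q : ℤ)) := by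
  unfold pieces
  rw [List.mem_map]
  constructor
  · rintro ⟨j, hj, rfl⟩; exact ⟨j, List.mem_range.mp hj, rfl⟩
  · rintro ⟨j, hj, rfl⟩; exact ⟨j, List.mem_range.mpr hj, rfl⟩

lemma inn_pieces {c : Cls} {q : ℕ} (hq : 0 < q) (n : ℤ) :
    (∃ d ∈ pieces c q, Inn n d) ↔ Inn n c := by
  constructor
  · rintro ⟨d, hd, hn⟩
    obtain ⟨j, hj, rfl⟩ := mem_pieces.mp hd
    obtain ⟨k, hk⟩ := inn_iff.mp hn
    refine inn_iff.mpr ⟨j + q * k, ?_⟩
    rw [hk]; ring
  · intro hn
    obtain ⟨k, hk⟩ := inn_iff.mp hn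
    have hq' : (0 : ℤ) < q := by exact_mod_cast hq
    have h1 := Int.emod_nonneg k hq'.ne'
    have h2 := Int.emod_lt_of_pos k hq'
    have h3 := Int.emod_add_mul_ediv k q
    refine ⟨_, mem_pieces.mpr ⟨(k % q).toNat, by omega, rfl⟩, inn_iff.mpr ⟨k / q, ?_⟩⟩
    simp only
    rw [Int.toNat_of_nonneg h1, hk]
    linear_combination (-c.2) * h3

lemma rng_pieces {c : Cls} {q : ℕ} (hc : 0 ≤ c.1 ∧ c.1 < c.2) :
    ∀ d ∈ pieces c q, 0 ≤ d.1 ∧ d.1 < d.2 := by
  intro d hd
  obtain ⟨j, hj, rfl⟩ := mem_pieces.mp hd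
  have hj' : (j : ℤ) + 1 ≤ q := by exact_mod_cast hj
  have hj0 : (0:ℤ) ≤ j := by positivity
  simp only
  constructor
  · nlinarith
  · nlinarith

lemma disj_pieces {c : Cls} {q : ℕ} (hc : 0 < c.2) : (pieces c q).Pairwise Dj := by
  unfold pieces
  rw [List.pairwise_map]
  have hnd : (List.range q).Pairwise (fun a b => a < b) := List.pairwise_lt_range
  refine List.Pairwise.imp_of_mem ?_ hnd
  intro a b ha hb hab n hn
  rw [List.mem_range] at ha hb
  obtain ⟨k, hk⟩ := inn_iff.mp hn.1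
  obtain ⟨k', hk'⟩ := inn_iff.mp hn.2
  simp only at hk hk'
  have h1 : c.2 * ((b : ℤ) - a) = c.2 * (q * (k - k')) := by
    linear_combination hk - hk'
  have h2 : (b : ℤ) - a = q * (k - k') := mul_left_cancel₀ hc.ne' h1
  have h3 : (0:ℤ) < b - a := by omega
  have h4 : (b:ℤ) - a < q := by omega
  have h5 : 0 < k - k' := by
    by_contra h
    push Not at h
    have : (q:ℤ) * (k - k') ≤ 0 := mul_nonpos_of_nonneg_of_nonpos (by positivity) h
    omega
  have h6 : (q:ℤ) * 1 ≤ q * (k - k') := mul_le_mul_of_nonneg_left (by omega) (by positivity)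
  omega

lemma isPart_split {a b : List Cls} {c : Cls} {q : ℕ} (hq : 0 < q) (h : IsPart (c :: (a ++ b))) :
    IsPart (a ++ (pieces c q ++ b)) := by
  have hp : (pieces c q ++ (a ++ b)).Perm (a ++ (pieces c q ++ b)) := by
    rw [← List.append_assoc, ← List.append_assoc]
    exact List.Perm.append_right b List.perm_append_comm
  refine IsPart.perm ?_ hp
  have hc := h.rng c (by simp)
  have hd := List.pairwise_cons.mp h.disj
  refine ⟨⟨?_, ?_⟩, ?_⟩
  · intro d hd
    rw [List.mem_append] at hd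
    rcases hd with hd | hd
    · exact rng_pieces hc d hd
    · exact h.rng d (by simp [List.mem_append.mp hd])
  · rw [List.pairwise_append]
    refine ⟨disj_pieces (by omega), hd.2, ?_⟩
    intro x hx y hy n hn
    exact hd.1 y hy n ⟨(inn_pieces hq n).mp ⟨x, hx, hn.1⟩, hn.2⟩
  · intro n
    obtain ⟨d, hd, hn⟩ := h.cover n
    rw [List.mem_cons] at hd
    rcases hd with rfl | hd
    · obtain ⟨e, he, hn'⟩ := (inn_pieces hq n).mpr hn
      exact ⟨e, List.mem_append_left _ he, hn'⟩
    · exact ⟨d, List.mem_append_right _ hd, hn⟩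

/-- split the head of the list -/
def sp (q : ℕ) : List Cls → List Cls
  | [] => []
  | c :: t => pieces c q ++ t

lemma maps_pieces {g : Perm ℤ} {c d : Cls} (q : ℕ) (h : Maps g c d) :
    List.Forall₂ (Maps g) (pieces c q) (pieces d q) := by
  unfold pieces
  rw [List.forall₂_map_left_iff, List.forall₂_map_right_iff]
  apply forall₂_self
  intro j _ k
  simp only
  have := h (j + q * k)
  rw [show c.1 + c.2 * (j:ℤ) + c.2 * (q:ℤ) * k = c.1 + c.2 * (j + q * k) by ring, this]
  ring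

lemma Rel.sp {l l' : List Cls} (q : ℕ) (h : Rel l l') : Rel (sp q l) (sp q l') := by
  obtain ⟨g, hg, h1⟩ := h
  refine ⟨g, hg, ?_⟩
  cases h1 with
  | nil => exact .nil
  | cons a b => exact List.rel_append (maps_pieces q a) b

lemma forall₂_append_inv {α : Type} {R : α → α → Prop} : ∀ {a b c d : List α},
    a.length = c.length → List.Forall₂ R (a ++ b) (c ++ d) → List.Forall₂ R a c ∧ List.Forall₂ R b d
  | [], b, [], d, _, h => ⟨.nil, h⟩
  | x :: a, b, y :: c, d, hl, h => by
    rw [List.cons_append, List.cons_append, List.forall₂_cons] at h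
    obtain ⟨h1, h2⟩ := forall₂_append_inv (by simpa using hl) h.2
    exact ⟨.cons h.1 h1, h2⟩

lemma maps_of_pieces {g : Perm ℤ} {c d : Cls} {q : ℕ} (hq : 0 < q)
    (h : List.Forall₂ (Maps g) (pieces c q) (pieces d q)) : Maps g c d := by
  intro k
  have hq' : (0 : ℤ) < q := by exact_mod_cast hq
  have h1 := Int.emod_nonneg k hq'.ne'
  have h2 := Int.emod_lt_of_pos k hq'
  have h3 := Int.emod_add_mul_ediv k q
  unfold pieces at h
  rw [List.forall₂_map_left_iff, List.forall₂_map_right_iff, List.forall₂_same] at h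
  have h4 := h (k % q).toNat (List.mem_range.mpr (by omega)) (k / q)
  simp only at h4
  rw [Int.toNat_of_nonneg h1] at h4
  rw [show c.1 + c.2 * (k % q) + c.2 * (q:ℤ) * (k / q) = c.1 + c.2 * k by
    linear_combination c.2 * h3] at h4
  rw [h4]
  linear_combination d.2 * h3

lemma sp_inj {l l' : List Cls} {q : ℕ} (hq : 0 < q) (hl : l ≠ []) (hl' : l' ≠ [])
    (h : Rel (sp q l) (sp q l')) : Rel l l' := by
  obtain ⟨g, hg, h1⟩ := h
  cases l with
  | nil => exact absurd rfl hl
  | cons c t =>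
    cases l' with
    | nil => exact absurd rfl hl'
    | cons d t' =>
      obtain ⟨h2, h3⟩ := forall₂_append_inv (by rw [length_pieces, length_pieces]) h1
      exact ⟨g, hg, .cons (maps_of_pieces hq h2) h3⟩

lemma split_any {a b : List Cls} {c : Cls} {q : ℕ} (hq : 0 < q) (h : IsPart (a ++ c :: b)) :
    Rel (sp q (a ++ c :: b)) (a ++ (pieces c q ++ b)) := by
  have hp : (a ++ c :: b).Perm (c :: (a ++ b)) := List.perm_middle
  have h1 := (rel_of_perm hp h).sp q
  have h2 : IsPart (pieces c q ++ (a ++ b)) := isPart_split (a := []) hq (h.perm hp)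
  have hp2 : (pieces c q ++ (a ++ b)).Perm (a ++ (pieces c q ++ b)) := by
    rw [← List.append_assoc, ← List.append_assoc]
    exact List.Perm.append_right b List.perm_append_comm
  exact h1.trans (rel_of_perm hp2 h2)

/-- partitions with at least two classes -/
def PT : Type := {l : List Cls // IsPart l ∧ 2 ≤ l.length}

instance : Setoid PT where
  r a b := Rel a.1 b.1
  iseqv := ⟨fun _ => Rel.refl _, fun h => h.symm, fun h h' => h.trans h'⟩

/-- classes of partitions -/
def E : Type := Quotient (inferInstance : Setoid PT)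

lemma isPart_sp {l : List Cls} (k : ℕ) (h : IsPart l) (hl : 2 ≤ l.length) :
    IsPart (sp (k + 1) l) ∧ 2 ≤ (sp (k + 1) l).length := by
  cases l with
  | nil => simp at hl
  | cons c t =>
    refine ⟨isPart_split (a := []) (Nat.succ_pos k) h, ?_⟩
    change 2 ≤ (pieces c (k + 1) ++ t).length
    rw [List.length_append, length_pieces]
    rw [List.length_cons] at hl
    omega

/-- splitting operator on `PT` -/
def spt (k : ℕ) (x : PT) : PT := ⟨sp (k + 1) x.1, isPart_sp k x.2.1 x.2.2⟩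

/-- splitting operator on classes -/
def s (k : ℕ) : E → E := Quotient.map (spt k) (fun _ _ h => Rel.sp _ h)

/-- class of a partition -/
def cl (l : List Cls) (h : IsPart l ∧ 2 ≤ l.length) : E := Quotient.mk _ (⟨l, h⟩ : PT)

lemma cl_eq {l l' : List Cls} (h : IsPart l ∧ 2 ≤ l.length) (h' : IsPart l' ∧ 2 ≤ l'.length) :
    cl l h = cl l' h' ↔ Rel l l' := by
  constructor
  · intro e; exact Quotient.exact e
  · intro e; exact Quotient.sound e

lemma s_cl (k : ℕ) {l : List Cls} (h : IsPart l ∧ 2 ≤ l.length) :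
    s k (cl l h) = cl (sp (k + 1) l) (isPart_sp k h.1 h.2) := rfl

lemma s_inj (k : ℕ) : Function.Injective (s k) := by
  intro x y
  induction x using Quotient.inductionOn with
  | h x =>
    induction y using Quotient.inductionOn with
    | h y =>
      intro h
      have h1 : Rel (sp (k + 1) x.1) (sp (k + 1) y.1) := Quotient.exact h
      apply Quotient.sound
      refine sp_inj (Nat.succ_pos k) ?_ ?_ h1
      · intro h2
        have := x.2.2
        rw [h2] at this
        simp at this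
      · intro h2
        have := y.2.2
        rw [h2] at this
        simp at this

lemma len_split {a b : List Cls} {c : Cls} (k : ℕ) (h : 2 ≤ (a ++ c :: b).length) :
    2 ≤ (a ++ (pieces c (k + 1) ++ b)).length := by
  rw [List.length_append, List.length_cons] at h
  rw [List.length_append, List.length_append, length_pieces]
  omega

lemma isPart_mid {a b : List Cls} {c : Cls} (k : ℕ) (h : IsPart (a ++ c :: b)) :
    IsPart (a ++ (pieces c (k + 1) ++ b)) :=
  isPart_split (Nat.succ_pos k) (h.perm List.perm_middle)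

lemma s_cl_mid (k : ℕ) {a b : List Cls} {c : Cls} (h : IsPart (a ++ c :: b) ∧
    2 ≤ (a ++ c :: b).length) :
    s k (cl _ h) = cl (a ++ (pieces c (k + 1) ++ b)) ⟨isPart_mid k h.1, len_split k h.2⟩ := by
  rw [s_cl, cl_eq]
  exact split_any (Nat.succ_pos k) h.1

lemma cl_perm {l l' : List Cls} (h : IsPart l ∧ 2 ≤ l.length) (hp : l.Perm l') :
    cl l h = cl l' ⟨h.1.perm hp, by rw [← hp.length_eq]; exact h.2⟩ := by
  rw [cl_eq]
  exact rel_of_perm hp h.1

lemma s_comm (j k : ℕ) (x : E) : s j (s k x) = s k (s j x) := by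
  induction x using Quotient.inductionOn with
  | h x =>
    obtain ⟨l, hl⟩ := x
    change s j (s k (cl l hl)) = s k (s j (cl l hl))
    match l, hl with
    | [], hl => simp at hl
    | [c], hl => simp at hl
    | c :: d :: t, hl =>
      have e1 : s k (cl (c :: d :: t) hl) = _ := s_cl_mid k (a := []) hl
      have e2 : s j (cl (c :: d :: t) hl) = _ := s_cl_mid j (a := [c]) hl
      rw [e1, e2]
      have e3 := s_cl_mid k (a := []) (c := c) (b := pieces d (j + 1) ++ t)
        ⟨isPart_mid (a := [c]) j hl.1, len_split (a := [c]) j hl.2⟩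
      have e4 := s_cl_mid j (a := pieces c (k + 1)) (c := d) (b := t)
        ⟨isPart_mid (a := []) k hl.1, len_split (a := []) k hl.2⟩
      exact e4.trans e3.symm

lemma cl_flat_const (k : ℕ) : ∀ (a b : List Cls) (h : IsPart (a ++ b) ∧ 2 ≤ (a ++ b).length),
    ∃ h' : IsPart (a.flatMap (fun c => pieces c (k + 1)) ++ b) ∧
      2 ≤ (a.flatMap (fun c => pieces c (k + 1)) ++ b).length,
    cl _ h' = (s k)^[a.length] (cl _ h) := by
  intro a
  induction a with
  | nil => intro b h; exact ⟨h, rfl⟩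
  | cons c a ih =>
    intro b h
    have e1 := s_cl_mid k (a := []) (c := c) (b := a ++ b) h
    have h1 : IsPart (pieces c (k + 1) ++ (a ++ b)) ∧ 2 ≤ (pieces c (k + 1) ++ (a ++ b)).length :=
      ⟨isPart_mid (a := []) k h.1, len_split (a := []) k h.2⟩
    have hp : (pieces c (k + 1) ++ (a ++ b)).Perm (a ++ (pieces c (k + 1) ++ b)) := by
      rw [← List.append_assoc, ← List.append_assoc]
      exact List.Perm.append_right b List.perm_append_comm
    have e2 := cl_perm h1 hp
    obtain ⟨h2, e3⟩ := ih (pieces c (k + 1) ++ b)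
      ⟨h1.1.perm hp, by rw [← hp.length_eq]; exact h1.2⟩
    have hp2 : (a.flatMap (fun c => pieces c (k + 1)) ++ (pieces c (k + 1) ++ b)).Perm
        ((c :: a).flatMap (fun c => pieces c (k + 1)) ++ b) := by
      rw [List.flatMap_cons, ← List.append_assoc]
      exact List.Perm.append_right b List.perm_append_comm
    refine ⟨⟨h2.1.perm hp2, by rw [← hp2.length_eq]; exact h2.2⟩, ?_⟩
    rw [← cl_perm h2 hp2, e3, ← e2, List.length_cons, Function.iterate_succ_apply]
    congr 1

lemma pd_nodup {l : List Cls} (h : PD l) : l.Nodup := by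
  refine List.Pairwise.imp ?_ h.disj
  rintro c d hcd rfl
  exact hcd c.1 ⟨Int.ModEq.refl _, Int.ModEq.refl _⟩

lemma pd_flat (f : Cls → ℕ) (hf : ∀ c, 0 < f c) : ∀ {l : List Cls}, PD l →
    PD (l.flatMap (fun c => pieces c (f c))) ∧
    ∀ n, (∃ d ∈ l.flatMap (fun c => pieces c (f c)), Inn n d) ↔ ∃ c ∈ l, Inn n c
  | [], h => ⟨h, fun n => by simp⟩
  | c :: l, h => by
    have h' := List.pairwise_cons.mp h.disj
    have hc := h.rng c (by simp)
    obtain ⟨h1, h2⟩ := pd_flat f hf (l := l) ⟨fun d hd => h.rng d (by simp [hd]), h'.2⟩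
    rw [List.flatMap_cons]
    have h3 := inn_pieces (hf c) (c := c)
    refine ⟨⟨?_, ?_⟩, ?_⟩
    · intro d hd
      rw [List.mem_append] at hd
      rcases hd with hd | hd
      · exact rng_pieces hc d hd
      · exact h1.rng d hd
    · rw [List.pairwise_append]
      refine ⟨disj_pieces (by omega), h1.disj, ?_⟩
      intro x hx y hy n hn
      have e1 : Inn n c := (h3 n).mp ⟨x, hx, hn.1⟩
      obtain ⟨d, hd, e2⟩ := (h2 n).mp ⟨y, hy, hn.2⟩
      exact h'.1 d hd n ⟨e1, e2⟩
    · intro n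
      constructor
      · rintro ⟨d, hd, hn⟩
        rw [List.mem_append] at hd
        rcases hd with hd | hd
        · exact ⟨c, by simp, (h3 n).mp ⟨d, hd, hn⟩⟩
        · obtain ⟨e, he, hn'⟩ := (h2 n).mp ⟨d, hd, hn⟩
          exact ⟨e, by simp [he], hn'⟩
      · rintro ⟨d, hd, hn⟩
        rw [List.mem_cons] at hd
        rcases hd with rfl | hd
        · obtain ⟨e, he, hn'⟩ := (h3 n).mpr hn
          exact ⟨e, List.mem_append_left _ he, hn'⟩
        · obtain ⟨e, he, hn'⟩ := (h2 n).mpr ⟨d, hd, hn⟩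
          exact ⟨e, List.mem_append_right _ he, hn'⟩

lemma pieces_pieces {c : Cls} (hc : 0 ≤ c.1 ∧ c.1 < c.2) {q q' : ℕ} (hq : 0 < q) (hq' : 0 < q') :
    ((pieces c q).flatMap (fun d => pieces d q')).Perm (pieces c (q * q')) := by
  have hpd : PD (pieces c q) := ⟨rng_pieces hc, disj_pieces (by omega)⟩
  have h1 := pd_nodup (pd_flat (fun _ => q') (fun _ => hq') hpd).1
  have h2 : (pieces c (q * q')).Nodup := pd_nodup ⟨rng_pieces hc, disj_pieces (by omega)⟩
  rw [List.perm_ext_iff_of_nodup h1 h2]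
  intro d
  rw [List.mem_flatMap, mem_pieces]
  constructor
  · rintro ⟨e, he, hd⟩
    obtain ⟨j, hj, rfl⟩ := mem_pieces.mp he
    obtain ⟨i, hi, rfl⟩ := mem_pieces.mp hd
    refine ⟨j + q * i, ?_, ?_⟩
    · calc j + q * i < q + q * i := by omega
        _ = q * (i + 1) := by ring
        _ ≤ q * q' := Nat.mul_le_mul_left _ hi
    · ext
      · simp only; push_cast; ring
      · simp only; push_cast; ring
  · rintro ⟨t, ht, rfl⟩
    refine ⟨_, mem_pieces.mpr ⟨t % q, Nat.mod_lt _ hq, rfl⟩, mem_pieces.mpr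
      ⟨t / q, Nat.div_lt_of_lt_mul ht, ?_⟩⟩
    have h3 : ((t % q : ℕ) : ℤ) + q * ((t / q : ℕ) : ℤ) = t := by
      exact_mod_cast Nat.mod_add_div t q
    ext
    · simp only
      linear_combination (-c.2) * h3
    · simp only; push_cast; ring

lemma s_mul_aux (j k : ℕ) (x : E) : (s k)^[j + 1] (s j x) = s ((j + 1) * (k + 1) - 1) x := by
  induction x using Quotient.inductionOn with
  | h x =>
    obtain ⟨l, hl⟩ := x
    change (s k)^[j + 1] (s j (cl l hl)) = s ((j + 1) * (k + 1) - 1) (cl l hl)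
    match l, hl with
    | [], hl => simp at hl
    | c :: t, hl =>
      have e1 := s_cl_mid j (a := []) (c := c) (b := t) hl
      have e2 := s_cl_mid ((j + 1) * (k + 1) - 1) (a := []) (c := c) (b := t) hl
      obtain ⟨h1, e3⟩ := cl_flat_const k (pieces c (j + 1)) t
        ⟨isPart_mid (a := []) j hl.1, len_split (a := []) j hl.2⟩
      rw [length_pieces] at e3
      have hc := hl.1.rng c (by simp)
      have hp := (pieces_pieces hc (q := j + 1) (q' := k + 1) (Nat.succ_pos j)
        (Nat.succ_pos k)).append_right t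
      have hpos : (j + 1) * (k + 1) - 1 + 1 = (j + 1) * (k + 1) :=
        Nat.sub_add_cancel (Nat.mul_pos (Nat.succ_pos j) (Nat.succ_pos k))
      have e4 := cl_perm h1 hp
      refine (congrArg ((s k)^[j + 1]) e1).trans (e3.symm.trans (e4.trans ?_))
      refine Eq.trans ?_ e2.symm
      rw [cl_eq]
      rw [hpos]
      exact Rel.refl _

lemma s_eq (k : ℕ) (x : E) : s k x = (s 1)^[k] x := by
  have h1 := s_mul_aux k 1 x
  have h2 := s_mul_aux 1 k x
  have h3 : (k + 1) * (1 + 1) - 1 = (1 + 1) * (k + 1) - 1 := by rw [mul_comm]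
  rw [h3, ← h2] at h1
  -- h1 : (s 1)^[k+1] (s k x) = (s k)^[2] (s 1 x)
  have hcomm : Function.Commute (s 1) (s k) := fun y => s_comm 1 k y
  rw [Function.iterate_succ_apply'] at h1
  have h4 : (s k)^[1 + 1] (s 1 x) = s 1 (s k (s k x)) := by
    change s k (s k (s 1 x)) = _
    rw [s_comm k 1 x, s_comm k 1 (s k x)]
  rw [h4] at h1
  have h5 := s_inj 1 h1
  have h6 : (s 1)^[k] (s k x) = s k ((s 1)^[k] x) := (hcomm.iterate_left k).eq x
  rw [h6] at h5
  exact (s_inj k h5).symm

lemma cl_flat (f : Cls → ℕ) : ∀ (a b : List Cls) (h : IsPart (a ++ b) ∧ 2 ≤ (a ++ b).length),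
    ∃ h' : IsPart (a.flatMap (fun c => pieces c (f c + 1)) ++ b) ∧
      2 ≤ (a.flatMap (fun c => pieces c (f c + 1)) ++ b).length,
    cl _ h' = (s 1)^[(a.map f).sum] (cl _ h) := by
  intro a
  induction a with
  | nil => intro b h; exact ⟨h, rfl⟩
  | cons c a ih =>
    intro b h
    have e1 := s_cl_mid (f c) (a := []) (c := c) (b := a ++ b) h
    have h1 : IsPart (pieces c (f c + 1) ++ (a ++ b)) ∧
        2 ≤ (pieces c (f c + 1) ++ (a ++ b)).length :=
      ⟨isPart_mid (a := []) (f c) h.1, len_split (a := []) (f c) h.2⟩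
    have hp : (pieces c (f c + 1) ++ (a ++ b)).Perm (a ++ (pieces c (f c + 1) ++ b)) := by
      rw [← List.append_assoc, ← List.append_assoc]
      exact List.Perm.append_right b List.perm_append_comm
    have e2 := cl_perm h1 hp
    obtain ⟨h2, e3⟩ := ih (pieces c (f c + 1) ++ b)
      ⟨h1.1.perm hp, by rw [← hp.length_eq]; exact h1.2⟩
    have hp2 : (a.flatMap (fun c => pieces c (f c + 1)) ++ (pieces c (f c + 1) ++ b)).Perm
        ((c :: a).flatMap (fun c => pieces c (f c + 1)) ++ b) := by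
      rw [List.flatMap_cons, ← List.append_assoc]
      exact List.Perm.append_right b List.perm_append_comm
    refine ⟨⟨h2.1.perm hp2, by rw [← hp2.length_eq]; exact h2.2⟩, ?_⟩
    have hsum : ((c :: a).map f).sum = (a.map f).sum + f c := by
      rw [List.map_cons, List.sum_cons, add_comm]
    rw [hsum, Function.iterate_add_apply, ← s_eq (f c), ← cl_perm h2 hp2, e3, ← e2]
    exact congrArg _ e1.symm

/-- standard partition -/
def std (L : ℕ) : List Cls := (List.range L).map (fun j : ℕ => (((j : ℤ), (L : ℤ)) : Cls))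

lemma mem_std {L : ℕ} {c : Cls} : c ∈ std L ↔ 0 ≤ c.1 ∧ c.1 < L ∧ c.2 = L := by
  unfold std
  rw [List.mem_map]
  constructor
  · rintro ⟨j, hj, rfl⟩
    rw [List.mem_range] at hj
    have h2 : (j : ℤ) < (L : ℤ) := by exact_mod_cast hj
    exact ⟨Int.natCast_nonneg j, h2, rfl⟩
  · rintro ⟨h1, h2, h3⟩
    refine ⟨c.1.toNat, List.mem_range.mpr (by omega), ?_⟩
    ext
    · simp only; omega
    · simp only; omega

lemma std_nodup (L : ℕ) : (std L).Nodup := by
  unfold std
  apply List.Nodup.map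
  · intro a b hab
    simpa using hab
  · exact List.nodup_range

lemma perm_std {l : List Cls} (h : IsPart l) {L : ℕ} (hL : ∀ c ∈ l, c.2 = L) :
    l.Perm (std L) := by
  rw [List.perm_ext_iff_of_nodup (pd_nodup h.toPD) (std_nodup L)]
  intro c
  rw [mem_std]
  constructor
  · intro hc
    have := h.rng c hc
    rw [hL c hc] at this
    exact ⟨this.1, this.2, hL c hc⟩
  · rintro ⟨h1, h2, h3⟩
    obtain ⟨d, hd, hn⟩ := h.cover c.1
    have h4 := h.rng d hd
    have h5 := hL d hd
    unfold Inn at hn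
    have h6 : c.1 = d.1 := by
      have e1 : c.1 % d.2 = d.1 % d.2 := hn
      rw [h5] at e1
      rw [h5] at h4
      rwa [Int.emod_eq_of_lt h1 h2, Int.emod_eq_of_lt h4.1 h4.2] at e1
    have h7 : c = d := by
      ext
      · exact h6
      · rw [h3, h5]
    rw [h7]; exact hd

/-- all partitions of the same size are equivalent -/
theorem all_rel {l l' : List Cls} (h : IsPart l) (h' : IsPart l') (hl : 2 ≤ l.length)
    (hll : l.length = l'.length) : Rel l l' := by
  -- common modulus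
  set L : ℕ := ((l ++ l').map (fun c => c.2.toNat)).prod with hLdef
  have hdvd : ∀ c ∈ l ++ l', c.2.toNat ∣ L := fun c hc =>
    List.dvd_prod (List.mem_map.mpr ⟨c, hc, rfl⟩)
  have hpos : ∀ c ∈ l ++ l', 0 < c.2 := by
    intro c hc
    rw [List.mem_append] at hc
    rcases hc with hc | hc
    · have := h.rng c hc; omega
    · have := h'.rng c hc; omega
  have hLpos : 0 < L := by
    apply List.prod_pos
    intro a ha
    obtain ⟨c, hc, rfl⟩ := List.mem_map.mp ha
    have := hpos c hc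
    omega
  let f : Cls → ℕ := fun c => L / c.2.toNat - 1
  have hf : ∀ c ∈ l ++ l', c.2 * ((f c + 1 : ℕ) : ℤ) = L := by
    intro c hc
    have h1 := hpos c hc
    obtain ⟨t, ht⟩ := hdvd c hc
    have h2 : 0 < c.2.toNat := by omega
    have h3 : L / c.2.toNat = t := by rw [ht]; exact Nat.mul_div_cancel_left _ h2
    have h4 : 0 < t := by
      rcases Nat.eq_zero_or_pos t with h5 | h5
      · rw [h5, mul_zero] at ht; omega
      · exact h5
    have h5 : f c + 1 = t := by
      change L / c.2.toNat - 1 + 1 = t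
      rw [h3]; omega
    rw [h5]
    have h6 : ((c.2.toNat : ℕ) : ℤ) = c.2 := Int.toNat_of_nonneg h1.le
    calc c.2 * (t : ℤ) = ((c.2.toNat : ℕ) : ℤ) * t := by rw [h6]
      _ = ((c.2.toNat * t : ℕ) : ℤ) := by push_cast; ring
      _ = (L : ℤ) := by rw [← ht]
  have key : ∀ (m : List Cls) (hm : IsPart m) (hm2 : 2 ≤ m.length), (∀ c ∈ m, c ∈ l ++ l') →
      ∃ hs : IsPart (std L) ∧ 2 ≤ (std L).length,
        cl (std L) hs = (s 1)^[(m.map f).sum] (cl m ⟨hm, hm2⟩) ∧
        (m.map f).sum + m.length = L := by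
    intro m hm hm2 hsub
    have hm' : IsPart (m ++ []) ∧ 2 ≤ (m ++ []).length := by rw [List.append_nil]; exact ⟨hm, hm2⟩
    obtain ⟨h1, e1⟩ := cl_flat f m [] hm'
    have hp : (m.flatMap (fun c => pieces c (f c + 1)) ++ []).Perm (std L) := by
      apply perm_std h1.1
      intro d hd
      rw [List.append_nil, List.mem_flatMap] at hd
      obtain ⟨c, hc, hd⟩ := hd
      obtain ⟨j, hj, rfl⟩ := mem_pieces.mp hd
      exact hf c (hsub c hc)
    have e2 := cl_perm h1 hp
    refine ⟨_, e2.symm.trans (e1.trans ?_), ?_⟩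
    · congr 1
      rw [cl_eq, List.append_nil]
      exact Rel.refl _
    · have h2 := hp.length_eq
      rw [List.append_nil, List.length_flatMap] at h2
      have h3 : (std L).length = L := by simp [std]
      rw [h3] at h2
      rw [← h2]
      have h4 : (m.map (fun c => (pieces c (f c + 1)).length)) = m.map (fun c => f c + 1) := by
        apply List.map_congr_left
        intro c _
        rw [length_pieces]
      rw [h4]
      clear * -
      induction m with
      | nil => rfl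
      | cons c m ih =>
        rw [List.map_cons, List.map_cons, List.sum_cons, List.sum_cons, List.length_cons]
        omega
  obtain ⟨hs, e1, e2⟩ := key l h hl (fun c hc => List.mem_append_left _ hc)
  obtain ⟨hs', e1', e2'⟩ := key l' h' (by omega) (fun c hc => List.mem_append_right _ hc)
  have h1 : (l.map f).sum = (l'.map f).sum := by omega
  rw [← h1] at e1'
  have h2 := e1.symm.trans e1'
  have h3 := (s_inj 1).iterate _ h2
  exact (cl_eq _ _).mp h3

end Pool.Agent.Helper1.ClassTrans
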