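import Mathlib

set_option autoImplicit false

namespace Pool.Agent.Helper1.ConjOrderPL

/-- piecewise linear half-turn with break point p. -/
noncomputable def tau (p : ℚ) (x : ℚ) : ℚ :=
  ⌊x⌋ + (if Int.fract x < p then p + Int.fract x * ((1 - p) / p)
    else 1 + (Int.fract x - p) * (p / (1 - p)))

lemma tau_left {p : ℚ} (k : ℤ) (x : ℚ) (hp1 : p < 1) (h0 : (k : ℚ) ≤ x) (h1 : x < k + p) :
    tau p x = k + (p + (x - k) * ((1 - p) / p)) := by
  have hf : ⌊x⌋ = k := by
    rw [Int.floor_eq_iff]; constructor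
    · exact h0
    · linarith
  have hfr : Int.fract x = x - k := by rw [Int.fract, hf]
  unfold tau
  rw [hfr, hf, if_pos (by linarith)]

lemma tau_right {p : ℚ} (k : ℤ) (x : ℚ) (hp0 : 0 < p) (h0 : (k : ℚ) + p ≤ x) (h1 : x < k + 1) :
    tau p x = k + (1 + (x - k - p) * (p / (1 - p))) := by
  have hf : ⌊x⌋ = k := by
    rw [Int.floor_eq_iff]; constructor
    · linarith
    · linarith
  have hfr : Int.fract x = x - k := by rw [Int.fract, hf]
  unfold tau
  rw [hfr, hf, if_neg (by linarith)]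

/-- case split for a rational number -/
lemma cases_frac (p : ℚ) (x : ℚ) : ∃ k : ℤ, ((k : ℚ) ≤ x ∧ x < k + p) ∨ ((k : ℚ) + p ≤ x ∧ x < k + 1) := by
  refine ⟨⌊x⌋, ?_⟩
  have h1 := Int.floor_le x
  have h2 := Int.lt_floor_add_one x
  by_cases h : x < ⌊x⌋ + p
  · left; exact ⟨h1, h⟩
  · right; exact ⟨not_lt.mp h, h2⟩

lemma tau_tau {p : ℚ} (hp0 : 0 < p) (hp1 : p < 1) (x : ℚ) : tau p (tau p x) = x + 1 := by
  have hq : 0 < 1 - p := by linarith
  obtain ⟨k, h | h⟩ := cases_frac p x
  · rw [tau_left k x hp1 h.1 h.2]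
    have e1 : (x - k) * ((1 - p) / p) = (x - k) / p * (1 - p) := by field_simp
    have b1 : 0 ≤ (x - k) / p := div_nonneg (by linarith) hp0.le
    have b2 : (x - k) / p < 1 := by rw [div_lt_one hp0]; linarith
    rw [tau_right k _ hp0]
    · field_simp
      ring
    · rw [e1]; nlinarith
    · rw [e1]; nlinarith
  · rw [tau_right k x hp0 h.1 h.2]
    have e1 : (x - k - p) * (p / (1 - p)) = (x - k - p) / (1 - p) * p := by field_simp
    have b1 : 0 ≤ (x - k - p) / (1 - p) := div_nonneg (by linarith) hq.le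
    have b2 : (x - k - p) / (1 - p) < 1 := by rw [div_lt_one hq]; linarith
    rw [tau_left (k + 1) _ hp1]
    · push_cast
      field_simp
      ring
    · push_cast
      rw [e1]; nlinarith
    · push_cast
      rw [e1]; nlinarith

lemma tau_strictMono {p : ℚ} (hp0 : 0 < p) (hp1 : p < 1) : StrictMono (tau p) := by
  have hq : 0 < 1 - p := by linarith
  intro x y hxy
  have key : ∀ (x : ℚ) (k : ℤ), ((k : ℚ) ≤ x ∧ x < k + p) → tau p x < k + 1 ∧ k + p ≤ tau p x := by
    intro x k h
    rw [tau_left k x hp1 h.1 h.2]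
    have e1 : (x - k) * ((1 - p) / p) = (x - k) / p * (1 - p) := by field_simp
    have b1 : 0 ≤ (x - k) / p := div_nonneg (by linarith) hp0.le
    have b2 : (x - k) / p < 1 := by rw [div_lt_one hp0]; linarith
    rw [e1]
    constructor <;> nlinarith
  have key2 : ∀ (x : ℚ) (k : ℤ), ((k : ℚ) + p ≤ x ∧ x < k + 1) → k + 1 ≤ tau p x ∧
      tau p x < k + 1 + p := by
    intro x k h
    rw [tau_right k x hp0 h.1 h.2]
    have e1 : (x - k - p) * (p / (1 - p)) = (x - k - p) / (1 - p) * p := by field_simp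
    have b1 : 0 ≤ (x - k - p) / (1 - p) := div_nonneg (by linarith) hq.le
    have b2 : (x - k - p) / (1 - p) < 1 := by rw [div_lt_one hq]; linarith
    rw [e1]
    constructor <;> nlinarith
  obtain ⟨k, hk⟩ := cases_frac p x
  obtain ⟨l, hl⟩ := cases_frac p y
  have hkx : (k : ℚ) ≤ x := by rcases hk with h | h <;> linarith [h.1, h.2]
  have hyl : y < (l : ℚ) + 1 := by rcases hl with h | h <;> linarith [h.1, h.2]
  have hkl : k ≤ l := by
    have : (k : ℚ) < l + 1 := by linarith
    have : k < l + 1 := by exact_mod_cast this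
    omega
  rcases hk with hk | hk <;> rcases hl with hl | hl
  · rcases hkl.lt_or_eq with h | h
    · have h' : (k : ℚ) + 1 ≤ l := by exact_mod_cast h
      linarith [(key x k hk).1, (key y l hl).2]
    · subst h
      rw [tau_left k x hp1 hk.1 hk.2, tau_left k y hp1 hl.1 hl.2]
      have : 0 < (1 - p) / p := div_pos hq hp0
      nlinarith
  · have h' : (k : ℚ) ≤ l := by exact_mod_cast hkl
    linarith [(key x k hk).1, (key2 y l hl).1]
  · rcases hkl.lt_or_eq with h | h
    · have h' : (k : ℚ) + 1 ≤ l := by exact_mod_cast h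
      linarith [(key2 x k hk).2, (key y l hl).2]
    · subst h
      linarith [hk.1, hl.2]
  · rcases hkl.lt_or_eq with h | h
    · have h' : (k : ℚ) + 1 ≤ l := by exact_mod_cast h
      linarith [(key2 x k hk).2, (key2 y l hl).1]
    · subst h
      rw [tau_right k x hp0 hk.1 hk.2, tau_right k y hp0 hl.1 hl.2]
      have : 0 < p / (1 - p) := div_pos hp0 hq
      nlinarith

lemma tau_add_one {p : ℚ} (x : ℚ) : tau p (x + 1) = tau p x + 1 := by
  unfold tau
  rw [Int.floor_add_one, Int.fract_add_one]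
  push_cast
  ring

lemma tau_sub_one {p : ℚ} (x : ℚ) : tau p (x - 1) = tau p x - 1 := by
  have := tau_add_one (p := p) (x - 1)
  rw [sub_add_cancel] at this
  linarith

/-- `tau` as an order isomorphism. -/
noncomputable def tauIso (p : ℚ) (hp0 : 0 < p) (hp1 : p < 1) : ℚ ≃o ℚ where
  toFun := tau p
  invFun := fun x => tau p x - 1
  left_inv := by
    intro x
    change tau p (tau p x) - 1 = x
    rw [tau_tau hp0 hp1]; ring
  right_inv := by
    intro x
    change tau p (tau p x - 1) = x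
    rw [tau_sub_one, tau_tau hp0 hp1]; ring
  map_rel_iff' := by
    intro a b
    exact (tau_strictMono hp0 hp1).le_iff_le

/-- translation -/
def tr (s : ℚ) : ℚ ≃o ℚ := OrderIso.addRight s

@[simp] lemma tr_apply (s x : ℚ) : tr s x = x + s := rfl

/-- the auxiliary map `g` -/
noncomputable def gf (L X : ℚ) : ℚ := tau (2/3) (X - L/3) + 2 * (L - 1) / 3

lemma gf_mid (L : ℚ) (k : ℤ) (X : ℚ) (h0 : (k:ℚ) + L/3 ≤ X) (h1 : X < k + L/3 + 2/3) :
    gf L X = k + (X - k)/2 + L/2 := by
  unfold gf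
  rw [tau_left k _ (by norm_num) (by linarith) (by linarith)]
  ring

lemma gf_out (L : ℚ) (k : ℤ) (X : ℚ) (h0 : (k:ℚ) + L/3 - 1/3 ≤ X) (h1 : X < k + L/3) :
    gf L X = k + 2 * (X - k) := by
  unfold gf
  rw [tau_right (k-1) _ (by norm_num) (by push_cast; linarith) (by push_cast; linarith)]
  push_cast
  ring

lemma gf_tau_gf {L : ℚ} (h0 : 0 < L) (h1 : L < 1) (X : ℚ) :
    gf L (tau L (gf L X)) = tau L X := by
  have hq : 0 < 1 - L := by linarith
  have hr1 : 0 < (1 - L)/L := div_pos hq h0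
  have hr2 : 0 < L/(1-L) := div_pos h0 hq
  have e1 : (1 - L)/L * L = 1 - L := by field_simp
  have e2 : L/(1-L) * (1 - L) = L := by field_simp
  obtain ⟨k, h | h⟩ := cases_frac L X
  · by_cases hx : X < k + L/3
    · rw [gf_out L k X (by linarith) hx]
      rw [tau_left k _ h1 (by linarith) (by linarith)]
      rw [tau_left k X h1 h.1 h.2]
      set r := (1 - L)/L with hr
      have b1 : 0 ≤ (X - k) * r := mul_nonneg (by linarith) hr1.le
      have b2 : (X - k) * r < (1 - L)/3 := by nlinarith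
      rw [gf_mid L k _ (by nlinarith) (by nlinarith)]
      ring
    · push Not at hx
      rw [gf_mid L k X hx (by linarith)]
      rw [tau_left k _ h1 (by linarith) (by linarith)]
      rw [tau_left k X h1 h.1 h.2]
      set r := (1 - L)/L with hr
      have b1 : (1 - L)/3 ≤ (X - k) * r := by nlinarith
      have b2 : (X - k) * r < (1 - L) := by nlinarith
      have e3 : (↑k + (X - ↑k) / 2 + L / 2 - ↑k) * r = (X - k) * r / 2 + (1 - L)/2 := by
        linear_combination e1/2
      rw [e3]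
      rw [gf_out L (k+1) _ (by push_cast; linarith) (by push_cast; linarith)]
      push_cast
      ring
  · set r := L/(1-L) with hr
    by_cases hx : X < k + L/3 + 2/3
    · rw [gf_mid L k X (by linarith) hx]
      rw [tau_right k _ h0 (by linarith) (by linarith)]
      rw [tau_right k X h0 h.1 h.2]
      rw [← hr]
      have b1 : 0 ≤ (X - k - L) * r := mul_nonneg (by linarith) hr2.le
      have b2 : (X - k - L) * r < 2 * L/3 := by nlinarith
      have e3 : (↑k + (X - ↑k) / 2 + L / 2 - ↑k - L) * r = (X - k - L) * r / 2 := by ring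
      rw [e3]
      rw [gf_out L (k+1) _ (by push_cast; linarith) (by push_cast; linarith)]
      push_cast
      ring
    · push Not at hx
      rw [gf_out L (k+1) X (by push_cast; linarith) (by push_cast; linarith)]
      rw [tau_right k _ h0 (by push_cast; linarith) (by push_cast; linarith)]
      rw [tau_right k X h0 h.1 h.2]
      rw [← hr]
      have b1 : 2 * L/3 ≤ (X - k - L) * r := by nlinarith
      have b2 : (X - k - L) * r < L := by nlinarith
      have e3 : (((k + 1 : ℤ) : ℚ) + 2 * (X - ((k + 1 : ℤ) : ℚ)) - ↑k - L) * r =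
          2 * ((X - k - L) * r) - L := by
        push_cast
        linear_combination -e2
      rw [e3]
      rw [gf_mid L (k+1) _ (by push_cast; linarith) (by push_cast; linarith)]
      push_cast
      ring

lemma tr_mul (s t : ℚ) : tr s * tr t = tr (s + t) := by
  ext x
  change x + t + s = x + (s + t)
  ring

lemma tauIso_sq (p : ℚ) (hp0 : 0 < p) (hp1 : p < 1) :
    tauIso p hp0 hp1 * tauIso p hp0 hp1 = tr 1 := by
  ext x
  exact tau_tau hp0 hp1 x

lemma tauIso_tr (p : ℚ) (hp0 : 0 < p) (hp1 : p < 1) :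
    tauIso p hp0 hp1 * tr 1 = tr 1 * tauIso p hp0 hp1 := by
  rw [← tauIso_sq p hp0 hp1, mul_assoc]

/-- existence of the three half-turns -/
theorem exists_three (L : ℚ) (h0 : 0 < L) (h1 : L < 1) :
    ∃ F₁ F₂ F₃ : ℚ ≃o ℚ, F₁ * F₁ = tr 1 ∧ F₂ * F₂ = tr 1 ∧ F₃ * F₃ = tr 1 ∧
      F₁ * F₂ * F₃ = tr (L/3 + 4/3) := by
  have q0 : (0:ℚ) < 2/3 := by norm_num
  have q1 : (2/3 : ℚ) < 1 := by norm_num
  set F₂ := tauIso L h0 h1 with hF₂
  set F₃ := tr (L/3) * tauIso (2/3) q0 q1 * tr (-(L/3)) with hF₃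
  set g := tr (L/3 - 2/3) * F₃ with hg
  have e3 : F₃ * F₃ = tr 1 := by
    have : F₃ * F₃ = tr (L/3) * tauIso (2/3) q0 q1 * (tr (-(L/3)) * tr (L/3)) *
        tauIso (2/3) q0 q1 * tr (-(L/3)) := by
      rw [hF₃]; group
    rw [this, tr_mul]
    have h00 : tr (-(L/3) + L/3) = 1 := by
      ext x; simp
    rw [h00, mul_one, mul_assoc (tr (L/3)), tauIso_sq, tr_mul, tr_mul]
    congr 1; ring
  have e2 : F₂ * F₂ = tr 1 := tauIso_sq L h0 h1
  have hgf : ∀ x, g x = gf L x := by
    intro x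
    change tau (2/3) (x + -(L/3)) + L/3 + (L/3 - 2/3) = _
    unfold gf
    rw [← sub_eq_add_neg]
    ring
  have e4 : g * F₂ * g = F₂ := by
    ext x
    change g (F₂ (g x)) = F₂ x
    rw [hgf, hgf]
    exact gf_tau_gf h0 h1 x
  have c3 : tr 1 * F₃ = F₃ * tr 1 := by
    rw [← e3, mul_assoc]
  refine ⟨g * F₂, F₂, F₃, ?_, e2, e3, ?_⟩
  · calc g * F₂ * (g * F₂) = g * F₂ * g * F₂ := by group
      _ = tr 1 := by rw [e4, e2]
  · calc g * F₂ * F₂ * F₃ = g * (F₂ * F₂) * F₃ := by group
      _ = tr (L/3 - 2/3) * (F₃ * tr 1) * F₃ := by rw [e2, hg]; group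
      _ = tr (L/3 - 2/3) * tr 1 * (F₃ * F₃) := by rw [← c3]; group
      _ = tr (L/3 + 4/3) := by
        rw [e3, tr_mul, tr_mul]; congr 1; ring

/-- conjugation by the dilation `x ↦ ζ x` -/
noncomputable def scale (z : ℚ) (hz : z ≠ 0) : (ℚ ≃o ℚ) →* (ℚ ≃o ℚ) where
  toFun F :=
    { toFun := fun x => z * F (x / z)
      invFun := fun x => z * F.symm (x / z)
      left_inv := by
        intro x
        simp only
        rw [mul_div_cancel_left₀ _ hz, OrderIso.symm_apply_apply, mul_div_cancel₀ _ hz]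
      right_inv := by
        intro x
        simp only
        rw [mul_div_cancel_left₀ _ hz, OrderIso.apply_symm_apply, mul_div_cancel₀ _ hz]
      map_rel_iff' := by
        intro a b
        simp only [Equiv.coe_fn_mk]
        rcases lt_or_gt_of_ne hz with h | h
        · rw [mul_le_mul_left_of_neg h, F.le_iff_le, div_le_div_right_of_neg h]
        · rw [mul_le_mul_iff_right₀ h, F.le_iff_le, div_le_div_iff_of_pos_right h] }
  map_one' := by
    ext x
    change z * (x / z) = x
    rw [mul_div_cancel₀ _ hz]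
  map_mul' := by
    intro F G
    ext x
    change z * F (G (x / z)) = z * F (z * G (x / z) / z)
    rw [mul_div_cancel_left₀ _ hz]

lemma scale_tr (z : ℚ) (hz : z ≠ 0) (s : ℚ) : scale z hz (tr s) = tr (z * s) := by
  ext x
  change z * (x / z + s) = x + z * s
  field_simp

/-- the three half-turns for `z` -/
theorem exists_three_scaled (z : ℚ) (hz : 3 < |z|) :
    ∃ F₁ F₂ F₃ : ℚ ≃o ℚ, F₁ * F₁ = tr z ∧ F₂ * F₂ = tr z ∧ F₃ * F₃ = tr z ∧
      (F₁ * F₂ * F₃) * (F₁ * F₂ * F₃) = tr (3 * z - 1) := by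
  have hz0 : z ≠ 0 := by
    rintro rfl; norm_num at hz
  set L : ℚ := 1/2 - 3/(2*z) with hL
  have hLa : |3/(2*z)| < 1/2 := by
    rw [abs_div, abs_mul, abs_of_pos (by norm_num : (0:ℚ) < 3), abs_of_pos (by norm_num : (0:ℚ) < 2)]
    rw [div_lt_div_iff₀ (by positivity) (by norm_num)]
    linarith
  rw [abs_lt] at hLa
  obtain ⟨F₁, F₂, F₃, h1, h2, h3, h4⟩ := exists_three L (by linarith) (by linarith)
  refine ⟨scale z hz0 F₁, scale z hz0 F₂, scale z hz0 F₃, ?_, ?_, ?_, ?_⟩
  · rw [← map_mul, h1, scale_tr, mul_one]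
  · rw [← map_mul, h2, scale_tr, mul_one]
  · rw [← map_mul, h3, scale_tr, mul_one]
  · rw [← map_mul, ← map_mul, h4, scale_tr, tr_mul]
    congr 1
    rw [hL]
    field_simp
    ring

end Pool.Agent.Helper1.ConjOrderPL
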