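import Mathlib

set_option autoImplicit false
open MeasureTheory Set
open scoped ENNReal

namespace Pool.Agent.Helper1.L0A5

/-- The alternating group of degree five. -/
abbrev K := alternatingGroup (Fin 5)

instance instMK : MeasurableSpace K := ⊤

instance instDK : DiscreteMeasurableSpace K := ⟨fun _ => trivial⟩

/-- The group of measurable functions to `K`. -/
def MF (X : Type) [MeasurableSpace X] : Subgroup (X → K) where
  carrier := {f | Measurable f}
  mul_mem' := by
    intro a b ha hb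
    exact (Measurable.of_discrete (f := fun p : K × K => p.1 * p.2)).comp (ha.prodMk hb)
  one_mem' := measurable_const
  inv_mem' := by
    intro a ha
    exact (Measurable.of_discrete (f := fun p : K => p⁻¹)).comp ha

section
variable {X : Type} [MeasurableSpace X]

open Classical in
/-- The function equal to `k` on `B` and `1` elsewhere. -/
noncomputable def ind (B : Set X) (hB : MeasurableSet B) (k : K) : MF X :=
  ⟨fun x => if x ∈ B then k else 1, Measurable.ite hB measurable_const measurable_const⟩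

lemma ind_mem {B : Set X} {hB : MeasurableSet B} {k : K} {x : X} (h : x ∈ B) :
    (ind B hB k).1 x = k := by simp [ind, h]

lemma ind_not {B : Set X} {hB : MeasurableSet B} {k : K} {x : X} (h : x ∉ B) :
    (ind B hB k).1 x = 1 := by simp [ind, h]

/-- Every measurable function agrees on `A` with a member of `H`. -/
def Good (H : Subgroup (MF X)) (A : Set X) : Prop :=
  ∀ g : MF X, ∃ h ∈ H, ∀ x ∈ A, h.1 x = g.1 x

/-- All functions supported in `B` lie in `H`. -/
def Inn (H : Subgroup (MF X)) (B : Set X) : Prop :=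
  ∀ f : MF X, (∀ x, x ∉ B → f.1 x = 1) → f ∈ H

lemma exists_seq (μ : Measure X)
    (hs : ∀ C : Set X, MeasurableSet C → μ C ≠ 0 →
      ∃ D ⊆ C, MeasurableSet D ∧ μ D ≠ 0 ∧ μ (C \ D) ≠ 0)
    (C : Set X) (hC : MeasurableSet C) (h0 : μ C ≠ 0) :
    ∃ D : ℕ → Set X, (∀ n, MeasurableSet (D n)) ∧ (∀ n, D n ⊆ C) ∧
      (∀ i j, i ≠ j → Disjoint (D i) (D j)) ∧ ∀ n, μ (D n) ≠ 0 := by
  choose g hg1 hg2 hg3 hg4 using hs
  let E : ℕ → {S : Set X // MeasurableSet S ∧ μ S ≠ 0} := fun n =>
    Nat.rec ⟨C, hC, h0⟩ (fun _ S => ⟨g S.1 S.2.1 S.2.2, hg2 _ _ _, hg3 _ _ _⟩) n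
  have hE0 : (E 0).1 = C := rfl
  have hEs : ∀ n, (E (n + 1)).1 = g (E n).1 (E n).2.1 (E n).2.2 := fun n => rfl
  have hsub : ∀ n, (E (n + 1)).1 ⊆ (E n).1 := by
    intro n; rw [hEs]; exact hg1 _ _ _
  have hanti : Antitone fun n => (E n).1 := antitone_nat_of_succ_le hsub
  refine ⟨fun n => (E n).1 \ (E (n + 1)).1, ?_, ?_, ?_, ?_⟩
  · intro n; exact (E n).2.1.diff (E (n + 1)).2.1
  · intro n x hx
    have := hanti (Nat.zero_le n) hx.1
    exact this
  · intro i j hij
    rw [Set.disjoint_left]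
    intro x hx hy
    rcases lt_or_gt_of_ne hij with h | h
    · exact hx.2 (hanti (Nat.succ_le_of_lt h) hy.1)
    · exact hy.2 (hanti (Nat.succ_le_of_lt h) hx.1)
  · intro n
    have := hg4 (E n).1 (E n).2.1 (E n).2.2
    rwa [← hEs] at this

/-- Stabiliser of a point. -/
def St (ψ : MF X →* Equiv.Perm ℕ) (m : ℕ) : Subgroup (MF X) where
  carrier := {f | ψ f m = m}
  mul_mem' := by
    intro a b ha hb
    simp only [mem_setOf_eq] at *
    rw [map_mul, Equiv.Perm.mul_apply, hb, ha]
  one_mem' := by simp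
  inv_mem' := by
    intro a ha
    simp only [mem_setOf_eq] at *
    rw [map_inv, Equiv.Perm.inv_eq_iff_eq, ha]

lemma exists_good (ψ : MF X →* Equiv.Perm ℕ) (m : ℕ) (D : ℕ → Set X)
    (hD : ∀ n, MeasurableSet (D n)) (hdis : ∀ i j, i ≠ j → Disjoint (D i) (D j)) :
    ∃ n, Good (St ψ m) (D n) := by
  classical
  by_contra hcon
  simp only [Good] at hcon
  push Not at hcon
  choose g hg using hcon
  let y0 : ℕ → MF X := fun j => if h : ∃ f : MF X, ψ f m = j then h.choose else 1
  have hy0 : ∀ j, (∃ f : MF X, ψ f m = j) → ψ (y0 j) m = j := by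
    intro j h
    simp only [y0, dif_pos h]
    exact h.choose_spec
  obtain ⟨y, hym, hy⟩ := exists_measurable_piecewise D hD (fun n => (y0 n * g n).1)
    (fun n => (y0 n * g n).2) (by
      intro i j hij x hx
      exact absurd hx.2 (Set.disjoint_left.1 (hdis i j hij) hx.1))
  let Y : MF X := ⟨y, hym⟩
  have hj := hy0 (ψ Y m) ⟨Y, rfl⟩
  set j := ψ Y m with hjdef
  have hmem : (y0 j)⁻¹ * Y ∈ St ψ m := by
    change ψ ((y0 j)⁻¹ * Y) m = m
    rw [map_mul, Equiv.Perm.mul_apply, map_inv, Equiv.Perm.inv_eq_iff_eq, hj]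
  obtain ⟨x, hx, hne⟩ := hg j _ hmem
  apply hne
  have := hy j hx
  change ((y0 j).1 x)⁻¹ * y x = (g j).1 x
  rw [this]
  change ((y0 j).1 x)⁻¹ * ((y0 j).1 x * (g j).1 x) = _
  group

lemma simpleK : IsSimpleGroup K := alternatingGroup.isSimpleGroup (by simp)

lemma centerK (a : K) (ha : a ≠ 1) : ∃ u : K, a * u * a⁻¹ * u⁻¹ ≠ 1 := by
  by_contra hcon
  push Not at hcon
  have h1 : a ∈ Subgroup.center K := by
    rw [Subgroup.mem_center_iff]
    intro u
    have := hcon u
    have h2 : a * u = u * a := by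
      calc a * u = (a * u * a⁻¹ * u⁻¹) * (u * a) := by group
        _ = u * a := by rw [this, one_mul]
    exact h2.symm
  haveI := simpleK
  rcases (inferInstance : (Subgroup.center K).Normal).eq_bot_or_eq_top with h | h
  · rw [h, Subgroup.mem_bot] at h1; exact ha h1
  · have hc : ∀ x y : K, x * y = y * x := by
      intro x y
      have hy : y ∈ Subgroup.center K := by rw [h]; trivial
      exact Subgroup.mem_center_iff.1 hy x
    have m1 : Equiv.swap (0 : Fin 5) 1 * Equiv.swap 1 2 ∈ alternatingGroup (Fin 5) := by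
      rw [Equiv.Perm.mem_alternatingGroup]; decide
    have m2 : Equiv.swap (0 : Fin 5) 1 * Equiv.swap 1 3 ∈ alternatingGroup (Fin 5) := by
      rw [Equiv.Perm.mem_alternatingGroup]; decide
    have hx : (Equiv.swap (0 : Fin 5) 1 * Equiv.swap 1 2) * (Equiv.swap (0 : Fin 5) 1 * Equiv.swap 1 3)
        ≠ (Equiv.swap (0 : Fin 5) 1 * Equiv.swap 1 3) * (Equiv.swap (0 : Fin 5) 1 * Equiv.swap 1 2) := by
      decide
    exact hx (congrArg Subtype.val (hc ⟨_, m1⟩ ⟨_, m2⟩))

lemma ind_all (H : Subgroup (MF X)) (A : Set X) (hA : Good H A)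
    (f : MF X) (hf : f ∈ H) (hfA : ∀ x, x ∉ A → f.1 x = 1) (a : K) (ha : a ≠ 1)
    (P : Set X) (hP : MeasurableSet P) (hPA : P ⊆ A) (hfP : ∀ x ∈ P, f.1 x = a) (b : K) :
    ind P hP b ∈ H := by
  haveI := simpleK
  let L : Subgroup K :=
    { carrier := {b | ind P hP b ∈ H}
      mul_mem' := by
        intro x y hx hy
        simp only [mem_setOf_eq] at *
        have : ind P hP (x * y) = ind P hP x * ind P hP y := by
          apply Subtype.ext; funext z
          change (ind P hP (x * y)).1 z = (ind P hP x).1 z * (ind P hP y).1 z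
          by_cases hz : z ∈ P
          · simp [ind_mem hz]
          · simp [ind_not hz]
        rw [this]; exact H.mul_mem hx hy
      one_mem' := by
        have : ind P hP 1 = 1 := by
          apply Subtype.ext; funext z
          change (ind P hP 1).1 z = 1
          by_cases hz : z ∈ P
          · simp [ind_mem hz]
          · simp [ind_not hz]
        simp only [mem_setOf_eq]; rw [this]; exact H.one_mem
      inv_mem' := by
        intro x hx
        simp only [mem_setOf_eq] at *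
        have : ind P hP x⁻¹ = (ind P hP x)⁻¹ := by
          apply Subtype.ext; funext z
          change (ind P hP x⁻¹).1 z = ((ind P hP x).1 z)⁻¹
          by_cases hz : z ∈ P
          · simp [ind_mem hz]
          · simp [ind_not hz]
        rw [this]; exact H.inv_mem hx }
  have hLn : L.Normal := by
    constructor
    intro n hn w
    change ind P hP n ∈ H at hn
    obtain ⟨h, hh, hhA⟩ := hA (ind P hP w)
    change ind P hP (w * n * w⁻¹) ∈ H
    have : ind P hP (w * n * w⁻¹) = h * ind P hP n * h⁻¹ := by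
      apply Subtype.ext; funext z
      change (ind P hP (w * n * w⁻¹)).1 z = h.1 z * (ind P hP n).1 z * (h.1 z)⁻¹
      by_cases hz : z ∈ P
      · rw [ind_mem hz, ind_mem hz, hhA z (hPA hz), ind_mem hz]
      · rw [ind_not hz, ind_not hz]; group
    rw [this]
    exact H.mul_mem (H.mul_mem hh hn) (H.inv_mem hh)
  obtain ⟨u, hu⟩ := centerK a ha
  have hc : a * u * a⁻¹ * u⁻¹ ∈ L := by
    change ind P hP (a * u * a⁻¹ * u⁻¹) ∈ H
    obtain ⟨h, hh, hhA⟩ := hA (ind P hP u)
    have : ind P hP (a * u * a⁻¹ * u⁻¹) = f * h * f⁻¹ * h⁻¹ := by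
      apply Subtype.ext; funext z
      change (ind P hP (a * u * a⁻¹ * u⁻¹)).1 z = f.1 z * h.1 z * (f.1 z)⁻¹ * (h.1 z)⁻¹
      by_cases hz : z ∈ P
      · rw [ind_mem hz, hhA z (hPA hz), ind_mem hz, hfP z hz]
      · rw [ind_not hz]
        by_cases hzA : z ∈ A
        · rw [hhA z hzA, ind_not hz]; group
        · rw [hfA z hzA]; group
    rw [this]
    exact H.mul_mem (H.mul_mem (H.mul_mem hf hh) (H.inv_mem hf)) (H.inv_mem hh)
  rcases hLn.eq_bot_or_eq_top with h | h
  · rw [h, Subgroup.mem_bot] at hc; exact absurd hc hu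
  · have : b ∈ L := by rw [h]; trivial
    exact this

open Classical in
lemma inn_of_ind (H : Subgroup (MF X)) (P : Set X)
    (hi : ∀ (Q : Set X) (hQ : MeasurableSet Q), Q ⊆ P → ∀ b : K, ind Q hQ b ∈ H) : Inn H P := by
  have key : ∀ s : Finset K, ∀ g : MF X, (∀ x, x ∉ P → g.1 x = 1) →
      (∀ x, g.1 x ∈ s ∨ g.1 x = 1) → g ∈ H := by
    intro s
    induction s using Finset.induction_on with
    | empty =>
      intro g _ h2
      have : g = 1 := by
        apply Subtype.ext; funext x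
        have := h2 x
        simpa using this
      rw [this]; exact H.one_mem
    | insert b s hb ih =>
      intro g h1 h2
      by_cases hb1 : b = 1
      · apply ih g h1
        intro x
        rcases h2 x with h | h
        · rw [Finset.mem_insert] at h
          rcases h with h | h
          · right; rw [h, hb1]
          · left; exact h
        · right; exact h
      have hQ : MeasurableSet (g.1 ⁻¹' {b}) := g.2 trivial
      have hQP : g.1 ⁻¹' {b} ⊆ P := by
        intro x hx
        by_contra hxP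
        have := h1 x hxP
        rw [mem_preimage, mem_singleton_iff] at hx
        rw [hx] at this
        exact hb1 this
      have hI := hi _ hQ hQP b
      have hg' : g * (ind _ hQ b)⁻¹ ∈ H := by
        apply ih
        · intro x hx
          change g.1 x * ((ind _ hQ b).1 x)⁻¹ = 1
          have hxQ : x ∉ g.1 ⁻¹' {b} := fun h => hx (hQP h)
          rw [ind_not hxQ, h1 x hx]; simp
        · intro x
          change g.1 x * ((ind _ hQ b).1 x)⁻¹ ∈ s ∨ g.1 x * ((ind _ hQ b).1 x)⁻¹ = 1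
          by_cases hxQ : x ∈ g.1 ⁻¹' {b}
          · right
            rw [ind_mem hxQ]
            rw [mem_preimage, mem_singleton_iff] at hxQ
            rw [hxQ]; simp
          · rw [ind_not hxQ]
            rcases h2 x with h | h
            · rw [Finset.mem_insert] at h
              rcases h with h | h
              · exact absurd h hxQ
              · left; simpa using h
            · right; simpa using h
      have : g = g * (ind _ hQ b)⁻¹ * ind _ hQ b := by group
      rw [this]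
      exact H.mul_mem hg' hI
  intro f hf
  haveI : Fintype K := inferInstance
  exact key Finset.univ f hf (fun x => Or.inl (Finset.mem_univ _))

open Classical in
/-- The union of the pieces indexed by `R`. -/
def un (D : ℕ → Set X) (R : Set ℕ) : Set X := ⋃ n, ⋃ (_ : n ∈ R), D n

lemma un_meas (D : ℕ → Set X) (hD : ∀ n, MeasurableSet (D n)) (R : Set ℕ) :
    MeasurableSet (un D R) :=
  MeasurableSet.iUnion fun n => MeasurableSet.iUnion fun _ => hD n

lemma exK : ∃ k : K, k ≠ 1 := by
  haveI := simpleK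
  exact exists_ne 1

lemma good_inn (μ : Measure X)
    (hs : ∀ C : Set X, MeasurableSet C → μ C ≠ 0 →
      ∃ D ⊆ C, MeasurableSet D ∧ μ D ≠ 0 ∧ μ (C \ D) ≠ 0)
    (ψ : MF X →* Equiv.Perm ℕ) (m : ℕ) (A : Set X) (hA : MeasurableSet A) (hA0 : μ A ≠ 0)
    (hG : Good (St ψ m) A) : ∃ P ⊆ A, MeasurableSet P ∧ μ P ≠ 0 ∧ Inn (St ψ m) P := by
  obtain ⟨D, hD, hDA, hdis, hD0⟩ := exists_seq μ hs A hA hA0
  obtain ⟨k, hk⟩ := exK
  let F : Set ℕ → MF X := fun R => ind (un D R) (un_meas D hD R) k
  have hmemD : ∀ (R : Set ℕ) (n : ℕ) (x : X), x ∈ D n → (x ∈ un D R ↔ n ∈ R) := by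
    intro R n x hx
    constructor
    · intro h
      simp only [un, mem_iUnion] at h
      obtain ⟨i, hi, hxi⟩ := h
      by_cases hin : i = n
      · rw [← hin]; exact hi
      · exact absurd hx (Set.disjoint_left.1 (hdis i n hin) hxi)
    · intro h
      simp only [un, mem_iUnion]
      exact ⟨n, h, hx⟩
  have hunA : ∀ R, un D R ⊆ A := by
    intro R x hx
    simp only [un, mem_iUnion] at hx
    obtain ⟨i, _, hxi⟩ := hx
    exact hDA i hxi
  have hninj : ¬ Function.Injective (fun R : Set ℕ => ψ (F R) m) :=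
    Function.cantor_injective _
  simp only [Function.Injective] at hninj
  push Not at hninj
  obtain ⟨R, R', heq, hne⟩ := hninj
  have hf : (F R)⁻¹ * F R' ∈ St ψ m := by
    change ψ ((F R)⁻¹ * F R') m = m
    rw [map_mul, Equiv.Perm.mul_apply, map_inv, Equiv.Perm.inv_eq_iff_eq]
    exact heq.symm
  have hn : ∃ n, ¬ (n ∈ R ↔ n ∈ R') := by
    by_contra hcon
    push Not at hcon
    exact hne (Set.ext hcon)
  obtain ⟨n, hn⟩ := hn
  have hval : ∃ a : K, a ≠ 1 ∧ ∀ x ∈ D n, ((F R)⁻¹ * F R').1 x = a := by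
    by_cases h : n ∈ R
    · have h' : n ∉ R' := fun h' => hn ⟨fun _ => h', fun _ => h⟩
      refine ⟨k⁻¹, by simpa using hk, fun x hx => ?_⟩
      change ((F R).1 x)⁻¹ * (F R').1 x = k⁻¹
      rw [ind_mem ((hmemD R n x hx).2 h), ind_not (fun hh => h' ((hmemD R' n x hx).1 hh))]
      simp
    · have h' : n ∈ R' := by
        by_contra h'
        exact hn ⟨fun hh => absurd hh h, fun hh => absurd hh h'⟩
      refine ⟨k, hk, fun x hx => ?_⟩
      change ((F R).1 x)⁻¹ * (F R').1 x = k
      rw [ind_not (fun hh => h ((hmemD R n x hx).1 hh)), ind_mem ((hmemD R' n x hx).2 h')]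
      simp
  obtain ⟨a, ha, hfa⟩ := hval
  refine ⟨D n, hDA n, hD n, hD0 n, ?_⟩
  apply inn_of_ind
  intro Q hQ hQP b
  refine ind_all (St ψ m) A hG _ hf ?_ a ha Q hQ (hQP.trans (hDA n)) (fun x hx => hfa x (hQP hx)) b
  intro x hx
  change ((F R).1 x)⁻¹ * (F R').1 x = 1
  rw [ind_not (fun hh => hx (hunA R hh)), ind_not (fun hh => hx (hunA R' hh))]
  simp

lemma exists_inn (μ : Measure X)
    (hs : ∀ C : Set X, MeasurableSet C → μ C ≠ 0 →
      ∃ D ⊆ C, MeasurableSet D ∧ μ D ≠ 0 ∧ μ (C \ D) ≠ 0)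
    (ψ : MF X →* Equiv.Perm ℕ) (m : ℕ) (C : Set X) (hC : MeasurableSet C) (hC0 : μ C ≠ 0) :
    ∃ P ⊆ C, MeasurableSet P ∧ μ P ≠ 0 ∧ Inn (St ψ m) P := by
  obtain ⟨D, hD, hDC, hdis, hD0⟩ := exists_seq μ hs C hC hC0
  obtain ⟨n, hn⟩ := exists_good ψ m D hD hdis
  obtain ⟨P, hP, h1, h2, h3⟩ := good_inn μ hs ψ m (D n) (hD n) (hD0 n) hn
  exact ⟨P, hP.trans (hDC n), h1, h2, h3⟩

lemma inn_union (H : Subgroup (MF X)) (B C : Set X) (hB : MeasurableSet B)
    (h1 : Inn H B) (h2 : Inn H C) : Inn H (B ∪ C) := by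
  classical
  intro f hf
  let f1 : MF X := ⟨fun x => if x ∈ B then f.1 x else 1, Measurable.ite hB f.2 measurable_const⟩
  have hf1 : f1 ∈ H := by
    apply h1
    intro x hx
    simp [f1, hx]
  have hf2 : f1⁻¹ * f ∈ H := by
    apply h2
    intro x hx
    change (f1.1 x)⁻¹ * f.1 x = 1
    by_cases hxB : x ∈ B
    · simp [f1, hxB]
    · have : f.1 x = 1 := hf x (by simp [hxB, hx])
      simp [f1, hxB, this]
  have : f = f1 * (f1⁻¹ * f) := by group
  rw [this]
  exact H.mul_mem hf1 hf2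

lemma inn_empty (H : Subgroup (MF X)) : Inn H ∅ := by
  intro f hf
  have : f = 1 := by
    apply Subtype.ext; funext x
    exact hf x (by simp)
  rw [this]; exact H.one_mem

lemma exhaust (μ : Measure X) [IsProbabilityMeasure μ]
    (hs : ∀ C : Set X, MeasurableSet C → μ C ≠ 0 →
      ∃ D ⊆ C, MeasurableSet D ∧ μ D ≠ 0 ∧ μ (C \ D) ≠ 0)
    (ψ : MF X →* Equiv.Perm ℕ) (m : ℕ) (ε : ℝ≥0∞) (hε : 0 < ε) :
    ∃ B : Set X, MeasurableSet B ∧ Inn (St ψ m) B ∧ μ Bᶜ < ε := by
  let I : Set (Set X) := {B | MeasurableSet B ∧ Inn (St ψ m) B}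
  have hne : (μ '' I).Nonempty := ⟨μ ∅, ∅, ⟨MeasurableSet.empty, inn_empty _⟩, rfl⟩
  obtain ⟨u, -, hut, hum⟩ := exists_seq_tendsto_sSup hne (OrderTop.bddAbove _)
  choose B hBI hBu using hum
  have hle : ∀ S ∈ I, μ S ≤ sSup (μ '' I) := fun S hS => le_sSup ⟨S, hS, rfl⟩
  have hsfin : sSup (μ '' I) ≠ ∞ := by
    apply ne_top_of_le_ne_top ENNReal.one_ne_top
    apply sSup_le
    rintro _ ⟨S, _, rfl⟩
    exact prob_le_one
  have hUm : MeasurableSet (⋃ n, B n) := MeasurableSet.iUnion fun n => (hBI n).1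
  have hU0 : μ (⋃ n, B n)ᶜ = 0 := by
    by_contra hcon
    obtain ⟨P, hP, hPm, hP0, hPI⟩ := exists_inn μ hs ψ m _ hUm.compl hcon
    have h1 : ∀ n, u n + μ P ≤ sSup (μ '' I) := by
      intro n
      have hd : Disjoint (B n) P := by
        rw [Set.disjoint_left]
        intro x hx hxP
        exact hP hxP (mem_iUnion.2 ⟨n, hx⟩)
      rw [← hBu n, ← measure_union hd hPm]
      exact hle _ ⟨(hBI n).1.union hPm, inn_union _ _ _ (hBI n).1 (hBI n).2 hPI⟩
    have h2 : sSup (μ '' I) + μ P ≤ sSup (μ '' I) :=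
      le_of_tendsto (hut.add_const (μ P)) (Filter.Eventually.of_forall h1)
    have h3 : sSup (μ '' I) + μ P ≤ sSup (μ '' I) + 0 := by simpa using h2
    have h4 := (ENNReal.add_le_add_iff_left hsfin).1 h3
    exact hP0 (le_antisymm h4 (by simp))
  have hacc : ∀ n, accumulate B n ∈ I := by
    intro n
    induction n with
    | zero =>
      have : accumulate B 0 = B 0 := by
        ext x; simp [accumulate_def]
      rw [this]; exact hBI 0
    | succ n ih =>
      have : accumulate B (n + 1) = accumulate B n ∪ B (n + 1) := accumulate_succ B n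
      rw [this]
      exact ⟨ih.1.union (hBI _).1, inn_union _ _ _ ih.1 ih.2 (hBI _).2⟩
  have h5 : μ (⋃ n, B n) = 1 := by
    have := prob_compl_eq_zero_iff hUm |>.1 hU0
    exact this
  have h6 : Filter.Tendsto (fun n => μ (accumulate B n)) Filter.atTop (nhds 1) := by
    rw [← h5]
    exact tendsto_measure_iUnion_accumulate
  have h7 : Filter.Tendsto (fun n => 1 - μ (accumulate B n)) Filter.atTop (nhds (1 - 1)) :=
    ENNReal.Tendsto.sub tendsto_const_nhds h6 (Or.inl ENNReal.one_ne_top)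
  rw [tsub_self] at h7
  obtain ⟨n, hn⟩ := (h7.eventually (gt_mem_nhds hε)).exists
  refine ⟨accumulate B n, (hacc n).1, (hacc n).2, ?_⟩
  rw [prob_compl_eq_one_sub (hacc n).1]
  exact hn

theorem main (μ : Measure X) [IsProbabilityMeasure μ]
    (hs : ∀ C : Set X, MeasurableSet C → μ C ≠ 0 →
      ∃ D ⊆ C, MeasurableSet D ∧ μ D ≠ 0 ∧ μ (C \ D) ≠ 0)
    (ψ : MF X →* Equiv.Perm ℕ) :
    ∃ B : Set X, MeasurableSet B ∧ μ B ≠ 0 ∧
      ∀ f : MF X, (∀ x, x ∉ B → f.1 x = 1) → ψ f = 1 := by
  obtain ⟨ε, hε0, hε1⟩ := ENNReal.exists_pos_sum_of_countable' (ε := 1) one_ne_zero ℕ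
  choose B hB1 hB2 hB3 using fun m => exhaust μ hs ψ m (ε m) (hε0 m)
  have hm : MeasurableSet (⋂ m, B m) := MeasurableSet.iInter hB1
  refine ⟨⋂ m, B m, hm, ?_, ?_⟩
  · intro h0
    have h1 : μ (⋂ m, B m)ᶜ = 1 := (prob_compl_eq_one_iff hm).2 h0
    have h2 : μ (⋂ m, B m)ᶜ < 1 := by
      rw [compl_iInter]
      refine lt_of_le_of_lt (measure_iUnion_le _) ?_
      refine lt_of_le_of_lt (ENNReal.tsum_le_tsum fun m => (hB3 m).le) hε1
    rw [h1] at h2
    exact lt_irrefl _ h2
  · intro f hf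
    ext m
    have : f ∈ St ψ m := by
      apply hB2 m
      intro x hx
      apply hf
      intro hh
      exact hx (mem_iInter.1 hh m)
    have h : ψ f m = m := this
    simp [h]

end

end Pool.Agent.Helper1.L0A5
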