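import Mathlib
import Pool.Agent.Helper1.L0A5

set_option autoImplicit false
open MeasureTheory Set
open scoped ENNReal NNReal

namespace Pool.Agent.Helper1.L0A5

lemma split (C : Set unitInterval) (hC : MeasurableSet C)
    (h0 : (volume : Measure unitInterval) C ≠ 0) :
    ∃ D ⊆ C, MeasurableSet D ∧ (volume : Measure unitInterval) D ≠ 0 ∧
      (volume : Measure unitInterval) (C \ D) ≠ 0 := by
  by_contra hcon
  push Not at hcon
  have hstep : ∀ n : ℕ, ∃ x : unitInterval,
      (volume : Measure unitInterval) (C \ Metric.ball x (1 / ((n : ℝ) + 1))) = 0 := by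
    intro n
    have hr : (0 : ℝ) < 1 / ((n : ℝ) + 1) := by positivity
    have hx : ∃ x : unitInterval,
        (volume : Measure unitInterval) (C ∩ Metric.ball x (1 / ((n : ℝ) + 1))) ≠ 0 := by
      by_contra h
      push Not at h
      apply h0
      have hsub : C ⊆ ⋃ k, C ∩ Metric.ball (TopologicalSpace.denseSeq unitInterval k)
          (1 / ((n : ℝ) + 1)) := by
        intro y hy
        obtain ⟨k, hk⟩ := (TopologicalSpace.denseRange_denseSeq unitInterval).exists_dist_lt y hr
        exact mem_iUnion.2 ⟨k, hy, hk⟩
      exact measure_mono_null hsub (measure_iUnion_null fun k => h _)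
    obtain ⟨x, hx⟩ := hx
    refine ⟨x, ?_⟩
    have := hcon (C ∩ Metric.ball x (1 / ((n : ℝ) + 1))) inter_subset_left
      (hC.inter measurableSet_ball) hx
    rwa [diff_self_inter] at this
  choose x hx using hstep
  apply h0
  have hsub : C ⊆ (⋃ n : ℕ, C \ Metric.ball (x n) (1 / ((n : ℝ) + 1))) ∪
      (⋂ n : ℕ, Metric.ball (x n) (1 / ((n : ℝ) + 1))) := by
    intro y hy
    by_cases h : ∀ n : ℕ, y ∈ Metric.ball (x n) (1 / ((n : ℝ) + 1))
    · right; exact mem_iInter.2 h
    · left
      push Not at h
      obtain ⟨n, hn⟩ := h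
      exact mem_iUnion.2 ⟨n, hy, hn⟩
  have hss : (⋂ n : ℕ, Metric.ball (x n) (1 / ((n : ℝ) + 1))).Subsingleton := by
    intro y hy z hz
    rw [← dist_le_zero]
    apply le_of_forall_pos_lt_add
    intro ε hε
    obtain ⟨n, hn⟩ := exists_nat_one_div_lt (half_pos hε)
    have h1 := mem_iInter.1 hy n
    have h2 := mem_iInter.1 hz n
    rw [Metric.mem_ball] at h1 h2
    calc dist y z ≤ dist y (x n) + dist z (x n) := dist_triangle_right _ _ _
      _ < 1 / ((n : ℝ) + 1) + 1 / ((n : ℝ) + 1) := add_lt_add h1 h2
      _ < ε / 2 + ε / 2 := add_lt_add hn hn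
      _ = 0 + ε := by ring
  refine measure_mono_null hsub (measure_union_null (measure_iUnion_null hx) ?_)
  exact hss.measure_zero _

/-- The group of measurable functions from the unit interval to `K`. -/
def G0 : Type := ↥(MF unitInterval)

noncomputable instance instG : Group G0 := inferInstanceAs (Group ↥(MF unitInterval))

/-- the underlying function -/
def G0.fn (f : G0) : unitInterval → K := f.1

lemma G0.meas (f : G0) : Measurable f.fn := f.2

/-- the set where two functions differ -/
def df (f g : G0) : Set unitInterval := {x | f.fn x ≠ g.fn x}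

lemma df_meas (f g : G0) : MeasurableSet (df f g) :=
  (f.meas.prodMk g.meas) (MeasurableSet.of_discrete (s := {p : K × K | p.1 ≠ p.2}))

lemma df_self (f : G0) : df f f = ∅ := by
  ext x; simp [df]

lemma df_comm (f g : G0) : df f g = df g f := by
  ext x; simp [df, eq_comm]

lemma df_tri (f g h : G0) : df f h ⊆ df f g ∪ df g h := by
  intro x hx
  by_contra hcon
  simp only [df, mem_union, mem_ofPred_eq, not_or, not_not] at hcon hx
  exact hx (hcon.1.trans hcon.2)

noncomputable instance instPM : PseudoMetricSpace G0 where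
  dist f g := (volume : Measure unitInterval).real (df f g)
  dist_self f := by simp [df_self]
  dist_comm f g := by rw [df_comm]
  dist_triangle f g h :=
    (measureReal_mono (df_tri f g h)).trans (measureReal_union_le _ _)

lemma dist_def' (f g : G0) : dist f g = (volume : Measure unitInterval).real (df f g) := rfl

lemma edist_def' (f g : G0) : edist f g = (volume : Measure unitInterval) (df f g) := by
  rw [edist_dist, dist_def', ofReal_measureReal]

lemma mul_fn (f g : G0) (x : unitInterval) : (f * g).fn x = f.fn x * g.fn x := rfl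
lemma inv_fn (f : G0) (x : unitInterval) : (f⁻¹).fn x = (f.fn x)⁻¹ := rfl

instance instTG : IsTopologicalGroup G0 where
  continuous_mul := by
    have : LipschitzWith 2 (fun p : G0 × G0 => p.1 * p.2) := by
      apply LipschitzWith.of_dist_le_mul
      intro p q
      have h1 : dist (p.1 * p.2) (q.1 * q.2) ≤ dist p.1 q.1 + dist p.2 q.2 := by
        refine (measureReal_mono ?_).trans (measureReal_union_le _ _)
        intro x hx
        by_contra hcon
        simp only [df, mem_union, mem_ofPred_eq, not_or, not_not] at hcon hx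
        apply hx
        rw [mul_fn, mul_fn, hcon.1, hcon.2]
      have h2 : dist p.1 q.1 ≤ dist p q := le_max_left _ _
      have h3 : dist p.2 q.2 ≤ dist p q := le_max_right _ _
      have : ((2 : ℝ≥0) : ℝ) = 2 := rfl
      rw [this]
      linarith
    exact this.continuous
  continuous_inv := by
    have : LipschitzWith 1 (fun p : G0 => p⁻¹) := by
      apply LipschitzWith.of_dist_le_mul
      intro p q
      simp only [NNReal.coe_one, one_mul]
      refine measureReal_mono ?_
      intro x hx hcon
      apply hx
      rw [inv_fn, inv_fn, hcon]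
    exact this.continuous

/-- an injection of `K` into the reals -/
noncomputable def cc (k : K) : ℝ := ((Fintype.equivFin K k : ℕ) : ℝ)

lemma cc_bd (k : K) : ‖cc k‖ ≤ (Fintype.card K : ℝ) := by
  rw [cc, Real.norm_natCast]
  exact_mod_cast (Fintype.equivFin K k).2.le

lemma cc_low (k l : K) (h : k ≠ l) : 1 ≤ ‖cc k - cc l‖ := by
  have h1 : (Fintype.equivFin K k : ℕ) ≠ (Fintype.equivFin K l : ℕ) := by
    intro hh
    exact h ((Fintype.equivFin K).injective (Fin.ext hh))
  rw [cc, cc, Real.norm_eq_abs]
  have h2 : (1 : ℤ) ≤ |((Fintype.equivFin K k : ℕ) : ℤ) - ((Fintype.equivFin K l : ℕ) : ℤ)| := by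
    apply Int.one_le_abs
    intro hh
    apply h1
    omega
  have h3 : ((1 : ℤ) : ℝ) ≤
      ((|((Fintype.equivFin K k : ℕ) : ℤ) - ((Fintype.equivFin K l : ℕ) : ℤ)| : ℤ) : ℝ) :=
    Int.cast_le.2 h2
  rw [Int.cast_abs] at h3
  simpa using h3

lemma cc_memLp (f : G0) : MemLp (fun x => cc (f.fn x)) 1 (volume : Measure unitInterval) := by
  apply MemLp.of_bound (C := (Fintype.card K : ℝ))
  · exact ((Measurable.of_discrete (f := cc)).comp f.meas).aestronglyMeasurable
  · exact Filter.Eventually.of_forall fun x => cc_bd _

/-- the embedding in the space of integrable functions -/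
noncomputable def Phi (f : G0) : Lp ℝ 1 (volume : Measure unitInterval) := (cc_memLp f).toLp _

lemma edist_Phi (f g : G0) : edist (Phi f) (Phi g) =
    ∫⁻ x, ‖cc (f.fn x) - cc (g.fn x)‖ₑ ∂(volume : Measure unitInterval) := by
  rw [Phi, Phi, Lp.edist_toLp_toLp, eLpNorm_one_eq_lintegral_enorm]
  rfl

lemma Phi_anti : AntilipschitzWith 1 Phi := by
  intro f g
  rw [edist_Phi, edist_def']
  simp only [ENNReal.coe_one, one_mul]
  rw [← lintegral_indicator_one (df_meas f g)]
  apply lintegral_mono
  intro x
  by_cases hx : x ∈ df f g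
  · rw [indicator_of_mem hx]
    have := cc_low _ _ hx
    simp only [Pi.one_apply]
    rw [← ofReal_norm_eq_enorm]
    exact ENNReal.one_le_ofReal.2 this
  · rw [indicator_of_notMem hx]
    simp

lemma Phi_lip : LipschitzWith (2 * (Fintype.card K : ℝ≥0)) Phi := by
  intro f g
  rw [edist_Phi, edist_def', ← lintegral_indicator_one (df_meas f g)]
  rw [← lintegral_const_mul' _ _ (by exact ENNReal.coe_ne_top)]
  apply lintegral_mono
  intro x
  by_cases hx : x ∈ df f g
  · simp only [indicator_of_mem hx, Pi.one_apply, mul_one]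
    rw [← ofReal_norm_eq_enorm]
    apply ENNReal.ofReal_le_of_le_toReal
    have h1 := cc_bd (f.fn x)
    have h2 := cc_bd (g.fn x)
    have h3 := norm_sub_le (cc (f.fn x)) (cc (g.fn x))
    rw [ENNReal.coe_toReal]
    push_cast
    linarith
  · have : f.fn x = g.fn x := by
      by_contra h; exact hx h
    simp [this]

instance instSep : TopologicalSpace.SeparableSpace G0 := by
  have h1 : IsUniformInducing Phi := Phi_anti.isUniformInducing Phi_lip.uniformContinuous
  haveI : Fact ((1 : ℝ≥0∞) ≠ ∞) := ⟨ENNReal.one_ne_top⟩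
  haveI : SecondCountableTopology G0 := h1.isInducing.secondCountableTopology
  infer_instance

theorem final : ¬ ∃ f : SeparationQuotient G0 →* Equiv.Perm ℕ, Function.Injective f := by
  rintro ⟨φ, hφ⟩
  let toG : ↥(MF unitInterval) → G0 := fun f => f
  let q : ↥(MF unitInterval) →* SeparationQuotient G0 :=
    { toFun := fun f => SeparationQuotient.mk (toG f)
      map_one' := rfl
      map_mul' := fun _ _ => rfl }
  obtain ⟨B, hB, hB0, hBf⟩ := main (volume : Measure unitInterval) split (φ.comp q)
  obtain ⟨k, hk⟩ := exK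
  have h1 := hBf (ind B hB k) (fun x hx => ind_not hx)
  have h2 : q (ind B hB k) = 1 := by
    apply hφ
    rw [map_one]
    exact h1
  have h3 : (SeparationQuotient.mk (toG (ind B hB k)) : SeparationQuotient G0) =
      SeparationQuotient.mk (1 : G0) := h2
  have h3' := SeparationQuotient.mk_eq_mk.1 h3
  have h4 : edist (toG (ind B hB k)) (1 : G0) = 0 := by
    have := Metric.inseparable_iff.1 h3'
    rw [edist_dist, this]; simp
  rw [edist_def'] at h4
  apply hB0
  refine measure_mono_null ?_ h4
  intro x hx
  change (ind B hB k).1 x ≠ 1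
  rw [ind_mem hx]
  exact hk

end Pool.Agent.Helper1.L0A5
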