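import Mathlib

set_option autoImplicit false

namespace Pool.Agent.Helper1.LatHomeo

/-- increasing bijections of the real line -/
def Hm : Type := ℝ ≃o ℝ

namespace Hm

instance : FunLike Hm ℝ ℝ := inferInstanceAs (FunLike (ℝ ≃o ℝ) ℝ ℝ)

instance : Group Hm := inferInstanceAs (Group (ℝ ≃o ℝ))

lemma ext {f g : Hm} (h : ∀ x, f x = g x) : f = g := OrderIso.ext (funext h)

lemma le_iff (f : Hm) {x y : ℝ} : f x ≤ f y ↔ x ≤ y := OrderIso.le_iff_le (f : ℝ ≃o ℝ)

lemma lt_iff (f : Hm) {x y : ℝ} : f x < f y ↔ x < y := OrderIso.lt_iff_lt (f : ℝ ≃o ℝ)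

lemma inj (f : Hm) {x y : ℝ} (h : f x = f y) : x = y := (OrderIso.injective (f : ℝ ≃o ℝ)) h

@[simp] lemma mul_apply (f g : Hm) (x : ℝ) : (f * g) x = f (g x) := rfl

@[simp] lemma one_apply (x : ℝ) : (1 : Hm) x = x := rfl

@[simp] lemma inv_apply_self (f : Hm) (x : ℝ) : f⁻¹ (f x) = x := by
  rw [← mul_apply, inv_mul_cancel]; rfl

@[simp] lemma apply_inv_self (f : Hm) (x : ℝ) : f (f⁻¹ x) = x := by
  rw [← mul_apply, mul_inv_cancel]; rfl

/-- constructor -/
noncomputable def mk' (F : ℝ → ℝ) (h1 : StrictMono F) (h2 : Function.Surjective F) : Hm :=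
  StrictMono.orderIsoOfSurjective F h1 h2

@[simp] lemma mk'_apply (F : ℝ → ℝ) (h1 : StrictMono F) (h2 : Function.Surjective F) (x : ℝ) :
    mk' F h1 h2 x = F x := rfl

instance : PartialOrder Hm where
  le f g := ∀ x, f x ≤ g x
  le_refl f x := le_rfl
  le_trans f g h h1 h2 x := (h1 x).trans (h2 x)
  le_antisymm f g h1 h2 := ext fun x => le_antisymm (h1 x) (h2 x)

lemma le_def {f g : Hm} : f ≤ g ↔ ∀ x, f x ≤ g x := Iff.rfl

/-- pointwise maximum -/
noncomputable def mx (f g : Hm) : Hm := mk' (fun x => max (f x) (g x))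
  (fun x y h => max_lt_max (f.lt_iff.mpr h) (g.lt_iff.mpr h))
  (fun y => by
    rcases le_total (f⁻¹ y) (g⁻¹ y) with h | h
    · refine ⟨f⁻¹ y, ?_⟩
      have := g.le_iff.mpr h
      simp only [apply_inv_self] at this ⊢
      exact max_eq_left this
    · refine ⟨g⁻¹ y, ?_⟩
      have := f.le_iff.mpr h
      simp only [apply_inv_self] at this ⊢
      exact max_eq_right this)

/-- pointwise minimum -/
noncomputable def mn (f g : Hm) : Hm := mk' (fun x => min (f x) (g x))
  (fun x y h => min_lt_min (f.lt_iff.mpr h) (g.lt_iff.mpr h))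
  (fun y => by
    rcases le_total (f⁻¹ y) (g⁻¹ y) with h | h
    · refine ⟨g⁻¹ y, ?_⟩
      have := f.le_iff.mpr h
      simp only [apply_inv_self] at this ⊢
      exact min_eq_right this
    · refine ⟨f⁻¹ y, ?_⟩
      have := g.le_iff.mpr h
      simp only [apply_inv_self] at this ⊢
      exact min_eq_left this)

noncomputable instance : Lattice Hm :=
  { (inferInstance : PartialOrder Hm) with
    sup := mx
    inf := mn
    le_sup_left := fun f g x => le_max_left _ _
    le_sup_right := fun f g x => le_max_right _ _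
    sup_le := fun f g h h1 h2 x => max_le (h1 x) (h2 x)
    inf_le_left := fun f g x => min_le_left _ _
    inf_le_right := fun f g x => min_le_right _ _
    le_inf := fun f g h h1 h2 x => le_min (h1 x) (h2 x) }

@[simp] lemma sup_apply (f g : Hm) (x : ℝ) : (f ⊔ g) x = max (f x) (g x) := rfl
@[simp] lemma inf_apply (f g : Hm) (x : ℝ) : (f ⊓ g) x = min (f x) (g x) := rfl

/-- affine maps `t ↦ q + M (t - p)` -/
noncomputable def aff (p q M : ℝ) (hM : 0 < M) : Hm := mk' (fun t => q + M * (t - p))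
  (fun x y h => by
    have : M * (x - p) < M * (y - p) := mul_lt_mul_of_pos_left (by linarith) hM
    change q + M * (x - p) < q + M * (y - p)
    linarith)
  (fun y => ⟨p + (y - q) / M, by
    change q + M * (p + (y - q) / M - p) = y
    field_simp
    ring⟩)

@[simp] lemma aff_apply (p q M : ℝ) (hM : 0 < M) (t : ℝ) :
    aff p q M hM t = q + M * (t - p) := rfl

/-- bump with support `(p,q)` -/
noncomputable def bump (p q : ℝ) : Hm := 1 ⊔ (aff p p 2 two_pos ⊓ aff q q (1 / 2) (by norm_num))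

lemma bump_apply (p q t : ℝ) :
    bump p q t = max t (min (p + 2 * (t - p)) (q + (1 / 2) * (t - q))) := rfl

lemma bump_out {p q t : ℝ} (h : t ≤ p ∨ q ≤ t) : bump p q t = t := by
  rw [bump_apply]
  apply max_eq_left
  rcases h with h | h
  · exact (min_le_left _ _).trans (by linarith)
  · exact (min_le_right _ _).trans (by linarith)

lemma bump_in {p q t : ℝ} (h1 : p < t) (h2 : t < q) : t < bump p q t := by
  rw [bump_apply]
  exact lt_max_of_lt_right (lt_min (by linarith) (by linarith))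

lemma one_le_bump (p q : ℝ) : 1 ≤ bump p q := fun t => by
  rw [bump_apply]; exact le_max_left _ _

/-- prime filter of a point -/
def Pt (x y : ℝ) : Set Hm := {f | y ≤ f x}

lemma mem_Pt {x y : ℝ} {f : Hm} : f ∈ Pt x y ↔ y ≤ f x := Iff.rfl

/-- inf-complete prime filters -/
structure Pr (P : Set Hm) : Prop where
  ne : ∃ f, f ∈ P
  pr : ∃ f, f ∉ P
  up : ∀ f g, f ≤ g → f ∈ P → g ∈ P
  inf : ∀ f g, f ∈ P → g ∈ P → f ⊓ g ∈ P
  sup : ∀ f g, f ⊔ g ∈ P → f ∈ P ∨ g ∈ P
  glb : ∀ (S : Set Hm) (g : Hm), IsGLB S g → S ⊆ P → g ∈ P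

lemma pr_Pt (x y : ℝ) : Pr (Pt x y) := by
  refine ⟨⟨aff x y 1 one_pos, ?_⟩, ⟨aff x (y - 1) 1 one_pos, ?_⟩, ?_, ?_, ?_, ?_⟩
  · rw [mem_Pt, aff_apply]; linarith
  · rw [mem_Pt, aff_apply]; linarith
  · intro f g h h1; exact le_trans h1 (h x)
  · intro f g h1 h2
    change y ≤ min (f x) (g x)
    exact le_min h1 h2
  · intro f g h
    change y ≤ max (f x) (g x) at h
    exact le_max_iff.mp h
  · intro S g hg hS
    rw [mem_Pt]
    by_contra hlt
    push Not at hlt
    have h1 : bump (g x) y * g ∈ lowerBounds S := by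
      intro f hf t
      have h2 := hg.1 hf
      have h3 : y ≤ f x := hS hf
      rw [mul_apply]
      rcases le_total t x with ht | ht
      · rw [bump_out (Or.inl (g.le_iff.mpr ht))]; exact h2 t
      · rcases le_total y (g t) with hy | hy
        · rw [bump_out (Or.inr hy)]; exact h2 t
        · have h4 := (bump (g x) y).le_iff.mpr hy
          rw [bump_out (Or.inr le_rfl)] at h4
          exact h4.trans (h3.trans (f.le_iff.mpr ht))
    have h2 := hg.2 h1
    have h3 := h2 (g⁻¹ ((g x + y) / 2))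
    rw [mul_apply, apply_inv_self] at h3
    have h4 := bump_in (p := g x) (q := y) (t := (g x + y) / 2) (by linarith) (by linarith)
    linarith

lemma Pt_sub {x y x' y' : ℝ} : Pt x y ⊆ Pt x' y' ↔ x ≤ x' ∧ y' ≤ y := by
  constructor
  · intro h
    have h1 : x ≤ x' := by
      by_contra hlt
      push Not at hlt
      have hM : 0 < (|y - y'| + 1) / (x - x') := div_pos (by positivity) (by linarith)
      have h2 : aff x y _ hM ∈ Pt x y := by rw [mem_Pt, aff_apply]; linarith
      have h3 := h h2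
      rw [mem_Pt, aff_apply] at h3
      have h4 : (|y - y'| + 1) / (x - x') * (x' - x) = -(|y - y'| + 1) := by
        have : x - x' ≠ 0 := by linarith
        field_simp
        ring
      rw [h4] at h3
      have := le_abs_self (y - y')
      linarith
    refine ⟨h1, ?_⟩
    by_contra hlt
    push Not at hlt
    have hM : 0 < (y' - y) / (2 * (x' - x + 1)) := div_pos (by linarith) (by linarith)
    have h2 : aff x y _ hM ∈ Pt x y := by rw [mem_Pt, aff_apply]; linarith
    have h3 := h h2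
    rw [mem_Pt, aff_apply] at h3
    have h4 : (y' - y) / (2 * (x' - x + 1)) * (x' - x) ≤ (y' - y) / 2 := by
      rw [div_mul_eq_mul_div, div_le_div_iff₀ (by linarith) (by norm_num)]
      nlinarith
    linarith
  · rintro ⟨h1, h2⟩ f hf
    exact h2.trans (le_trans hf (f.le_iff.mpr h1))

lemma Pr_ex {P : Set Hm} (hP : Pr P) : ∃ x y, P = Pt x y := by
  obtain ⟨u, hu⟩ := hP.ne
  obtain ⟨v₀, hv₀⟩ := hP.pr
  -- lower `v`
  obtain ⟨v, hv, hvu⟩ : ∃ v, v ∉ P ∧ v ≤ u :=
    ⟨v₀ ⊓ u, fun h => hv₀ (hP.up _ _ inf_le_left h), inf_le_right⟩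
  -- right end
  obtain ⟨f₁, N₁, hf₁, hN₁⟩ : ∃ (f : Hm) (N : ℝ), f ∉ P ∧ ∀ t, N ≤ t → u t ≤ f t := by
    by_contra hcon
    push Not at hcon
    apply hv
    apply hP.glb {f | ∃ h : Hm, ∃ N : ℝ, f = h ⊔ v ∧ ∀ t, N ≤ t → u t ≤ h t} v
    · constructor
      · rintro f ⟨h, N, rfl, -⟩
        exact le_sup_right
      · intro w hw t
        have h1 : u * aff t (u⁻¹ (v t)) 2 two_pos ⊔ v ∈
            {f | ∃ h : Hm, ∃ N : ℝ, f = h ⊔ v ∧ ∀ t, N ≤ t → u t ≤ h t} := by
          refine ⟨_, 2 * t - u⁻¹ (v t), rfl, fun s hs => ?_⟩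
          rw [mul_apply, u.le_iff, aff_apply]
          linarith
        have h2 := hw h1 t
        simp only [sup_apply, mul_apply, aff_apply, sub_self, mul_zero, add_zero,
          apply_inv_self, max_self] at h2
        exact h2
    · rintro f ⟨h, N, rfl, hN⟩
      by_contra hf
      have h1 : h ∉ P := fun h2 => hf (hP.up _ _ le_sup_left h2)
      obtain ⟨t, ht1, ht2⟩ := hcon h N h1
      exact absurd (hN t ht1) (not_le.mpr ht2)
  obtain ⟨f₂, N₂, hf₂, hN₂⟩ : ∃ (f : Hm) (N : ℝ), f ∉ P ∧ ∀ t, t ≤ N → u t ≤ f t := by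
    by_contra hcon
    push Not at hcon
    apply hv
    apply hP.glb {f | ∃ h : Hm, ∃ N : ℝ, f = h ⊔ v ∧ ∀ t, t ≤ N → u t ≤ h t} v
    · constructor
      · rintro f ⟨h, N, rfl, -⟩
        exact le_sup_right
      · intro w hw t
        have h1 : u * aff t (u⁻¹ (v t)) (1 / 2) (by norm_num) ⊔ v ∈
            {f | ∃ h : Hm, ∃ N : ℝ, f = h ⊔ v ∧ ∀ t, t ≤ N → u t ≤ h t} := by
          refine ⟨_, 2 * u⁻¹ (v t) - t, rfl, fun s hs => ?_⟩
          rw [mul_apply, u.le_iff, aff_apply]
          linarith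
        have h2 := hw h1 t
        simp only [sup_apply, mul_apply, aff_apply, sub_self, mul_zero, add_zero,
          apply_inv_self, max_self] at h2
        exact h2
    · rintro f ⟨h, N, rfl, hN⟩
      by_contra hf
      have h1 : h ∉ P := fun h2 => hf (hP.up _ _ le_sup_left h2)
      obtain ⟨t, ht1, ht2⟩ := hcon h N h1
      exact absurd (hN t ht1) (not_le.mpr ht2)
  have hv' : v ⊔ f₁ ⊔ f₂ ∉ P := fun h => by
    rcases hP.sup _ _ h with h | h
    · rcases hP.sup _ _ h with h | h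
      · exact hv h
      · exact hf₁ h
    · exact hf₂ h
  set v' := v ⊔ f₁ ⊔ f₂ with hv'def
  have hout : ∀ t, t ≤ N₂ ∨ N₁ ≤ t → u t ≤ v' t := by
    rintro t (ht | ht)
    · exact (hN₂ t ht).trans (le_max_right _ _)
    · exact (hN₁ t ht).trans ((le_max_right _ _).trans (le_max_left _ _))
  -- a point in the intersection
  obtain ⟨x, y, hB, hT⟩ : ∃ x y : ℝ, (∀ f ∈ P, y ≤ f x) ∧ (∀ f : Hm, y < f x → f ∈ P) := by
    by_contra hcon
    push Not at hcon
    have hK : IsCompact (Set.Icc N₂ N₁ ×ˢ Set.Icc (v' N₂) (u N₁)) :=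
      isCompact_Icc.prod isCompact_Icc
    have key : ∃ F ∈ P, ∃ G, G ∉ P ∧ ∀ z ∈ Set.Icc N₂ N₁ ×ˢ Set.Icc (v' N₂) (u N₁),
        F z.1 < z.2 ∨ z.2 < G z.1 := by
      refine IsCompact.induction_on (p := fun s => ∃ F ∈ P, ∃ G, G ∉ P ∧ ∀ z ∈ s,
        F z.1 < z.2 ∨ z.2 < G z.1) hK ?_ ?_ ?_ ?_
      · exact ⟨u, hu, v, hv, fun z hz => absurd hz (Set.notMem_empty z)⟩
      · rintro s t hst ⟨F, hF, G, hG, h⟩
        exact ⟨F, hF, G, hG, fun z hz => h z (hst hz)⟩
      · intro s t hs ht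
        obtain ⟨F, hF, G, hG, h⟩ := hs
        obtain ⟨F', hF', G', hG', h'⟩ := ht
        refine ⟨F ⊓ F', hP.inf _ _ hF hF', G ⊔ G', fun h => (hP.sup _ _ h).elim hG hG', ?_⟩
        rintro z (hz | hz)
        · rcases h z hz with h1 | h1
          · exact Or.inl ((min_le_left _ _).trans_lt h1)
          · exact Or.inr (h1.trans_le (le_max_left _ _))
        · rcases h' z hz with h1 | h1
          · exact Or.inl ((min_le_right _ _).trans_lt h1)
          · exact Or.inr (h1.trans_le (le_max_right _ _))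
      · intro z hz
        by_cases hc : ∀ f ∈ P, z.2 ≤ f z.1
        · obtain ⟨g, hg1, hg2⟩ := hcon z.1 z.2 hc
          have ho : IsOpen {w : ℝ × ℝ | w.2 < g w.1} :=
            isOpen_lt continuous_snd ((OrderIso.continuous (g : ℝ ≃o ℝ)).comp continuous_fst)
          exact ⟨{w | w.2 < g w.1}, mem_nhdsWithin_of_mem_nhds (ho.mem_nhds hg1), u, hu, g, hg2,
            fun w hw => Or.inr hw⟩
        · push Not at hc
          obtain ⟨f, hf1, hf2⟩ := hc
          have ho : IsOpen {w : ℝ × ℝ | f w.1 < w.2} :=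
            isOpen_lt ((OrderIso.continuous (f : ℝ ≃o ℝ)).comp continuous_fst) continuous_snd
          exact ⟨{w | f w.1 < w.2}, mem_nhdsWithin_of_mem_nhds (ho.mem_nhds hf2), f, hf1, v, hv,
            fun w hw => Or.inl hw⟩
    obtain ⟨F, hF, G, hG, h⟩ := key
    have h1 : F ⊓ u ≤ G ⊔ v' := by
      intro t
      rw [inf_apply, sup_apply]
      by_cases ht : t ≤ N₂ ∨ N₁ ≤ t
      · exact (min_le_right _ _).trans ((hout t ht).trans (le_max_right _ _))
      · push Not at ht
        by_contra hlt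
        push Not at hlt
        have e1 : v' t < min (F t) (u t) := (le_max_right _ _).trans_lt hlt
        have e2 : G t < min (F t) (u t) := (le_max_left _ _).trans_lt hlt
        have e3 : v' N₂ ≤ v' t := v'.le_iff.mpr ht.1.le
        have e4 : u t ≤ u N₁ := u.le_iff.mpr ht.2.le
        have e5 := min_le_left (F t) (u t)
        have e6 := min_le_right (F t) (u t)
        rcases h (t, min (F t) (u t)) ⟨⟨ht.1.le, ht.2.le⟩, by
          constructor
          · change v' N₂ ≤ min (F t) (u t); linarith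
          · change min (F t) (u t) ≤ u N₁; linarith⟩ with h2 | h2
        · change F t < min (F t) (u t) at h2; linarith
        · change min (F t) (u t) < G t at h2; linarith
    have h2 := hP.up _ _ h1 (hP.inf _ _ hF hu)
    rcases hP.sup _ _ h2 with h3 | h3
    · exact hG h3
    · exact hv' h3
  refine ⟨x, y, ?_⟩
  ext f
  constructor
  · intro hf; exact hB f hf
  · intro hf
    apply hP.glb {g | ∃ ε : ℝ, 0 < ε ∧ g = aff 0 ε 1 one_pos * f} f
    · constructor
      · rintro g ⟨ε, hε, rfl⟩ t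
        rw [mul_apply, aff_apply]; linarith
      · intro w hw t
        apply le_of_forall_pos_le_add
        intro ε hε
        have := hw ⟨ε, hε, rfl⟩ t
        rw [mul_apply, aff_apply] at this
        linarith
    · rintro g ⟨ε, hε, rfl⟩
      apply hT
      rw [mul_apply, aff_apply]
      have : y ≤ f x := hf
      linarith

lemma pr_preimage (Φ : Hm ≃o Hm) {P : Set Hm} (hP : Pr P) : Pr (Φ ⁻¹' P) := by
  refine ⟨?_, ?_, ?_, ?_, ?_, ?_⟩
  · obtain ⟨f, hf⟩ := hP.ne
    exact ⟨Φ.symm f, by simpa using hf⟩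
  · obtain ⟨f, hf⟩ := hP.pr
    exact ⟨Φ.symm f, by simpa using hf⟩
  · intro f g h hf; exact hP.up _ _ (Φ.monotone h) hf
  · intro f g hf hg
    change Φ (f ⊓ g) ∈ P
    rw [OrderIso.map_inf]; exact hP.inf _ _ hf hg
  · intro f g h
    change Φ (f ⊔ g) ∈ P at h
    rw [OrderIso.map_sup] at h; exact hP.sup _ _ h
  · intro S g hg hS
    apply hP.glb (Φ '' S) (Φ g)
    · exact (OrderIso.isGLB_image' Φ).mpr hg
    · rintro _ ⟨f, hf, rfl⟩; exact hS hf

/-- a product-order automorphism moving everything up is a product -/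
lemma prod_form (Ψ : ℝ × ℝ → ℝ × ℝ) (hs : Function.Surjective Ψ)
    (hle : ∀ p q, Ψ p ≤ Ψ q ↔ p ≤ q) (hup : ∀ p, p ≤ Ψ p) :
    ∃ β γ : Hm, ∀ x z, Ψ (x, z) = (β x, γ z) := by
  have col : ∀ p q : ℝ × ℝ, p ≤ q → (p.1 = q.1 ∨ p.2 = q.2) →
      ((Ψ p).1 = (Ψ q).1 ∨ (Ψ p).2 = (Ψ q).2) := by
    intro p q hpq h
    by_contra hcon
    push Not at hcon
    have h1 := (hle p q).mpr hpq
    rw [Prod.le_def] at h1
    have h2 : (Ψ p).1 < (Ψ q).1 := lt_of_le_of_ne h1.1 hcon.1
    have h3 : (Ψ p).2 < (Ψ q).2 := lt_of_le_of_ne h1.2 hcon.2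
    obtain ⟨r, hr⟩ := hs ((Ψ p).1, (Ψ q).2)
    obtain ⟨s, hs'⟩ := hs ((Ψ q).1, (Ψ p).2)
    have e1 : p ≤ r := (hle _ _).mp (by rw [hr]; exact ⟨le_rfl, h1.2⟩)
    have e2 : r ≤ q := (hle _ _).mp (by rw [hr]; exact ⟨h1.1, le_rfl⟩)
    have e3 : p ≤ s := (hle _ _).mp (by rw [hs']; exact ⟨h1.1, le_rfl⟩)
    have e4 : s ≤ q := (hle _ _).mp (by rw [hs']; exact ⟨le_rfl, h1.2⟩)
    have e5 : r ≤ s ∨ s ≤ r := by
      rw [Prod.le_def] at e1 e2 e3 e4
      rcases h with h | h
      · have a1 : r.1 = s.1 := by linarith [e1.1, e2.1, e3.1, e4.1]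
        rcases le_total r.2 s.2 with h | h
        · exact Or.inl ⟨a1.le, h⟩
        · exact Or.inr ⟨a1.ge, h⟩
      · have a1 : r.2 = s.2 := by linarith [e1.2, e2.2, e3.2, e4.2]
        rcases le_total r.1 s.1 with h | h
        · exact Or.inl ⟨h, a1.le⟩
        · exact Or.inr ⟨h, a1.ge⟩
    rcases e5 with e5 | e5
    · have := (hle _ _).mpr e5
      rw [hr, hs', Prod.le_def] at this
      exact absurd this.2 (not_le.mpr h3)
    · have := (hle _ _).mpr e5
      rw [hr, hs', Prod.le_def] at this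
      exact absurd this.1 (not_le.mpr h2)
  have h1 : ∀ x z z', z ≤ z' → (Ψ (x, z)).1 = (Ψ (x, z')).1 := by
    intro x z z' hz
    by_contra hne
    have a1 : Ψ (x, z) ≤ Ψ (x, z') := (hle _ _).mpr ⟨le_rfl, hz⟩
    have a2 : (Ψ (x, z)).1 < (Ψ (x, z')).1 := lt_of_le_of_ne a1.1 hne
    have a3 : Ψ (x, z') ≤ Ψ (x, max z' ((Ψ (x, z)).2 + 1)) :=
      (hle _ _).mpr ⟨le_rfl, le_max_left _ _⟩
    have a4 := hup (x, max z' ((Ψ (x, z)).2 + 1))
    have a5 : (Ψ (x, z)).2 + 1 ≤ (Ψ (x, max z' ((Ψ (x, z)).2 + 1))).2 :=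
      (le_max_right _ _).trans a4.2
    rcases col (x, z) (x, max z' ((Ψ (x, z)).2 + 1)) ⟨le_rfl, hz.trans (le_max_left _ _)⟩
      (Or.inl rfl) with h | h
    · have := a3.1
      rw [← h] at this
      linarith
    · linarith
  have h2 : ∀ x x' z, x ≤ x' → (Ψ (x, z)).2 = (Ψ (x', z)).2 := by
    intro x x' z hx
    by_contra hne
    have a1 : Ψ (x, z) ≤ Ψ (x', z) := (hle _ _).mpr ⟨hx, le_rfl⟩
    have a2 : (Ψ (x, z)).2 < (Ψ (x', z)).2 := lt_of_le_of_ne a1.2 hne
    have a3 : Ψ (x', z) ≤ Ψ (max x' ((Ψ (x, z)).1 + 1), z) :=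
      (hle _ _).mpr ⟨le_max_left _ _, le_rfl⟩
    have a4 := hup (max x' ((Ψ (x, z)).1 + 1), z)
    have a5 : (Ψ (x, z)).1 + 1 ≤ (Ψ (max x' ((Ψ (x, z)).1 + 1), z)).1 :=
      (le_max_right _ _).trans a4.1
    rcases col (x, z) (max x' ((Ψ (x, z)).1 + 1), z) ⟨hx.trans (le_max_left _ _), le_rfl⟩
      (Or.inr rfl) with h | h
    · linarith
    · have := a3.2
      rw [← h] at this
      linarith
  have g1 : ∀ x z, (Ψ (x, z)).1 = (Ψ (x, 0)).1 := by
    intro x z
    rcases le_total z 0 with h | h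
    · exact h1 x z 0 h
    · exact (h1 x 0 z h).symm
  have g2 : ∀ x z, (Ψ (x, z)).2 = (Ψ (0, z)).2 := by
    intro x z
    rcases le_total x 0 with h | h
    · exact h2 x 0 z h
    · exact (h2 0 x z h).symm
  have m1 : StrictMono (fun x => (Ψ (x, 0)).1) := by
    intro x x' hx
    by_contra hcon
    push Not at hcon
    have : Ψ (x', 0) ≤ Ψ (x, 0) := ⟨hcon, by rw [g2 x', g2 x]⟩
    exact absurd ((hle _ _).mp this).1 (not_le.mpr hx)
  have m2 : StrictMono (fun z => (Ψ (0, z)).2) := by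
    intro z z' hz
    by_contra hcon
    push Not at hcon
    have : Ψ (0, z') ≤ Ψ (0, z) := ⟨by rw [g1 0 z', g1 0 z], hcon⟩
    exact absurd ((hle _ _).mp this).2 (not_le.mpr hz)
  have s1 : Function.Surjective (fun x => (Ψ (x, 0)).1) := by
    intro u
    obtain ⟨⟨x, z⟩, hp⟩ := hs (u, 0)
    refine ⟨x, ?_⟩
    change (Ψ (x, 0)).1 = u
    rw [← g1 x z, hp]
  have s2 : Function.Surjective (fun z => (Ψ (0, z)).2) := by
    intro u
    obtain ⟨⟨x, z⟩, hp⟩ := hs (0, u)
    refine ⟨z, ?_⟩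
    change (Ψ (0, z)).2 = u
    rw [← g2 x z, hp]
  refine ⟨mk' _ m1 s1, mk' _ m2 s2, fun x z => ?_⟩
  rw [mk'_apply, mk'_apply]
  exact Prod.ext (g1 x z) (g2 x z)

/-- Every lattice automorphism moving everything up is a two-sided translation. -/
lemma two_sided (Φ : Hm ≃o Hm) (hup : ∀ f, f ≤ Φ f) :
    ∃ a b : Hm, 1 ≤ a ∧ 1 ≤ b ∧ ∀ f, Φ f = a * f * b := by
  have hex : ∀ p : ℝ × ℝ, ∃ q : ℝ × ℝ, Φ ⁻¹' (Pt p.1 (-p.2)) = Pt q.1 (-q.2) := by
    intro p
    obtain ⟨x, y, h⟩ := Pr_ex (pr_preimage Φ (pr_Pt p.1 (-p.2)))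
    exact ⟨(x, -y), by rw [h]; simp⟩
  choose Ψ hΨ using hex
  have hex' : ∀ p : ℝ × ℝ, ∃ q : ℝ × ℝ, Φ.symm ⁻¹' (Pt p.1 (-p.2)) = Pt q.1 (-q.2) := by
    intro p
    obtain ⟨x, y, h⟩ := Pr_ex (pr_preimage Φ.symm (pr_Pt p.1 (-p.2)))
    exact ⟨(x, -y), by rw [h]; simp⟩
  have sub : ∀ p q : ℝ × ℝ, Pt p.1 (-p.2) ⊆ Pt q.1 (-q.2) ↔ p ≤ q := by
    intro p q
    rw [Pt_sub, Prod.le_def, neg_le_neg_iff]
  have hs : Function.Surjective Ψ := by
    intro q
    obtain ⟨p, hp⟩ := hex' q
    refine ⟨p, ?_⟩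
    have h1 : Pt q.1 (-q.2) = Pt (Ψ p).1 (-(Ψ p).2) := by
      rw [← hΨ p, ← hp]
      ext f
      simp
    exact le_antisymm ((sub _ _).mp h1.symm.subset) ((sub _ _).mp h1.subset)
  have hle : ∀ p q, Ψ p ≤ Ψ q ↔ p ≤ q := by
    intro p q
    rw [← sub, ← hΨ, ← hΨ, ← sub]
    constructor
    · intro h f hf
      have := h (show Φ.symm f ∈ Φ ⁻¹' (Pt p.1 (-p.2)) by simpa using hf)
      simpa using this
    · intro h f hf; exact h hf
  have hup' : ∀ p, p ≤ Ψ p := by
    intro p
    rw [← sub, ← hΨ]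
    intro f hf
    exact le_trans hf (hup f p.1)
  obtain ⟨β, γ, hform⟩ := prod_form Ψ hs hle hup'
  have hδ1 : StrictMono (fun y : ℝ => - γ (-y)) := by
    intro x y h
    have : γ (-y) < γ (-x) := γ.lt_iff.mpr (by linarith)
    change - γ (-x) < - γ (-y)
    linarith
  have hδ2 : Function.Surjective (fun y : ℝ => - γ (-y)) := fun y =>
    ⟨-(γ⁻¹ (-y)), by simp⟩
  have key : ∀ f x y, y ≤ Φ f x ↔ mk' _ hδ1 hδ2 y ≤ f (β x) := by
    intro f x y
    have h1 := hΨ (x, -y)
    rw [hform] at h1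
    have h2 : f ∈ Φ ⁻¹' (Pt x (- -y)) ↔ f ∈ Pt (β x) (-(γ (-y))) := by
      rw [← h1]
    rw [neg_neg] at h2
    exact h2
  have h3 : ∀ f, Φ f = (mk' _ hδ1 hδ2)⁻¹ * f * β := by
    intro f
    apply ext
    intro x
    apply eq_of_forall_le_iff
    intro y
    rw [key, mul_apply, mul_apply]
    conv_rhs => rw [← (mk' _ hδ1 hδ2).le_iff, apply_inv_self]
  refine ⟨(mk' _ hδ1 hδ2)⁻¹, β, ?_, ?_, h3⟩
  · intro y
    rw [← (mk' _ hδ1 hδ2).le_iff, apply_inv_self, one_apply, mk'_apply]
    have := (hup' (0, -y)).2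
    rw [hform] at this
    change -y ≤ γ (-y) at this
    linarith
  · intro x
    have := (hup' (x, 0)).1
    rw [hform] at this
    exact this

lemma center_trivial {z : Hm} (h : ∀ f : Hm, z * f = f * z) : z = 1 := by
  apply ext
  intro x
  have h1 : (z * aff x x 2 two_pos) x = (aff x x 2 two_pos * z) x := by rw [h]
  rw [mul_apply, mul_apply, aff_apply, aff_apply] at h1
  simp only [sub_self, mul_zero, add_zero] at h1
  rw [one_apply]
  linarith

lemma comm_of_forall {a b c d : Hm} (h : ∀ f : Hm, c * (a * f * b) * d = a * (c * f * d) * b) :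
    c * a = a * c ∧ b * d = d * b := by
  have h1 : ∀ f : Hm, ((a * c)⁻¹ * (c * a)) * f = f * ((d * b) * (b * d)⁻¹) := by
    intro f
    have := h f
    have e : (a * c)⁻¹ * (c * (a * f * b) * d) * (b * d)⁻¹ =
        (a * c)⁻¹ * (a * (c * f * d) * b) * (b * d)⁻¹ := by rw [this]
    have e1 : (a * c)⁻¹ * (c * (a * f * b) * d) * (b * d)⁻¹ = ((a * c)⁻¹ * (c * a)) * f := by
      group
    have e2 : (a * c)⁻¹ * (a * (c * f * d) * b) * (b * d)⁻¹ = f * ((d * b) * (b * d)⁻¹) := by
      group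
    rw [← e1, e, e2]
  have h2 := h1 1
  rw [mul_one, one_mul] at h2
  have h3 : (a * c)⁻¹ * (c * a) = 1 := center_trivial (fun f => by
    have := h1 f
    rw [← h2] at this
    exact this)
  constructor
  · exact (inv_mul_eq_one.mp h3).symm
  · rw [h3] at h2
    exact (mul_inv_eq_one.mp h2.symm).symm

lemma op_class (m : Hm → Hm → Hm) (iv : Hm → Hm)
    (hH : ∀ a b c : Hm, a ≤ b → m c a ≤ m c b ∧ m a c ≤ m b c)
    (assoc : ∀ x y z, m (m x y) z = m x (m y z))
    (invl : ∀ x, m (iv x) x = 1) (onem : ∀ x, m 1 x = x) (mone : ∀ x, m x 1 = x) :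
    (∀ f r, m f r = f * r) ∨ (∀ f r, m f r = r * f) := by
  have invr : ∀ x, m x (iv x) = 1 := by
    intro x
    have h1 : m (iv (iv x)) (m (iv x) x) = iv (iv x) := by
      rw [invl, mone]
    rw [← assoc, invl, onem] at h1
    have h2 := invl (iv x)
    rwa [← h1] at h2
  have hR : ∀ r : Hm, 1 ≤ r → ∃ a b : Hm, 1 ≤ a ∧ 1 ≤ b ∧ ∀ f, m f r = a * f * b := by
    intro r hr
    let Φ : Hm ≃o Hm :=
      { toFun := fun f => m f r
        invFun := fun f => m f (iv r)
        left_inv := fun f => by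
          change m (m f r) (iv r) = f
          rw [assoc, invr, mone]
        right_inv := fun f => by
          change m (m f (iv r)) r = f
          rw [assoc, invl, mone]
        map_rel_iff' := by
          intro f g
          change m f r ≤ m g r ↔ f ≤ g
          constructor
          · intro h
            have := (hH _ _ (iv r) h).2
            rwa [assoc, assoc, invr, mone, mone] at this
          · intro h
            exact (hH _ _ r h).2 }
    exact two_sided Φ (fun f => by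
      have := (hH _ _ f hr).1
      rwa [mone] at this)
  have hL : ∀ r : Hm, 1 ≤ r → ∃ a b : Hm, 1 ≤ a ∧ 1 ≤ b ∧ ∀ f, m r f = a * f * b := by
    intro r hr
    let Φ : Hm ≃o Hm :=
      { toFun := fun f => m r f
        invFun := fun f => m (iv r) f
        left_inv := fun f => by
          change m (iv r) (m r f) = f
          rw [← assoc, invl, onem]
        right_inv := fun f => by
          change m r (m (iv r) f) = f
          rw [← assoc, invr, onem]
        map_rel_iff' := by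
          intro f g
          change m r f ≤ m r g ↔ f ≤ g
          constructor
          · intro h
            have := (hH _ _ (iv r) h).1
            rwa [← assoc, ← assoc, invl, onem, onem] at this
          · intro h
            exact (hH _ _ r h).1 }
    exact two_sided Φ (fun f => by
      have := (hH _ _ f hr).2
      rwa [onem] at this)
  choose! a b ha hb hab using hR
  choose! c d hc hd hcd using hL
  have hr : ∀ r, 1 ≤ r → r = a r * b r := fun r h => by
    have := hab r h 1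
    rw [onem, mul_one] at this
    exact this
  have hs : ∀ s, 1 ≤ s → s = c s * d s := fun r h => by
    have := hcd r h 1
    rw [mone, mul_one] at this
    exact this
  have hcomm : ∀ r s, 1 ≤ r → 1 ≤ s → c s * a r = a r * c s ∧ b r * d s = d s * b r := by
    intro r s h1 h2
    apply comm_of_forall
    intro f
    rw [← hab r h1, ← hcd s h2, ← hcd s h2, ← hab r h1, assoc]
  -- claim A
  have hA : ∀ r t, 1 ≤ r → 1 ≤ t → ∀ x, x < a r x → b t x = x := by
    intro r t h1 h2 x hx
    obtain ⟨q, hq1, hq2⟩ := exists_between hx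
    have hp : (a r)⁻¹ q < x := by rw [← (a r).lt_iff, apply_inv_self]; exact hq2
    have hs1 : 1 ≤ bump x q := one_le_bump x q
    have hcs : c (bump x q) = 1 := by
      apply ext
      intro t
      rw [one_apply]
      have k1 : ∀ y, c (bump x q) y ≤ bump x q y := by
        intro y
        have h7 := (c (bump x q)).le_iff.mpr (hd _ hs1 y)
        have h8 : c (bump x q) (d (bump x q) y) = bump x q y := by
          rw [← mul_apply, ← hs _ hs1]
        rw [h8] at h7
        exact h7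
      have k2 : ∀ y, y ≤ c (bump x q) y := hc _ hs1
      have k3 : ∀ y, (y ≤ x ∨ q ≤ y) → c (bump x q) y = y := fun y hy =>
        le_antisymm ((k1 y).trans (bump_out hy).le) (k2 y)
      by_cases hy : t ≤ x ∨ q ≤ t
      · exact k3 t hy
      · push Not at hy
        have k4 : q ≤ a r t := by
          have : a r ((a r)⁻¹ q) ≤ a r t := (a r).le_iff.mpr (by linarith [hy.1])
          rwa [apply_inv_self] at this
        have k5 := k3 _ (Or.inr k4)
        rw [← mul_apply, (hcomm r _ h1 hs1).1, mul_apply] at k5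
        exact (a r).inj k5
    have hds : d (bump x q) = bump x q := by
      have := hs _ hs1
      rw [hcs, one_mul] at this
      exact this.symm
    have hcb := (hcomm t _ h2 hs1).2
    rw [hds] at hcb
    have hfix : bump x q (b t x) = b t x := by
      rw [← mul_apply, ← hcb, mul_apply, bump_out (Or.inl le_rfl)]
    have hge : x ≤ b t x := hb t h2 x
    by_contra hne
    have hgt : x < b t x := lt_of_le_of_ne hge (Ne.symm hne)
    have hq3 : q ≤ b t x := by
      by_contra hlt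
      push Not at hlt
      exact absurd hfix (bump_in hgt hlt).ne'
    -- a point y in (x,q) moved by the bump, image not moved
    obtain ⟨y, hy1, hy2⟩ := exists_between hq1
    have h5 : bump x q (b t y) = b t (bump x q y) := by
      rw [← mul_apply, ← hcb, mul_apply]
    have h6 : b t x < b t y := (b t).lt_iff.mpr hy1
    rw [bump_out (Or.inr (hq3.trans h6.le))] at h5
    exact absurd ((b t).inj h5) (bump_in hy1 hy2).ne
  -- connectedness
  have hUV : (∀ r, 1 ≤ r → a r = 1) ∨ (∀ r, 1 ≤ r → b r = 1) := by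
    have hpos : ∀ x : ℝ, (∃ r, 1 ≤ r ∧ x < a r x) ∨ (∃ r, 1 ≤ r ∧ x < b r x) := by
      intro x
      by_contra hcon
      push Not at hcon
      have h1 : (1 : Hm) ≤ aff 0 1 1 one_pos := fun t => by
        rw [one_apply, aff_apply]; linarith
      have h2 := hcon.1 _ h1
      have h3 := hcon.2 _ h1
      have h4 := hr _ h1
      have h5 : aff 0 1 1 one_pos x = a (aff 0 1 1 one_pos) (b (aff 0 1 1 one_pos) x) := by
        rw [← mul_apply, ← h4]
      have h6 := (a (aff 0 1 1 one_pos)).le_iff.mpr h3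
      rw [← h5, aff_apply] at h6
      linarith
    have hopen : ∀ g : Hm → Hm, IsOpen {x : ℝ | ∃ r, 1 ≤ r ∧ x < g r x} := by
      intro g
      have : {x : ℝ | ∃ r, 1 ≤ r ∧ x < g r x} = ⋃ r : Hm, ⋃ _ : 1 ≤ r, {x : ℝ | x < g r x} := by
        ext x; simp
      rw [this]
      apply isOpen_iUnion; intro r
      apply isOpen_iUnion; intro _
      exact isOpen_lt continuous_id (OrderIso.continuous (g r : ℝ ≃o ℝ))
    by_contra hcon
    push Not at hcon
    obtain ⟨⟨r, hr1, hr2⟩, ⟨t, ht1, ht2⟩⟩ := hcon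
    obtain ⟨x, hx⟩ : ∃ x, x < a r x := by
      by_contra h
      push Not at h
      exact hr2 (le_antisymm h (ha r hr1))
    obtain ⟨y, hy⟩ : ∃ y, y < b t y := by
      by_contra h
      push Not at h
      exact ht2 (le_antisymm h (hb t ht1))
    have hpre := (isPreconnected_univ : IsPreconnected (Set.univ : Set ℝ)) _ _ (hopen a) (hopen b)
      (fun z _ => hpos z) ⟨x, trivial, r, hr1, hx⟩ ⟨y, trivial, t, ht1, hy⟩
    obtain ⟨z, -, ⟨r', h1, h2⟩, ⟨t', h3, h4⟩⟩ := hpre
    exact absurd (hA r' t' h1 h3 z h2) h4.ne'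
  rcases hUV with hU | hV
  · left
    have h1 : ∀ f r, 1 ≤ r → m f r = f * r := by
      intro f r h
      rw [hab r h, hU r h, one_mul]
      congr 1
      have := hr r h
      rw [hU r h, one_mul] at this
      exact this.symm
    intro f r
    have hp : (1 : Hm) ≤ r⁻¹ ⊔ 1 := le_sup_right
    have hq : (1 : Hm) ≤ r * (r⁻¹ ⊔ 1) := by
      intro x
      rw [mul_apply, one_apply]
      have : r (r⁻¹ x) ≤ r ((r⁻¹ ⊔ 1) x) := r.le_iff.mpr (le_max_left _ _)
      rwa [apply_inv_self] at this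
    have e1 := assoc f r (r⁻¹ ⊔ 1)
    rw [h1 _ _ hp, h1 r _ hp, h1 f _ hq, ← mul_assoc] at e1
    exact mul_right_cancel e1
  · right
    have h1 : ∀ f r, 1 ≤ r → m f r = r * f := by
      intro f r h
      rw [hab r h, hV r h, mul_one]
      congr 1
      have := hr r h
      rw [hV r h, mul_one] at this
      exact this.symm
    intro f r
    have hp : (1 : Hm) ≤ r⁻¹ ⊔ 1 := le_sup_right
    have hq : (1 : Hm) ≤ (r⁻¹ ⊔ 1) * r := by
      intro x
      rw [mul_apply, one_apply]
      have : r⁻¹ (r x) ≤ (r⁻¹ ⊔ 1) (r x) := le_max_left _ _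
      rwa [inv_apply_self] at this
    have e1 := assoc f r (r⁻¹ ⊔ 1)
    rw [h1 _ _ hp, h1 r _ hp, h1 f _ hq, mul_assoc] at e1
    exact mul_left_cancel e1

/-- reversal -/
noncomputable def rev (f : Hm) : Hm := mk' (fun x => - f⁻¹ (-x))
  (fun x y h => by
    have : f⁻¹ (-y) < f⁻¹ (-x) := (f⁻¹).lt_iff.mpr (by linarith)
    change - f⁻¹ (-x) < - f⁻¹ (-y)
    linarith)
  (fun y => ⟨- f (-y), by simp⟩)

lemma rev_apply (f : Hm) (x : ℝ) : rev f x = - f⁻¹ (-x) := rfl

lemma rev_inv_apply (f : Hm) (x : ℝ) : (rev f)⁻¹ x = - f (-x) := by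
  apply (rev f).inj
  rw [apply_inv_self, rev_apply, neg_neg, inv_apply_self, neg_neg]

lemma rev_rev (f : Hm) : rev (rev f) = f := by
  apply ext
  intro x
  rw [rev_apply, rev_inv_apply, neg_neg, neg_neg]

lemma rev_mul (f g : Hm) : rev (f * g) = rev g * rev f := by
  apply ext
  intro x
  rw [rev_apply, mul_inv_rev, mul_apply, mul_apply, rev_apply, rev_apply, neg_neg]

lemma rev_mono {f g : Hm} (h : f ≤ g) : rev f ≤ rev g := by
  intro x
  rw [rev_apply, rev_apply]
  have : g⁻¹ (-x) ≤ f⁻¹ (-x) := by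
    rw [← g.le_iff, apply_inv_self]
    have := h (f⁻¹ (-x))
    rwa [apply_inv_self] at this
  linarith

/-- reversal as a lattice automorphism -/
noncomputable def revIso : Hm ≃o Hm where
  toFun := rev
  invFun := rev
  left_inv := rev_rev
  right_inv := rev_rev
  map_rel_iff' := by
    intro f g
    constructor
    · intro h
      have := rev_mono h
      change rev (rev f) ≤ rev (rev g) at this
      rwa [rev_rev, rev_rev] at this
    · exact rev_mono

lemma mul_mono_left {f g : Hm} (h : Hm) (hfg : f ≤ g) : h * f ≤ h * g := fun x => by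
  rw [mul_apply, mul_apply, h.le_iff]; exact hfg x

lemma mul_mono_right {f g : Hm} (h : Hm) (hfg : f ≤ g) : f * h ≤ g * h := fun x => hfg (h x)

/-- left translation as a lattice automorphism -/
noncomputable def leftIso (e : Hm) : Hm ≃o Hm where
  toFun := fun f => e * f
  invFun := fun f => e⁻¹ * f
  left_inv := fun f => by simp
  right_inv := fun f => by simp
  map_rel_iff' := by
    intro f g
    constructor
    · intro h
      have := mul_mono_left e⁻¹ h
      simpa using this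
    · exact mul_mono_left e

theorem all_ops (m : Hm → Hm → Hm) (iv : Hm → Hm) (e : Hm)
    (hH : ∀ a b c : Hm, a ≤ b → m c a ≤ m c b ∧ m a c ≤ m b c)
    (assoc : ∀ x y z, m (m x y) z = m x (m y z))
    (invl : ∀ x, m (iv x) x = e) (onem : ∀ x, m e x = x) (mone : ∀ x, m x e = x) :
    ∃ φ : Hm ≃o Hm, ∀ x y : Hm, φ (x * y) = m (φ x) (φ y) := by
  let L : Hm ≃o Hm := leftIso e
  have hL1 : L 1 = e := mul_one _
  have hL2 : L.symm e = 1 := by rw [← hL1, OrderIso.symm_apply_apply]
  rcases op_class (fun x y => L.symm (m (L x) (L y))) (fun x => L.symm (iv (L x)))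
    (by
      intro a b c h
      have := hH (L a) (L b) (L c) (L.monotone h)
      exact ⟨L.symm.monotone this.1, L.symm.monotone this.2⟩)
    (by
      intro x y z
      simp only [OrderIso.apply_symm_apply, assoc])
    (by
      intro x
      simp only [OrderIso.apply_symm_apply, invl, hL2])
    (by
      intro x
      simp only [hL1, onem, OrderIso.symm_apply_apply])
    (by
      intro x
      simp only [hL1, mone, OrderIso.symm_apply_apply]) with h | h
  · refine ⟨L, fun x y => ?_⟩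
    have := h x y
    rw [← this, OrderIso.apply_symm_apply]
  · refine ⟨revIso.trans L, fun x y => ?_⟩
    have := h (rev x) (rev y)
    change L (rev (x * y)) = m (L (rev x)) (L (rev y))
    rw [rev_mul, ← this, OrderIso.apply_symm_apply]

theorem noncomm : ¬ ∀ x y : Hm, x * y = y * x := by
  intro h
  have h1 := congrArg (fun f : Hm => f 0) (h (aff 0 1 1 one_pos) (aff 0 0 2 two_pos))
  simp only [mul_apply, aff_apply] at h1
  norm_num at h1

end Hm

end Pool.Agent.Helper1.LatHomeo
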