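import Mathlib
import Pool.Agent.Helper1.LatHomeo

set_option autoImplicit false

namespace Pool.Agent.Helper1.LatCount

open Pool.Agent.Helper1.LatHomeo Pool.Agent.Helper1.LatHomeo.Hm

/-- terms -/
inductive Tm : Type
  | c : ℚ → ℚ → ℚ → Tm
  | m : Tm → Tm → Tm
  | i : Tm → Tm
  | s : Tm → Tm → Tm
  | n : Tm → Tm → Tm

open Classical in
/-- evaluation of terms -/
noncomputable def ev : Tm → Hm
  | .c p q M => if h : 0 < M then aff (p : ℝ) q M (by exact_mod_cast h) else 1
  | .m a b => ev a * ev b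
  | .i a => (ev a)⁻¹
  | .s a b => ev a ⊔ ev b
  | .n a b => ev a ⊓ ev b

/-- coding of terms -/
def code : Tm → ℕ
  | .c p q M => Nat.pair 0 (Encodable.encode (p, q, M))
  | .m a b => Nat.pair 1 (Nat.pair (code a) (code b))
  | .i a => Nat.pair 2 (code a)
  | .s a b => Nat.pair 3 (Nat.pair (code a) (code b))
  | .n a b => Nat.pair 4 (Nat.pair (code a) (code b))

lemma code_inj : Function.Injective code := by
  intro a
  induction a with
  | c p q M =>
    intro b h
    cases b <;> simp only [code, Nat.pair_eq_pair] at h <;> try omega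
    have := Encodable.encode_injective h.2
    simp only [Prod.mk.injEq] at this
    rw [this.1, this.2.1, this.2.2]
  | m x y hx hy =>
    intro b h
    cases b <;> simp only [code, Nat.pair_eq_pair] at h <;> try omega
    rw [hx h.2.1, hy h.2.2]
  | i x hx =>
    intro b h
    cases b <;> simp only [code, Nat.pair_eq_pair] at h <;> try omega
    rw [hx h.2]
  | s x y hx hy =>
    intro b h
    cases b <;> simp only [code, Nat.pair_eq_pair] at h <;> try omega
    rw [hx h.2.1, hy h.2.2]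
  | n x y hx hy =>
    intro b h
    cases b <;> simp only [code, Nat.pair_eq_pair] at h <;> try omega
    rw [hx h.2.1, hy h.2.2]

instance : Countable Tm := ⟨code, code_inj⟩

/-- the countable l-group -/
noncomputable def S : Subgroup Hm where
  carrier := Set.range ev
  one_mem' := ⟨.c 0 0 0, by simp [ev]⟩
  mul_mem' := by
    rintro _ _ ⟨a, rfl⟩ ⟨b, rfl⟩
    exact ⟨.m a b, rfl⟩
  inv_mem' := by
    rintro _ ⟨a, rfl⟩
    exact ⟨.i a, rfl⟩

instance : Countable S := by
  have : (S : Set Hm).Countable := Set.countable_range ev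
  exact this.to_subtype

lemma sup_mem {f g : Hm} (hf : f ∈ S) (hg : g ∈ S) : f ⊔ g ∈ S := by
  obtain ⟨a, rfl⟩ := hf
  obtain ⟨b, rfl⟩ := hg
  exact ⟨.s a b, rfl⟩

lemma inf_mem {f g : Hm} (hf : f ∈ S) (hg : g ∈ S) : f ⊓ g ∈ S := by
  obtain ⟨a, rfl⟩ := hf
  obtain ⟨b, rfl⟩ := hg
  exact ⟨.n a b, rfl⟩

lemma aff_mem (p q M : ℚ) (h : (0 : ℝ) < M) : aff (p : ℝ) q M h ∈ S := by
  have h' : 0 < M := by exact_mod_cast h
  exact ⟨.c p q M, by simp [ev, h']⟩

lemma bump_mem (p q : ℚ) : bump (p : ℝ) q ∈ S := by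
  apply sup_mem S.one_mem
  apply inf_mem
  · have := aff_mem p p 2 (by norm_num)
    simpa using this
  · have := aff_mem q q (1 / 2) (by norm_num)
    simpa using this

noncomputable instance : Lattice S :=
  { (inferInstance : PartialOrder S) with
    sup := fun f g => ⟨f.1 ⊔ g.1, sup_mem f.2 g.2⟩
    inf := fun f g => ⟨f.1 ⊓ g.1, inf_mem f.2 g.2⟩
    le_sup_left := fun f g => (le_sup_left : f.1 ≤ f.1 ⊔ g.1)
    le_sup_right := fun f g => (le_sup_right : g.1 ≤ f.1 ⊔ g.1)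
    sup_le := fun f g h h1 h2 => (sup_le h1 h2 : f.1 ⊔ g.1 ≤ h.1)
    inf_le_left := fun f g => (inf_le_left : f.1 ⊓ g.1 ≤ f.1)
    inf_le_right := fun f g => (inf_le_right : f.1 ⊓ g.1 ≤ g.1)
    le_inf := fun f g h h1 h2 => (le_inf h1 h2 : f.1 ≤ g.1 ⊓ h.1) }

lemma coe_sup (f g : S) (x : ℝ) : (f ⊔ g).1 x = max (f.1 x) (g.1 x) := rfl
lemma coe_inf (f g : S) (x : ℝ) : (f ⊓ g).1 x = min (f.1 x) (g.1 x) := rfl
lemma coe_le {f g : S} : f ≤ g ↔ ∀ x, f.1 x ≤ g.1 x := Iff.rfl
lemma coe_mul (f g : S) (x : ℝ) : (f * g).1 x = f.1 (g.1 x) := rfl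

instance : MulLeftMono S := ⟨fun h _ _ hfg => mul_mono_left h.1 hfg⟩
instance : MulRightMono S := ⟨fun h _ _ hfg => mul_mono_right h.1 hfg⟩

/-- inf-complete prime filters -/
structure Pr {L : Type} [Lattice L] (P : Set L) : Prop where
  ne : ∃ f, f ∈ P
  pr : ∃ f, f ∉ P
  up : ∀ f g, f ≤ g → f ∈ P → g ∈ P
  inf : ∀ f g, f ∈ P → g ∈ P → f ⊓ g ∈ P
  sup : ∀ f g, f ⊔ g ∈ P → f ∈ P ∨ g ∈ P
  glb : ∀ (S : Set L) (g : L), IsGLB S g → S ⊆ P → g ∈ P

lemma pr_preimage {L : Type} [Lattice L] (Φ : L ≃o L) {P : Set L} (hP : Pr P) :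
    Pr (Φ ⁻¹' P) := by
  refine ⟨?_, ?_, ?_, ?_, ?_, ?_⟩
  · obtain ⟨f, hf⟩ := hP.ne
    exact ⟨Φ.symm f, by simpa using hf⟩
  · obtain ⟨f, hf⟩ := hP.pr
    exact ⟨Φ.symm f, by simpa using hf⟩
  · intro f g h hf; exact hP.up _ _ (Φ.monotone h) hf
  · intro f g hf hg
    change Φ (f ⊓ g) ∈ P
    rw [OrderIso.map_inf]; exact hP.inf _ _ hf hg
  · intro f g h
    change Φ (f ⊔ g) ∈ P at h
    rw [OrderIso.map_sup] at h; exact hP.sup _ _ h
  · intro S g hg hS
    apply hP.glb (Φ '' S) (Φ g)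
    · exact (OrderIso.isGLB_image' Φ).mpr hg
    · rintro _ ⟨f, hf, rfl⟩; exact hS hf

/-- prime filter of a point -/
def Pt (x y : ℝ) : Set S := {f | y ≤ f.1 x}

lemma mem_Pt {x y : ℝ} {f : S} : f ∈ Pt x y ↔ y ≤ f.1 x := Iff.rfl

/-- rational affine map -/
noncomputable def ra (p q M : ℚ) (h : 0 < M) : S :=
  ⟨aff (p : ℝ) q M (by exact_mod_cast h), aff_mem p q M _⟩

lemma ra_apply (p q M : ℚ) (h : 0 < M) (t : ℝ) : (ra p q M h).1 t = q + M * (t - p) := rfl

lemma pr_Pt (x y : ℝ) : Pr (Pt x y) := by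
  refine ⟨?_, ?_, ?_, ?_, ?_, ?_⟩
  · obtain ⟨r, hr⟩ := exists_rat_gt (y - x)
    refine ⟨ra 0 r 1 one_pos, ?_⟩
    rw [mem_Pt, ra_apply]; push_cast; linarith
  · obtain ⟨r, hr⟩ := exists_rat_lt (y - x)
    refine ⟨ra 0 r 1 one_pos, ?_⟩
    rw [mem_Pt, ra_apply]; push_cast; linarith
  · intro f g h h1; exact le_trans h1 (h x)
  · intro f g h1 h2
    rw [mem_Pt, coe_inf]; exact le_min h1 h2
  · intro f g h
    rw [mem_Pt, coe_sup] at h; exact le_max_iff.mp h
  · intro T g hg hS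
    rw [mem_Pt]
    by_contra hlt
    push Not at hlt
    obtain ⟨q, hq1, hq2⟩ := exists_rat_btwn hlt
    obtain ⟨p, hp1, hp2⟩ := exists_rat_btwn hq1
    let b : S := ⟨bump (p : ℝ) q, bump_mem p q⟩
    have h1 : b * g ∈ lowerBounds T := by
      intro f hf t
      have h2 := hg.1 hf
      have h3 : y ≤ f.1 x := hS hf
      change bump (p : ℝ) q (g.1 t) ≤ f.1 t
      rcases le_total t x with ht | ht
      · rw [bump_out (Or.inl ((g.1.le_iff.mpr ht).trans hp1.le))]; exact h2 t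
      · rcases le_total (q : ℝ) (g.1 t) with hy | hy
        · rw [bump_out (Or.inr hy)]; exact h2 t
        · have h4 := (bump (p : ℝ) q).le_iff.mpr hy
          rw [bump_out (Or.inr le_rfl)] at h4
          exact h4.trans (hq2.le.trans (h3.trans (f.1.le_iff.mpr ht)))
    have h2 := hg.2 h1
    have h3 := h2 ((g.1)⁻¹ (((p : ℝ) + q) / 2))
    change bump (p : ℝ) q (g.1 ((g.1)⁻¹ (((p : ℝ) + q) / 2))) ≤
      g.1 ((g.1)⁻¹ (((p : ℝ) + q) / 2)) at h3
    rw [apply_inv_self] at h3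
    have h4 := bump_in (p := (p : ℝ)) (q := q) (t := ((p : ℝ) + q) / 2) (by linarith)
      (by linarith)
    linarith

lemma Pt_sub {x y x' y' : ℝ} : Pt x y ⊆ Pt x' y' ↔ x ≤ x' ∧ y' ≤ y := by
  constructor
  · intro h
    have h1 : x ≤ x' := by
      by_contra hlt
      push Not at hlt
      obtain ⟨p, hp1, hp2⟩ := exists_rat_btwn hlt
      have v1 : 0 < x - p := by linarith
      have v2 : 0 < p - x' := by linarith
      obtain ⟨M, hM⟩ := exists_rat_gt (|y| / (x - p) + |y'| / (p - x'))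
      have d1 : 0 ≤ |y| / (x - p) := div_nonneg (abs_nonneg _) v1.le
      have d2 : 0 ≤ |y'| / (p - x') := div_nonneg (abs_nonneg _) v2.le
      have hM0 : (0 : ℝ) < M := by linarith
      have hM1 : 0 < M := by exact_mod_cast hM0
      have e1 : |y| < M * (x - p) := by rw [← div_lt_iff₀ v1]; linarith
      have e2 : |y'| < M * (p - x') := by rw [← div_lt_iff₀ v2]; linarith
      have h2 : ra p 0 M hM1 ∈ Pt x y := by
        rw [mem_Pt, ra_apply]; push_cast
        have := le_abs_self y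
        linarith
      have h3 := h h2
      rw [mem_Pt, ra_apply] at h3
      push_cast at h3
      have := neg_abs_le y'
      linarith
    refine ⟨h1, ?_⟩
    by_contra hlt
    push Not at hlt
    obtain ⟨q, hq1, hq2⟩ := exists_rat_btwn hlt
    obtain ⟨p, hp⟩ := exists_rat_gt x'
    have v1 : 0 < p - x := by linarith
    obtain ⟨M, hM0, hM2⟩ := exists_rat_btwn (div_pos (sub_pos.mpr hq1) v1)
    have hM1 : 0 < M := by exact_mod_cast hM0
    have e1 : M * (p - x) < q - y := by rwa [lt_div_iff₀ v1] at hM2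
    have h2 : ra p q M hM1 ∈ Pt x y := by
      rw [mem_Pt, ra_apply]; linarith
    have h3 := h h2
    rw [mem_Pt, ra_apply] at h3
    have := mul_pos hM0 (sub_pos.mpr hp)
    linarith
  · rintro ⟨h1, h2⟩ f hf
    exact h2.trans (le_trans hf (f.1.le_iff.mpr h1))

lemma Pr_ex {P : Set S} (hP : Pr P) : ∃ x y, P = Pt x y := by
  obtain ⟨u, hu⟩ := hP.ne
  obtain ⟨v₀, hv₀⟩ := hP.pr
  obtain ⟨v, hv, hvu⟩ : ∃ v, v ∉ P ∧ v ≤ u :=
    ⟨v₀ ⊓ u, fun h => hv₀ (hP.up _ _ inf_le_left h), inf_le_right⟩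
  obtain ⟨f₁, N₁, hf₁, hN₁⟩ : ∃ (f : S) (N : ℝ), f ∉ P ∧ ∀ t, N ≤ t → u.1 t ≤ f.1 t := by
    by_contra hcon
    push Not at hcon
    apply hv
    apply hP.glb {f | ∃ h : S, ∃ N : ℝ, f = h ⊔ v ∧ ∀ t, N ≤ t → u.1 t ≤ h.1 t} v
    · constructor
      · rintro f ⟨h, N, rfl, -⟩
        exact le_sup_right
      · intro w hw t
        obtain ⟨q, hq⟩ := exists_rat_lt ((u.1)⁻¹ (v.1 t) - 2 * t)
        have h1 : u * ra 0 q 2 two_pos ⊔ v ∈
            {f | ∃ h : S, ∃ N : ℝ, f = h ⊔ v ∧ ∀ t, N ≤ t → u.1 t ≤ h.1 t} := by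
          refine ⟨_, -q, rfl, fun s hs => ?_⟩
          rw [coe_mul, u.1.le_iff, ra_apply]
          push_cast
          linarith
        have h2 := hw h1 t
        rw [coe_sup, coe_mul] at h2
        have h3 : u.1 ((ra 0 q 2 two_pos).1 t) ≤ v.1 t := by
          have : (ra 0 q 2 two_pos).1 t ≤ (u.1)⁻¹ (v.1 t) := by
            rw [ra_apply]; push_cast; linarith
          have := u.1.le_iff.mpr this
          rwa [apply_inv_self] at this
        rwa [max_eq_right h3] at h2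
    · rintro f ⟨h, N, rfl, hN⟩
      by_contra hf
      have h1 : h ∉ P := fun h2 => hf (hP.up _ _ le_sup_left h2)
      obtain ⟨t, ht1, ht2⟩ := hcon h N h1
      exact absurd (hN t ht1) (not_le.mpr ht2)
  obtain ⟨f₂, N₂, hf₂, hN₂⟩ : ∃ (f : S) (N : ℝ), f ∉ P ∧ ∀ t, t ≤ N → u.1 t ≤ f.1 t := by
    by_contra hcon
    push Not at hcon
    apply hv
    apply hP.glb {f | ∃ h : S, ∃ N : ℝ, f = h ⊔ v ∧ ∀ t, t ≤ N → u.1 t ≤ h.1 t} v
    · constructor
      · rintro f ⟨h, N, rfl, -⟩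
        exact le_sup_right
      · intro w hw t
        obtain ⟨q, hq⟩ := exists_rat_lt ((u.1)⁻¹ (v.1 t) - t / 2)
        have h1 : u * ra 0 q (1 / 2) (by norm_num) ⊔ v ∈
            {f | ∃ h : S, ∃ N : ℝ, f = h ⊔ v ∧ ∀ t, t ≤ N → u.1 t ≤ h.1 t} := by
          refine ⟨_, 2 * q, rfl, fun s hs => ?_⟩
          rw [coe_mul, u.1.le_iff, ra_apply]
          push_cast
          linarith
        have h2 := hw h1 t
        rw [coe_sup, coe_mul] at h2
        have h3 : u.1 ((ra 0 q (1 / 2) (by norm_num)).1 t) ≤ v.1 t := by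
          have : (ra 0 q (1 / 2) (by norm_num)).1 t ≤ (u.1)⁻¹ (v.1 t) := by
            rw [ra_apply]; push_cast; linarith
          have := u.1.le_iff.mpr this
          rwa [apply_inv_self] at this
        rwa [max_eq_right h3] at h2
    · rintro f ⟨h, N, rfl, hN⟩
      by_contra hf
      have h1 : h ∉ P := fun h2 => hf (hP.up _ _ le_sup_left h2)
      obtain ⟨t, ht1, ht2⟩ := hcon h N h1
      exact absurd (hN t ht1) (not_le.mpr ht2)
  have hv' : v ⊔ f₁ ⊔ f₂ ∉ P := fun h => by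
    rcases hP.sup _ _ h with h | h
    · rcases hP.sup _ _ h with h | h
      · exact hv h
      · exact hf₁ h
    · exact hf₂ h
  set v' := v ⊔ f₁ ⊔ f₂ with hv'def
  have hout : ∀ t, t ≤ N₂ ∨ N₁ ≤ t → u.1 t ≤ v'.1 t := by
    rintro t (ht | ht)
    · exact (hN₂ t ht).trans (le_max_right _ _)
    · exact (hN₁ t ht).trans ((le_max_right _ _).trans (le_max_left _ _))
  obtain ⟨x, y, hB, hT⟩ : ∃ x y : ℝ, (∀ f ∈ P, y ≤ f.1 x) ∧ (∀ f : S, y < f.1 x → f ∈ P) := by
    by_contra hcon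
    push Not at hcon
    have hK : IsCompact (Set.Icc N₂ N₁ ×ˢ Set.Icc (v'.1 N₂) (u.1 N₁)) :=
      isCompact_Icc.prod isCompact_Icc
    have key : ∃ F ∈ P, ∃ G, G ∉ P ∧ ∀ z ∈ Set.Icc N₂ N₁ ×ˢ Set.Icc (v'.1 N₂) (u.1 N₁),
        F.1 z.1 < z.2 ∨ z.2 < G.1 z.1 := by
      refine IsCompact.induction_on (p := fun s => ∃ F ∈ P, ∃ G, G ∉ P ∧ ∀ z ∈ s,
        F.1 z.1 < z.2 ∨ z.2 < G.1 z.1) hK ?_ ?_ ?_ ?_
      · exact ⟨u, hu, v, hv, fun z hz => absurd hz (Set.notMem_empty z)⟩
      · rintro s t hst ⟨F, hF, G, hG, h⟩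
        exact ⟨F, hF, G, hG, fun z hz => h z (hst hz)⟩
      · intro s t hs ht
        obtain ⟨F, hF, G, hG, h⟩ := hs
        obtain ⟨F', hF', G', hG', h'⟩ := ht
        refine ⟨F ⊓ F', hP.inf _ _ hF hF', G ⊔ G', fun h => (hP.sup _ _ h).elim hG hG', ?_⟩
        rintro z (hz | hz)
        · rcases h z hz with h1 | h1
          · exact Or.inl ((min_le_left _ _).trans_lt h1)
          · exact Or.inr (h1.trans_le (le_max_left _ _))
        · rcases h' z hz with h1 | h1
          · exact Or.inl ((min_le_right _ _).trans_lt h1)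
          · exact Or.inr (h1.trans_le (le_max_right _ _))
      · intro z hz
        by_cases hc : ∀ f ∈ P, z.2 ≤ f.1 z.1
        · obtain ⟨g, hg1, hg2⟩ := hcon z.1 z.2 hc
          have ho : IsOpen {w : ℝ × ℝ | w.2 < g.1 w.1} :=
            isOpen_lt continuous_snd ((OrderIso.continuous (g.1 : ℝ ≃o ℝ)).comp continuous_fst)
          exact ⟨{w | w.2 < g.1 w.1}, mem_nhdsWithin_of_mem_nhds (ho.mem_nhds hg1), u, hu, g,
            hg2, fun w hw => Or.inr hw⟩
        · push Not at hc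
          obtain ⟨f, hf1, hf2⟩ := hc
          have ho : IsOpen {w : ℝ × ℝ | f.1 w.1 < w.2} :=
            isOpen_lt ((OrderIso.continuous (f.1 : ℝ ≃o ℝ)).comp continuous_fst) continuous_snd
          exact ⟨{w | f.1 w.1 < w.2}, mem_nhdsWithin_of_mem_nhds (ho.mem_nhds hf2), f, hf1, v,
            hv, fun w hw => Or.inl hw⟩
    obtain ⟨F, hF, G, hG, h⟩ := key
    have h1 : F ⊓ u ≤ G ⊔ v' := by
      intro t
      change min (F.1 t) (u.1 t) ≤ max (G.1 t) (v'.1 t)
      by_cases ht : t ≤ N₂ ∨ N₁ ≤ t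
      · exact (min_le_right _ _).trans ((hout t ht).trans (le_max_right _ _))
      · push Not at ht
        by_contra hlt
        push Not at hlt
        have e1 : v'.1 t < min (F.1 t) (u.1 t) := (le_max_right _ _).trans_lt hlt
        have e2 : G.1 t < min (F.1 t) (u.1 t) := (le_max_left _ _).trans_lt hlt
        have e3 : v'.1 N₂ ≤ v'.1 t := v'.1.le_iff.mpr ht.1.le
        have e4 : u.1 t ≤ u.1 N₁ := u.1.le_iff.mpr ht.2.le
        have e5 := min_le_left (F.1 t) (u.1 t)
        have e6 := min_le_right (F.1 t) (u.1 t)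
        rcases h (t, min (F.1 t) (u.1 t)) ⟨⟨ht.1.le, ht.2.le⟩, by
          constructor
          · change v'.1 N₂ ≤ min (F.1 t) (u.1 t); linarith
          · change min (F.1 t) (u.1 t) ≤ u.1 N₁; linarith⟩ with h2 | h2
        · change F.1 t < min (F.1 t) (u.1 t) at h2; linarith
        · change min (F.1 t) (u.1 t) < G.1 t at h2; linarith
    have h2 := hP.up _ _ h1 (hP.inf _ _ hF hu)
    rcases hP.sup _ _ h2 with h3 | h3
    · exact hG h3
    · exact hv' h3
  refine ⟨x, y, ?_⟩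
  ext f
  constructor
  · intro hf; exact hB f hf
  · intro hf
    apply hP.glb {g | ∃ ε : ℚ, 0 < ε ∧ g = ra 0 ε 1 one_pos * f} f
    · constructor
      · rintro g ⟨ε, hε, rfl⟩ t
        have : (0 : ℝ) < ε := by exact_mod_cast hε
        change f.1 t ≤ (ra 0 ε 1 one_pos).1 (f.1 t)
        rw [ra_apply]; push_cast; linarith
      · intro w hw t
        apply le_of_forall_pos_le_add
        intro ε hε
        obtain ⟨δ, hδ1, hδ2⟩ := exists_rat_btwn hε
        have := hw ⟨δ, by exact_mod_cast hδ1, rfl⟩ t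
        change w.1 t ≤ (ra 0 δ 1 one_pos).1 (f.1 t) at this
        rw [ra_apply] at this
        push_cast at this
        linarith
    · rintro g ⟨ε, hε, rfl⟩
      apply hT
      have h0 : (0 : ℝ) < ε := by exact_mod_cast hε
      change y < (ra 0 ε 1 one_pos).1 (f.1 x)
      rw [ra_apply]
      have : y ≤ f.1 x := hf
      push_cast
      linarith

/-- Every lattice automorphism moving everything up is a two-sided translation. -/
lemma two_sided (Φ : S ≃o S) (hup : ∀ f, f ≤ Φ f) :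
    ∃ a b : Hm, 1 ≤ a ∧ 1 ≤ b ∧ ∀ f : S, (Φ f).1 = a * f.1 * b := by
  have hex : ∀ p : ℝ × ℝ, ∃ q : ℝ × ℝ, Φ ⁻¹' (Pt p.1 (-p.2)) = Pt q.1 (-q.2) := by
    intro p
    obtain ⟨x, y, h⟩ := Pr_ex (pr_preimage Φ (pr_Pt p.1 (-p.2)))
    exact ⟨(x, -y), by rw [h]; simp⟩
  choose Ψ hΨ using hex
  have hex' : ∀ p : ℝ × ℝ, ∃ q : ℝ × ℝ, Φ.symm ⁻¹' (Pt p.1 (-p.2)) = Pt q.1 (-q.2) := by
    intro p
    obtain ⟨x, y, h⟩ := Pr_ex (pr_preimage Φ.symm (pr_Pt p.1 (-p.2)))
    exact ⟨(x, -y), by rw [h]; simp⟩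
  have sub : ∀ p q : ℝ × ℝ, Pt p.1 (-p.2) ⊆ Pt q.1 (-q.2) ↔ p ≤ q := by
    intro p q
    rw [Pt_sub, Prod.le_def, neg_le_neg_iff]
  have hs : Function.Surjective Ψ := by
    intro q
    obtain ⟨p, hp⟩ := hex' q
    refine ⟨p, ?_⟩
    have h1 : Pt q.1 (-q.2) = Pt (Ψ p).1 (-(Ψ p).2) := by
      rw [← hΨ p, ← hp]
      ext f
      simp
    exact le_antisymm ((sub _ _).mp h1.symm.subset) ((sub _ _).mp h1.subset)
  have hle : ∀ p q, Ψ p ≤ Ψ q ↔ p ≤ q := by
    intro p q
    rw [← sub, ← hΨ, ← hΨ, ← sub]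
    constructor
    · intro h f hf
      have := h (show Φ.symm f ∈ Φ ⁻¹' (Pt p.1 (-p.2)) by simpa using hf)
      simpa using this
    · intro h f hf; exact h hf
  have hup' : ∀ p, p ≤ Ψ p := by
    intro p
    rw [← sub, ← hΨ]
    intro f hf
    exact le_trans hf (hup f p.1)
  obtain ⟨β, γ, hform⟩ := prod_form Ψ hs hle hup'
  have hδ1 : StrictMono (fun y : ℝ => - γ (-y)) := by
    intro x y h
    have : γ (-y) < γ (-x) := γ.lt_iff.mpr (by linarith)
    change - γ (-x) < - γ (-y)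
    linarith
  have hδ2 : Function.Surjective (fun y : ℝ => - γ (-y)) := fun y =>
    ⟨-(γ⁻¹ (-y)), by simp⟩
  have key : ∀ (f : S) x y, y ≤ (Φ f).1 x ↔ mk' _ hδ1 hδ2 y ≤ f.1 (β x) := by
    intro f x y
    have h1 := hΨ (x, -y)
    rw [hform] at h1
    have h2 : f ∈ Φ ⁻¹' (Pt x (- -y)) ↔ f ∈ Pt (β x) (-(γ (-y))) := by
      rw [← h1]
    rw [neg_neg] at h2
    exact h2
  have h3 : ∀ f : S, (Φ f).1 = (mk' _ hδ1 hδ2)⁻¹ * f.1 * β := by
    intro f
    apply Hm.ext
    intro x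
    apply eq_of_forall_le_iff
    intro y
    rw [key, mul_apply, mul_apply]
    conv_rhs => rw [← (mk' _ hδ1 hδ2).le_iff, apply_inv_self]
  refine ⟨(mk' _ hδ1 hδ2)⁻¹, β, ?_, ?_, h3⟩
  · intro y
    rw [← (mk' _ hδ1 hδ2).le_iff, apply_inv_self, one_apply, mk'_apply]
    have := (hup' (0, -y)).2
    rw [hform] at this
    change -y ≤ γ (-y) at this
    linarith
  · intro x
    have := (hup' (x, 0)).1
    rw [hform] at this
    exact this

lemma center_trivial {z : Hm} (h : ∀ f : S, z * f.1 = f.1 * z) : z = 1 := by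
  have hrat : ∀ r : ℚ, z (r : ℝ) = r := by
    intro r
    have h1 : (z * (ra r r 2 two_pos).1) (r : ℝ) = ((ra r r 2 two_pos).1 * z) (r : ℝ) := by
      rw [h]
    rw [mul_apply, mul_apply, ra_apply, ra_apply] at h1
    simp only [sub_self, mul_zero, add_zero] at h1
    push_cast at h1
    linarith
  apply Hm.ext
  intro x
  rw [one_apply]
  by_contra hne
  rcases lt_or_gt_of_ne hne with hlt | hlt
  · obtain ⟨r, h1, h2⟩ := exists_rat_btwn hlt
    have := z.lt_iff.mpr h2
    rw [hrat r] at this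
    linarith
  · obtain ⟨r, h1, h2⟩ := exists_rat_btwn hlt
    have := z.lt_iff.mpr h1
    rw [hrat r] at this
    linarith

lemma comm_of_forall {a b c d : Hm}
    (h : ∀ f : S, c * (a * f.1 * b) * d = a * (c * f.1 * d) * b) :
    c * a = a * c ∧ b * d = d * b := by
  have h1 : ∀ f : S, ((a * c)⁻¹ * (c * a)) * f.1 = f.1 * ((d * b) * (b * d)⁻¹) := by
    intro f
    have := h f
    have e : (a * c)⁻¹ * (c * (a * f.1 * b) * d) * (b * d)⁻¹ =
        (a * c)⁻¹ * (a * (c * f.1 * d) * b) * (b * d)⁻¹ := by rw [this]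
    have e1 : (a * c)⁻¹ * (c * (a * f.1 * b) * d) * (b * d)⁻¹ = ((a * c)⁻¹ * (c * a)) * f.1 := by
      group
    have e2 : (a * c)⁻¹ * (a * (c * f.1 * d) * b) * (b * d)⁻¹ =
        f.1 * ((d * b) * (b * d)⁻¹) := by
      group
    rw [← e1, e, e2]
  have h2 := h1 1
  rw [Subgroup.coe_one, mul_one, one_mul] at h2
  have h3 : (a * c)⁻¹ * (c * a) = 1 := center_trivial (fun f => by
    have := h1 f
    rw [← h2] at this
    exact this)
  constructor
  · exact (inv_mul_eq_one.mp h3).symm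
  · rw [h3] at h2
    exact (mul_inv_eq_one.mp h2.symm).symm

lemma bumps_noncomm {p₁ p₂ q₁ q₂ : ℝ} (h1 : p₁ < p₂) (h2 : p₂ < q₁) (h3 : q₁ < q₂)
    (h : bump p₁ q₁ * bump p₂ q₂ = bump p₂ q₂ * bump p₁ q₁) : False := by
  have e1 := bump_in h1 h2
  have e2 : bump p₁ q₁ p₂ < q₁ := by
    have := (bump p₁ q₁).lt_iff.mpr h2
    rwa [bump_out (Or.inr le_rfl)] at this
  have e3 := congrArg (fun f : Hm => f p₂) h
  simp only [mul_apply] at e3
  rw [bump_out (p := p₂) (q := q₂) (t := p₂) (Or.inl le_rfl)] at e3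
  have e4 := bump_in (p := p₂) (q := q₂) e1 (e2.trans h3)
  linarith

theorem no_comm_op (m : S → S → S) (iv : S → S)
    (hH : ∀ a b c : S, a ≤ b → m a c ≤ m b c ∧ m c a ≤ m c b)
    (assoc : ∀ x y z, m (m x y) z = m x (m y z)) (comm : ∀ x y, m x y = m y x)
    (invr : ∀ x, m x (iv x) = 1) (mone : ∀ x, m x 1 = x) : False := by
  have hR : ∀ r : S, 1 ≤ r → ∃ a b : Hm, 1 ≤ a ∧ 1 ≤ b ∧ ∀ f, (m f r).1 = a * f.1 * b := by
    intro r hr
    let Φ : S ≃o S :=
      { toFun := fun f => m f r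
        invFun := fun f => m f (iv r)
        left_inv := fun f => by
          change m (m f r) (iv r) = f
          rw [assoc, invr, mone]
        right_inv := fun f => by
          change m (m f (iv r)) r = f
          rw [assoc, comm (iv r) r, invr, mone]
        map_rel_iff' := by
          intro f g
          change m f r ≤ m g r ↔ f ≤ g
          constructor
          · intro h
            have := (hH _ _ (iv r) h).1
            rwa [assoc, assoc, invr, mone, mone] at this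
          · intro h
            exact (hH _ _ r h).1 }
    exact two_sided Φ (fun f => by
      have := (hH _ _ f hr).2
      rwa [mone] at this)
  choose! a b ha hb hab using hR
  have hr : ∀ r : S, 1 ≤ r → r.1 = a r * b r := fun r h => by
    have := hab r h 1
    rw [comm, mone, Subgroup.coe_one, mul_one] at this
    exact this
  have hcomm : ∀ r s, 1 ≤ r → 1 ≤ s → a s * a r = a r * a s ∧ b r * b s = b s * b r := by
    intro r s h1 h2
    apply comm_of_forall
    intro f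
    rw [← hab r h1, ← hab s h2, ← hab s h2, ← hab r h1, assoc, comm r s, ← assoc]
  -- the bumps as elements of S
  let bs : ℚ → ℚ → S := fun p q => ⟨bump (p : ℝ) q, bump_mem p q⟩
  have hbs : ∀ p q, 1 ≤ bs p q := fun p q => one_le_bump (p : ℝ) q
  by_cases hall : ∀ r, 1 ≤ r → a r = 1
  · have hb' : ∀ r : S, 1 ≤ r → b r = r.1 := fun r h => by
      have := hr r h
      rw [hall r h, one_mul] at this
      exact this.symm
    have h1 := (hcomm (bs 0 2) (bs 1 3) (hbs _ _) (hbs _ _)).2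
    rw [hb' _ (hbs _ _), hb' _ (hbs _ _)] at h1
    exact bumps_noncomm (by norm_num) (by norm_num) (by norm_num) h1
  · push Not at hall
    obtain ⟨r, hr1, hr2⟩ := hall
    obtain ⟨x, hx⟩ : ∃ x, x < a r x := by
      by_contra h
      push Not at h
      exact hr2 (le_antisymm h (ha r hr1))
    obtain ⟨q, hq1, hq2⟩ := exists_between hx
    have hp : (a r)⁻¹ q < x := by rw [← (a r).lt_iff, apply_inv_self]; exact hq2
    -- small elements have trivial left part
    have hsmall : ∀ s : S, 1 ≤ s → (∀ t, t ≤ (a r)⁻¹ q ∨ q ≤ t → s.1 t = t) → b s = s.1 := by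
      intro s hs1 hs2
      have hcs : a s = 1 := by
        apply Hm.ext
        intro t
        rw [one_apply]
        have k1 : ∀ y, a s y ≤ s.1 y := by
          intro y
          have h7 := (a s).le_iff.mpr (hb _ hs1 y)
          have h8 : a s (b s y) = s.1 y := by rw [← mul_apply, ← hr _ hs1]
          rw [h8] at h7
          exact h7
        have k2 : ∀ y, y ≤ a s y := ha _ hs1
        have k3 : ∀ y, (y ≤ (a r)⁻¹ q ∨ q ≤ y) → a s y = y := fun y hy =>
          le_antisymm ((k1 y).trans (hs2 y hy).le) (k2 y)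
        by_cases hy : t ≤ (a r)⁻¹ q ∨ q ≤ t
        · exact k3 t hy
        · push Not at hy
          have k4 : q ≤ a r t := by
            have : a r ((a r)⁻¹ q) ≤ a r t := (a r).le_iff.mpr hy.1.le
            rwa [apply_inv_self] at this
          have k5 := k3 _ (Or.inr k4)
          rw [← mul_apply, (hcomm r _ hr1 hs1).1, mul_apply] at k5
          exact (a r).inj k5
      have := hr _ hs1
      rw [hcs, one_mul] at this
      exact this.symm
    -- rational points
    obtain ⟨p₁, e1, e2⟩ := exists_rat_btwn (hp.trans hq1)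
    obtain ⟨p₂, e3, e4⟩ := exists_rat_btwn e2
    obtain ⟨q₁, e5, e6⟩ := exists_rat_btwn e4
    obtain ⟨q₂, e7, e8⟩ := exists_rat_btwn e6
    have s1 : b (bs p₁ q₁) = bump (p₁ : ℝ) q₁ := hsmall _ (hbs _ _) (fun t ht => bump_out (by
      rcases ht with ht | ht
      · left; linarith
      · right; linarith))
    have s2 : b (bs p₂ q₂) = bump (p₂ : ℝ) q₂ := hsmall _ (hbs _ _) (fun t ht => bump_out (by
      rcases ht with ht | ht
      · left; linarith
      · right; linarith))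
    have h1 := (hcomm (bs p₁ q₁) (bs p₂ q₂) (hbs _ _) (hbs _ _)).2
    rw [s1, s2] at h1
    exact bumps_noncomm e3 e5 e7 h1

/-- left translation as a lattice automorphism -/
noncomputable def leftIso (e : S) : S ≃o S where
  toFun := fun f => e * f
  invFun := fun f => e⁻¹ * f
  left_inv := fun f => by simp
  right_inv := fun f => by simp
  map_rel_iff' := by
    intro f g
    exact mul_le_mul_iff_left e

theorem main : ¬ ∃ (G : Type) (_ : CommGroup G) (_ : Lattice G),
    MulLeftMono G ∧ Nonempty (S ≃o G) := by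
  rintro ⟨G, _, _, hG, ⟨φ⟩⟩
  let L : S ≃o G := (leftIso (φ.symm 1)).trans φ
  have hL1 : L 1 = 1 := by
    change φ (φ.symm 1 * 1) = 1
    rw [mul_one, OrderIso.apply_symm_apply]
  refine no_comm_op (fun x y => L.symm (L x * L y)) (fun x => L.symm (L x)⁻¹) ?_ ?_ ?_ ?_ ?_
  · intro a b c h
    constructor
    · apply L.symm.monotone
      rw [mul_comm (L a), mul_comm (L b)]
      exact mul_le_mul_right (L.monotone h) (L c)
    · apply L.symm.monotone
      exact mul_le_mul_right (L.monotone h) (L c)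
  · intro x y z
    simp only [OrderIso.apply_symm_apply, mul_assoc]
  · intro x y
    rw [mul_comm]
  · intro x
    simp only [OrderIso.apply_symm_apply, mul_inv_cancel]
    rw [← hL1, OrderIso.symm_apply_apply]
  · intro x
    simp only [hL1, mul_one, OrderIso.symm_apply_apply]

end Pool.Agent.Helper1.LatCount
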