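import Mathlib

set_option autoImplicit false

namespace Pool.Agent.Helper1.NoPrime

variable {K : Type} [Field K] [LinearOrder K] [IsStrictOrderedRing K]

/-- the chain `K` has no countable gaps -/
def Sat (K : Type) [LinearOrder K] : Prop :=
  ∀ a b : ℕ → K, (∀ j k, a j < b k) → ∃ z, (∀ j, a j < z) ∧ ∀ k, z < b k

/-- affine across every strictly increasing sequence -/
def Q (f : K ≃o K) : Prop :=
  ∀ x : ℕ → K, StrictMono x → ∃ (j : ℕ) (z l b : K), (∀ i, x i < z) ∧
    ∀ y, x j ≤ y → y ≤ z → f y = l * y + b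

lemma Q_mul {f g : K ≃o K} (hf : Q f) (hg : Q g) : Q (f * g) := by
  intro x hx
  obtain ⟨j, z, l, b, h1, h2⟩ := hg x hx
  obtain ⟨j', w, l', b', h1', h2'⟩ := hf (fun i => g (x i)) (fun a b h => g.strictMono (hx h))
  refine ⟨max j j', min z (g⁻¹ w), l' * l, l' * b + b', fun i => lt_min (h1 i) ?_, ?_⟩
  · have := h1' i
    rw [← OrderIso.lt_iff_lt g]
    rwa [show g (g⁻¹ w) = w from g.apply_symm_apply w]
  · intro y hy1 hy2
    have e1 : x j ≤ y := (hx.monotone (le_max_left _ _)).trans hy1
    have e2 : x j' ≤ y := (hx.monotone (le_max_right _ _)).trans hy1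
    have e3 := h2 y e1 (hy2.trans (min_le_left _ _))
    have e4 : g y ≤ w := by
      have := g.monotone (hy2.trans (min_le_right _ _))
      rwa [show g (g⁻¹ w) = w from g.apply_symm_apply w] at this
    have e5 := h2' (g y) (g.monotone e2) e4
    change f (g y) = _
    rw [e5, e3]; ring

lemma Q_inv {f : K ≃o K} (hf : Q f) : Q f⁻¹ := by
  intro x hx
  obtain ⟨j, z, l, b, h1, h2⟩ := hf (fun i => f⁻¹ (x i)) (fun a b h => (f⁻¹).strictMono (hx h))
  have hl : l ≠ 0 := by
    intro hl
    have e1 := h2 (f⁻¹ (x j)) le_rfl (h1 j).le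
    have e2 := h2 z (h1 j).le le_rfl
    have : f (f⁻¹ (x j)) = f z := by rw [e1, e2, hl]; ring
    exact absurd (f.injective this) (h1 j).ne
  refine ⟨j, f z, l⁻¹, - b * l⁻¹, fun i => ?_, ?_⟩
  · have := f.strictMono (h1 i)
    rwa [show f (f⁻¹ (x i)) = x i from f.apply_symm_apply _] at this
  · intro u hu1 hu2
    have e1 : f⁻¹ (x j) ≤ f⁻¹ u := (f⁻¹).monotone hu1
    have e2 : f⁻¹ u ≤ z := by
      have := (f⁻¹).monotone hu2
      rwa [show f⁻¹ (f z) = z from f.symm_apply_apply _] at this
    have e3 := h2 _ e1 e2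
    rw [show f (f⁻¹ u) = u from f.apply_symm_apply _] at e3
    have : f⁻¹ u = (u - b) / l := by
      rw [eq_div_iff hl]; linear_combination -e3
    rw [this, div_eq_mul_inv]
    ring

/-- sign of an affine function along an increasing sequence -/
lemma sign_aff {x : ℕ → K} (hx : StrictMono x) {z : K} (hz : ∀ i, x i < z) (J : ℕ) (α β : K) :
    ∃ (i : ℕ) (w : K), J ≤ i ∧ w ≤ z ∧ (∀ k, x k < w) ∧
      ((∀ y, x i ≤ y → y ≤ w → 0 ≤ α * y + β) ∨ (∀ y, x i ≤ y → y ≤ w → α * y + β ≤ 0)) := by
  have key : ∀ α β : K, 0 ≤ α * z + β → ∃ (i : ℕ) (w : K), J ≤ i ∧ w ≤ z ∧ (∀ k, x k < w) ∧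
      ((∀ y, x i ≤ y → y ≤ w → 0 ≤ α * y + β) ∨ (∀ y, x i ≤ y → y ≤ w → α * y + β ≤ 0)) := by
    intro α β h0
    by_cases h : ∃ i, J ≤ i ∧ 0 ≤ α * x i + β
    · obtain ⟨i, hi, h1⟩ := h
      refine ⟨i, z, hi, le_rfl, hz, Or.inl ?_⟩
      intro y hy1 hy2
      rcases le_total 0 α with ha | ha
      · have := mul_le_mul_of_nonneg_left hy1 ha
        linarith
      · have := mul_le_mul_of_nonpos_left hy2 ha
        linarith
    · push Not at h
      have hα : 0 < α := by
        by_contra hα
        push Not at hα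
        have := mul_le_mul_of_nonpos_left (hz J).le hα
        have := h J le_rfl
        linarith
      have hp : ∀ y, α * y + β = α * (y - (-β / α)) := fun y => by field_simp; ring
      have hlt : ∀ i, J ≤ i → x i < -β / α := by
        intro i hi
        have h1 := h i hi
        rw [hp] at h1
        by_contra hcon
        push Not at hcon
        have := mul_nonneg hα.le (sub_nonneg.mpr hcon)
        linarith
      refine ⟨J, -β / α, le_rfl, ?_, ?_, Or.inr ?_⟩
      · rw [hp] at h0
        by_contra hcon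
        push Not at hcon
        have := mul_neg_of_pos_of_neg hα (sub_neg.mpr hcon)
        linarith
      · intro k
        rcases le_total J k with hk | hk
        · exact hlt k hk
        · exact (hx.monotone hk).trans_lt (hlt J le_rfl)
      · intro y _ hy2
        rw [hp]
        exact mul_nonpos_of_nonneg_of_nonpos hα.le (sub_nonpos.mpr hy2)
  rcases le_total 0 (α * z + β) with h | h
  · exact key α β h
  · obtain ⟨i, w, h1, h2, h3, h4⟩ := key (-α) (-β) (by linarith)
    refine ⟨i, w, h1, h2, h3, ?_⟩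
    rcases h4 with h4 | h4
    · right; intro y a b; have := h4 y a b; linarith
    · left; intro y a b; have := h4 y a b; linarith

lemma Q_cases {f g h : K ≃o K} (hf : Q f) (hg : Q g)
    (hh : ∀ y, (g y ≤ f y → h y = f y) ∧ (f y ≤ g y → h y = g y)
      ∨ (g y ≤ f y → h y = g y) ∧ (f y ≤ g y → h y = f y))
    (huni : (∀ y, (g y ≤ f y → h y = f y) ∧ (f y ≤ g y → h y = g y)) ∨
      (∀ y, (g y ≤ f y → h y = g y) ∧ (f y ≤ g y → h y = f y))) : Q h := by
  intro x hx
  obtain ⟨j, z, l, b, h1, h2⟩ := hf x hx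
  obtain ⟨j', z', l', b', h1', h2'⟩ := hg x hx
  obtain ⟨i, w, e1, e2, e3, e4⟩ := sign_aff hx (z := min z z') (fun i => lt_min (h1 i) (h1' i))
    (max j j') (l - l') (b - b')
  have e5 : ∀ y, x i ≤ y → y ≤ w → f y = l * y + b := fun y hy1 hy2 =>
    h2 y ((hx.monotone ((le_max_left _ _).trans e1)).trans hy1)
      (hy2.trans (e2.trans (min_le_left _ _)))
  have e6 : ∀ y, x i ≤ y → y ≤ w → g y = l' * y + b' := fun y hy1 hy2 =>
    h2' y ((hx.monotone ((le_max_right _ _).trans e1)).trans hy1)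
      (hy2.trans (e2.trans (min_le_right _ _)))
  rcases e4 with e4 | e4
  · have e7 : ∀ y, x i ≤ y → y ≤ w → g y ≤ f y := fun y a c => by
      rw [e5 y a c, e6 y a c]; have := e4 y a c; linarith
    rcases huni with hu | hu
    · exact ⟨i, w, l, b, e3, fun y a c => by rw [(hu y).1 (e7 y a c), e5 y a c]⟩
    · exact ⟨i, w, l', b', e3, fun y a c => by rw [(hu y).1 (e7 y a c), e6 y a c]⟩
  · have e7 : ∀ y, x i ≤ y → y ≤ w → f y ≤ g y := fun y a c => by
      rw [e5 y a c, e6 y a c]; have := e4 y a c; linarith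
    rcases huni with hu | hu
    · exact ⟨i, w, l', b', e3, fun y a c => by rw [(hu y).2 (e7 y a c), e6 y a c]⟩
    · exact ⟨i, w, l, b, e3, fun y a c => by rw [(hu y).2 (e7 y a c), e5 y a c]⟩

/-- pointwise maximum of order automorphisms of a chain -/
def omax {T : Type} [LinearOrder T] (f g : T ≃o T) : T ≃o T where
  toFun t := max (f t) (g t)
  invFun s := min (f.symm s) (g.symm s)
  left_inv t := by
    change min (f.symm (max (f t) (g t))) (g.symm (max (f t) (g t))) = t
    rcases le_total (f t) (g t) with h | h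
    · rw [max_eq_right h, g.symm_apply_apply]
      apply min_eq_right
      have := f.symm.monotone h
      rwa [f.symm_apply_apply] at this
    · rw [max_eq_left h, f.symm_apply_apply]
      apply min_eq_left
      have := g.symm.monotone h
      rwa [g.symm_apply_apply] at this
  right_inv s := by
    change max (f (min (f.symm s) (g.symm s))) (g (min (f.symm s) (g.symm s))) = s
    rcases le_total (f.symm s) (g.symm s) with h | h
    · rw [min_eq_left h, f.apply_symm_apply]
      apply max_eq_left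
      have := g.monotone h
      rwa [g.apply_symm_apply] at this
    · rw [min_eq_right h, g.apply_symm_apply]
      apply max_eq_right
      have := f.monotone h
      rwa [f.apply_symm_apply] at this
  map_rel_iff' := by
    intro a b
    constructor
    · intro h
      by_contra hab
      push Not at hab
      have h1 : max (f b) (g b) < max (f a) (g a) :=
        max_lt_max (f.strictMono hab) (g.strictMono hab)
      exact absurd h (not_le.mpr h1)
    · intro h
      exact max_le_max (f.monotone h) (g.monotone h)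

@[simp] lemma omax_apply {T : Type} [LinearOrder T] (f g : T ≃o T) (t : T) :
    omax f g t = max (f t) (g t) := rfl

/-- pointwise minimum of order automorphisms of a chain -/
def omin {T : Type} [LinearOrder T] (f g : T ≃o T) : T ≃o T := (omax f.symm g.symm).symm

@[simp] lemma omin_apply {T : Type} [LinearOrder T] (f g : T ≃o T) (t : T) :
    omin f g t = min (f t) (g t) := rfl

lemma Q_omax {f g : K ≃o K} (hf : Q f) (hg : Q g) : Q (omax f g) := by
  have h : ∀ y, (g y ≤ f y → omax f g y = f y) ∧ (f y ≤ g y → omax f g y = g y) := fun y =>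
    ⟨fun h => max_eq_left h, fun h => max_eq_right h⟩
  exact Q_cases hf hg (fun y => Or.inl (h y)) (Or.inl h)

lemma Q_omin {f g : K ≃o K} (hf : Q f) (hg : Q g) : Q (omin f g) := by
  have h : ∀ y, (g y ≤ f y → omin f g y = g y) ∧ (f y ≤ g y → omin f g y = f y) := fun y =>
    ⟨fun h => min_eq_right h, fun h => min_eq_left h⟩
  exact Q_cases hf hg (fun y => Or.inr (h y)) (Or.inr h)

/-- affine automorphism `t ↦ q + M (t - p)` -/
def aff (p q M : K) (hM : 0 < M) : K ≃o K where
  toFun t := q + M * (t - p)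
  invFun s := p + (s - q) / M
  left_inv t := by
    change p + (q + M * (t - p) - q) / M = t
    field_simp
    ring
  right_inv s := by
    change q + M * (p + (s - q) / M - p) = s
    field_simp
    ring
  map_rel_iff' := by
    intro a b
    change q + M * (a - p) ≤ q + M * (b - p) ↔ a ≤ b
    constructor
    · intro h
      have h1 : M * (a - p) ≤ M * (b - p) := by linarith
      have := le_of_mul_le_mul_left h1 hM
      linarith
    · intro h
      have := mul_le_mul_of_nonneg_left (sub_le_sub_right h p) hM.le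
      linarith

@[simp] lemma aff_apply (p q M : K) (hM : 0 < M) (t : K) : aff p q M hM t = q + M * (t - p) := rfl

lemma exists_ub (hK : Sat K) (x : ℕ → K) : ∃ z, ∀ i, x i < z := by
  by_cases h : ∀ i, x i < 0
  · exact ⟨0, h⟩
  · obtain ⟨z, hz1, hz2⟩ := hK (fun _ => 0) (fun i => 1 / (1 + |x i|)) (fun j k => by
      have : 0 ≤ |x k| := abs_nonneg _
      exact div_pos one_pos (by linarith))
    refine ⟨1 / z, fun i => ?_⟩
    have h1 := hz1 0
    have h2 := hz2 i
    have h3 : 0 ≤ |x i| := abs_nonneg _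
    have h4 := le_abs_self (x i)
    rw [lt_div_iff₀ (by linarith)] at h2
    rw [lt_div_iff₀ h1]
    nlinarith

lemma Q_aff (hK : Sat K) (p q M : K) (hM : 0 < M) : Q (aff p q M hM) := by
  intro x hx
  obtain ⟨z, hz⟩ := exists_ub hK x
  exact ⟨0, z, M, q - M * p, hz, fun y _ _ => by rw [aff_apply]; ring⟩

lemma Q_one (hK : Sat K) : Q (1 : K ≃o K) := by
  intro x hx
  obtain ⟨z, hz⟩ := exists_ub hK x
  exact ⟨0, z, 1, 0, hz, fun y _ _ => by change y = _; ring⟩

/-- bounded support -/
def Bd {T : Type} [LinearOrder T] (f : T ≃o T) : Prop :=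
  ∃ t₁ t₂ : T, (∀ s, s < t₁ → f s = s) ∧ ∀ s, t₂ < s → f s = s

/-- The group. -/
def L (hK : Sat K) : Subgroup (K ≃o K) where
  carrier := {f | Q f ∧ Bd f}
  one_mem' := ⟨Q_one hK, 0, 0, fun _ _ => rfl, fun _ _ => rfl⟩
  mul_mem' := by
    rintro f g ⟨h1, a, b, h2, h3⟩ ⟨h1', a', b', h2', h3'⟩
    refine ⟨Q_mul h1 h1', min a a', max b b', ?_, ?_⟩
    · intro s hs
      change f (g s) = s
      rw [h2' s (hs.trans_le (min_le_right _ _)), h2 s (hs.trans_le (min_le_left _ _))]
    · intro s hs
      change f (g s) = s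
      rw [h3' s ((le_max_right _ _).trans_lt hs), h3 s ((le_max_left _ _).trans_lt hs)]
  inv_mem' := by
    rintro f ⟨h1, a, b, h2, h3⟩
    refine ⟨Q_inv h1, a, b, ?_, ?_⟩
    · intro s hs
      change f.symm s = s
      rw [OrderIso.symm_apply_eq, h2 s hs]
    · intro s hs
      change f.symm s = s
      rw [OrderIso.symm_apply_eq, h3 s hs]

lemma mem_L {hK : Sat K} {f : K ≃o K} : f ∈ L hK ↔ Q f ∧ Bd f := Iff.rfl

lemma omax_mem {hK : Sat K} {f g : K ≃o K} (hf : f ∈ L hK) (hg : g ∈ L hK) :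
    omax f g ∈ L hK := by
  obtain ⟨h1, a, b, h2, h3⟩ := hf
  obtain ⟨h1', a', b', h2', h3'⟩ := hg
  refine ⟨Q_omax h1 h1', min a a', max b b', ?_, ?_⟩
  · intro s hs
    rw [omax_apply, h2' s (hs.trans_le (min_le_right _ _)), h2 s (hs.trans_le (min_le_left _ _)),
      max_self]
  · intro s hs
    rw [omax_apply, h3' s ((le_max_right _ _).trans_lt hs), h3 s ((le_max_left _ _).trans_lt hs),
      max_self]

lemma omin_mem {hK : Sat K} {f g : K ≃o K} (hf : f ∈ L hK) (hg : g ∈ L hK) :
    omin f g ∈ L hK := by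
  obtain ⟨h1, a, b, h2, h3⟩ := hf
  obtain ⟨h1', a', b', h2', h3'⟩ := hg
  refine ⟨Q_omin h1 h1', min a a', max b b', ?_, ?_⟩
  · intro s hs
    rw [omin_apply, h2' s (hs.trans_le (min_le_right _ _)), h2 s (hs.trans_le (min_le_left _ _)),
      min_self]
  · intro s hs
    rw [omin_apply, h3' s ((le_max_right _ _).trans_lt hs), h3 s ((le_max_left _ _).trans_lt hs),
      min_self]

lemma two_trans (hK : Sat K) (r₁ r₂ s₁ s₂ : K) (hr : r₁ < r₂) (hs : s₁ < s₂) :
    ∃ f ∈ L hK, f r₁ = s₁ ∧ f r₂ = s₂ := by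
  -- bounds
  obtain ⟨a, ha1, ha2⟩ : ∃ a, a < r₁ ∧ a < s₁ := ⟨min r₁ s₁ - 1, by
    have := min_le_left r₁ s₁; linarith, by have := min_le_right r₁ s₁; linarith⟩
  obtain ⟨b, hb1, hb2⟩ : ∃ b, r₂ < b ∧ s₂ < b := ⟨max r₂ s₂ + 1, by
    have := le_max_left r₂ s₂; linarith, by have := le_max_right r₂ s₂; linarith⟩
  obtain ⟨M, hM1, hMa, hMb, hMc, hMd⟩ : ∃ M : K, 1 ≤ M ∧ s₂ - a ≤ M * (r₁ - a) ∧
      b - r₁ ≤ M * (b - s₂) ∧ r₂ - a ≤ M * (s₁ - a) ∧ b - s₁ ≤ M * (b - r₂) := by
    have key : ∀ u v : K, 0 < v → u ≤ (|u| / v) * v := fun u v hv => by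
      rw [div_mul_cancel₀ _ hv.ne']; exact le_abs_self u
    have hd : ∀ u v : K, 0 < v → 0 ≤ |u| / v := fun u v hv => div_nonneg (abs_nonneg _) hv.le
    have v1 : 0 < r₁ - a := by linarith
    have v2 : 0 < b - s₂ := by linarith
    have v3 : 0 < s₁ - a := by linarith
    have v4 : 0 < b - r₂ := by linarith
    have d1 := hd (s₂ - a) _ v1
    have d2 := hd (b - r₁) _ v2
    have d3 := hd (r₂ - a) _ v3
    have d4 := hd (b - s₁) _ v4
    refine ⟨1 + |s₂ - a| / (r₁ - a) + |b - r₁| / (b - s₂) + |r₂ - a| / (s₁ - a) +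
      |b - s₁| / (b - r₂), by linarith, ?_, ?_, ?_, ?_⟩
    · exact (key _ _ v1).trans (mul_le_mul_of_nonneg_right (by linarith) v1.le)
    · exact (key _ _ v2).trans (mul_le_mul_of_nonneg_right (by linarith) v2.le)
    · exact (key _ _ v3).trans (mul_le_mul_of_nonneg_right (by linarith) v3.le)
    · exact (key _ _ v4).trans (mul_le_mul_of_nonneg_right (by linarith) v4.le)
  have hM : 0 < M := by linarith
  have hMi : 0 < 1 / M := by positivity
  -- upper and lower envelopes
  let U : K ≃o K := omax 1 (omin (aff a a M hM) (aff b b (1 / M) hMi))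
  let W : K ≃o K := omin 1 (omax (aff a a (1 / M) hMi) (aff b b M hM))
  have hU : ∀ t, U t = max t (min (a + M * (t - a)) (b + 1 / M * (t - b))) := fun t => rfl
  have hW : ∀ t, W t = min t (max (a + 1 / M * (t - a)) (b + M * (t - b))) := fun t => rfl
  have hc : 0 < (s₂ - s₁) / (r₂ - r₁) := div_pos (by linarith) (by linarith)
  have QU : Q U := Q_omax (Q_one hK) (Q_omin (Q_aff hK _ _ _ _) (Q_aff hK _ _ _ _))
  have QW : Q W := Q_omin (Q_one hK) (Q_omax (Q_aff hK _ _ _ _) (Q_aff hK _ _ _ _))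
  have hMle : 1 / M ≤ 1 := by rw [div_le_one hM]; exact hM1
  have out1 : ∀ t, t < a → U t = t ∧ W t = t := by
    intro t ht
    rw [hU, hW]
    constructor
    · apply max_eq_left
      refine (min_le_left _ _).trans ?_
      nlinarith
    · apply min_eq_left
      refine le_trans ?_ (le_max_left _ _)
      nlinarith
  have out2 : ∀ t, b < t → U t = t ∧ W t = t := by
    intro t ht
    rw [hU, hW]
    constructor
    · apply max_eq_left
      refine (min_le_right _ _).trans ?_
      nlinarith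
    · apply min_eq_left
      refine le_trans ?_ (le_max_right _ _)
      nlinarith
  have inv1 : ∀ u v : K, u ≤ M * v → 1 / M * u ≤ v := fun u v h => by
    rw [one_div, inv_mul_le_iff₀ hM]; exact h
  have U1 : s₂ ≤ U r₁ := by
    rw [hU]
    apply le_max_of_le_right
    apply le_min
    · linarith
    · have := inv1 _ _ hMb
      nlinarith
  have W2 : W r₂ ≤ s₁ := by
    rw [hW]
    apply min_le_of_right_le
    apply max_le
    · have := inv1 _ _ hMc
      linarith
    · nlinarith
  have U2 : s₂ ≤ U r₂ := U1.trans (U.monotone hr.le)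
  have W1 : W r₁ ≤ s₁ := (W.monotone hr.le).trans W2
  refine ⟨omin (omax (aff r₁ s₁ _ hc) W) U, ⟨Q_omin (Q_omax (Q_aff hK _ _ _ _) QW) QU,
    a, b, ?_, ?_⟩, ?_, ?_⟩
  · intro t ht
    rw [omin_apply, omax_apply, (out1 t ht).1, (out1 t ht).2]
    exact min_eq_right (le_max_right _ _)
  · intro t ht
    rw [omin_apply, omax_apply, (out2 t ht).1, (out2 t ht).2]
    exact min_eq_right (le_max_right _ _)
  · rw [omin_apply, omax_apply, aff_apply, sub_self, mul_zero, add_zero, max_eq_left W1]
    exact min_eq_left (hs.le.trans U1)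
  · have : s₁ + (s₂ - s₁) / (r₂ - r₁) * (r₂ - r₁) = s₂ := by
      rw [div_mul_cancel₀ _ (by linarith : r₂ - r₁ ≠ 0)]; ring
    rw [omin_apply, omax_apply, aff_apply, this, max_eq_left (W2.trans hs.le)]
    exact min_eq_left U2

/-- truncation below an invariant cut -/
noncomputable def cutLow {T : Type} [LinearOrder T] (f : T ≃o T) (C : Set T)
    (hC : ∀ x y, x ≤ y → y ∈ C → x ∈ C) (hf : ∀ x, f x ∈ C ↔ x ∈ C) : T ≃o T := by
  classical
  exact
  { toFun := fun t => if t ∈ C then f t else t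
    invFun := fun t => if t ∈ C then f.symm t else t
    left_inv := fun t => by
      by_cases h : t ∈ C
      · simp only [h, if_true, (hf t).mpr h, OrderIso.symm_apply_apply]
      · simp only [h, if_false]
    right_inv := fun t => by
      by_cases h : t ∈ C
      · have : f.symm t ∈ C := by rw [← hf, OrderIso.apply_symm_apply]; exact h
        simp only [h, if_true, this, OrderIso.apply_symm_apply]
      · simp only [h, if_false]
    map_rel_iff' := by
      intro a b
      change (if a ∈ C then f a else a) ≤ (if b ∈ C then f b else b) ↔ a ≤ b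
      by_cases ha : a ∈ C <;> by_cases hb : b ∈ C
      · simp only [ha, hb, if_true]; exact f.le_iff_le
      · simp only [ha, hb, if_true, if_false]
        have h1 : f a ≤ b := by
          by_contra h
          push Not at h
          exact hb (hC _ _ h.le ((hf a).mpr ha))
        have h2 : a ≤ b := by
          by_contra h
          push Not at h
          exact hb (hC _ _ h.le ha)
        exact ⟨fun _ => h2, fun _ => h1⟩
      · simp only [ha, hb, if_true, if_false]
        have h1 : ¬ a ≤ f b := fun h => ha (hC _ _ h ((hf b).mpr hb))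
        have h2 : ¬ a ≤ b := fun h => ha (hC _ _ h hb)
        exact ⟨fun h => absurd h h1, fun h => absurd h h2⟩
      · simp only [ha, hb, if_false] }

lemma cutLow_in {T : Type} [LinearOrder T] {f : T ≃o T} {C : Set T}
    {hC : ∀ x y, x ≤ y → y ∈ C → x ∈ C} {hf : ∀ x, f x ∈ C ↔ x ∈ C} {t : T} (h : t ∈ C) :
    cutLow f C hC hf t = f t := if_pos h

lemma cutLow_out {T : Type} [LinearOrder T] {f : T ≃o T} {C : Set T}
    {hC : ∀ x y, x ≤ y → y ∈ C → x ∈ C} {hf : ∀ x, f x ∈ C ↔ x ∈ C} {t : T} (h : t ∉ C) :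
    cutLow f C hC hf t = t := if_neg h

lemma decomp (hK : Sat K) {f : K ≃o K} (hf : f ∈ L hK) (hpos : ∀ t, t ≤ f t) (hne : f ≠ 1) :
    ∃ f₁ ∈ L hK, ∃ f₂ ∈ L hK, f₁ ≠ 1 ∧ f₂ ≠ 1 ∧ (∀ t, min (f₁ t) (f₂ t) = t) ∧
      ∀ t, max (f₁ t) (f₂ t) = f t := by
  obtain ⟨x₀, hx₀⟩ : ∃ x, x < f x := by
    by_contra h
    push Not at h
    exact hne (OrderIso.ext (funext fun t => le_antisymm (h t) (hpos t)))
  obtain ⟨hQ, a, b, hbd1, hbd2⟩ := hf
  -- the orbit
  have horb : StrictMono (fun j : ℕ => (f^[j]) x₀) := by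
    apply strictMono_nat_of_lt_succ
    intro n
    rw [Function.iterate_succ_apply]
    exact f.strictMono.iterate n hx₀
  obtain ⟨j, z, l, c, hz, haf⟩ := hQ _ horb
  -- the point z₀
  obtain ⟨z₀, hz₀, hz₀'⟩ : ∃ z₀, (∀ i : ℕ, (f^[i]) x₀ < z₀) ∧ z₀ < f z₀ := by
    rcases (hpos z).lt_or_eq with h | h
    · exact ⟨z, hz, h⟩
    · obtain ⟨z₀, h1, h2⟩ := hK (fun i : ℕ => (f^[i]) x₀) (fun _ => z) (fun i _ => hz i)
      refine ⟨z₀, h1, ?_⟩
      have e1 := haf _ le_rfl (hz j).le
      have e2 := haf z (hz j).le le_rfl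
      have e3 := haf z₀ (h1 j).le (h2 0).le
      have e4 : (f^[j]) x₀ < f ((f^[j]) x₀) := by
        rw [← Function.iterate_succ_apply' f j x₀]; exact horb (Nat.lt_succ_self j)
      rw [← h] at e2
      rw [e1] at e4
      rw [e3]
      -- l * x_j + c > x_j, z = l z + c
      have h5 : l < 1 := by
        by_contra hl
        push Not at hl
        have := mul_le_mul_of_nonneg_left (hz j).le (sub_nonneg.mpr hl)
        linarith
      have h6 := mul_pos (sub_pos.mpr h5) (sub_pos.mpr (h2 0))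
      linarith
  -- the cut
  let C : Set K := {y | ∀ k : ℕ, (f^[k]) y < z₀}
  have hC : ∀ x y, x ≤ y → y ∈ C → x ∈ C := fun x y hxy hy k =>
    (f.monotone.iterate k hxy).trans_lt (hy k)
  have hfC : ∀ x, f x ∈ C ↔ x ∈ C := by
    intro x
    constructor
    · intro h k
      rcases k with _ | k
      · exact (hpos x).trans_lt (h 0)
      · rw [Function.iterate_succ_apply]; exact h k
    · intro h k
      rw [← Function.iterate_succ_apply f k x]
      exact h (k + 1)
  have hx₀C : x₀ ∈ C := hz₀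
  have hz₀C : z₀ ∉ C := fun h => lt_irrefl _ (h 0)
  -- increasing sequences inside C are bounded in C
  have hbdd : ∀ x : ℕ → K, (∀ i, x i ∈ C) → ∃ w, (∀ i, x i < w) ∧ w ∈ C := by
    intro x hx
    obtain ⟨w, h1, h2⟩ := hK x (fun k => (f.symm^[k]) z₀) (fun i k => by
      have := f.symm.strictMono.iterate k (hx i k)
      have e : (f.symm^[k]) ((f^[k]) (x i)) = x i :=
        (Function.LeftInverse.iterate f.symm_apply_apply k) (x i)
      rwa [e] at this)
    refine ⟨w, h1, fun k => ?_⟩
    have := f.strictMono.iterate k (h2 k)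
    have e : (f^[k]) ((f.symm^[k]) z₀) = z₀ :=
      (Function.LeftInverse.iterate f.apply_symm_apply k) z₀
    rwa [e] at this
  -- the two parts
  let f₁ := cutLow f C hC hfC
  let f₂ := f * f₁⁻¹
  have h1in : ∀ t, t ∈ C → f₁ t = f t := fun t h => cutLow_in h
  have h1out : ∀ t, t ∉ C → f₁ t = t := fun t h => cutLow_out h
  have h2in : ∀ t, t ∈ C → f₂ t = t := by
    intro t h
    change f (f₁.symm t) = t
    have h3 : f.symm t ∈ C := by rw [← hfC, OrderIso.apply_symm_apply]; exact h
    have : f₁.symm t = f.symm t := by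
      rw [OrderIso.symm_apply_eq, h1in _ h3, OrderIso.apply_symm_apply]
    rw [this, OrderIso.apply_symm_apply]
  have h2out : ∀ t, t ∉ C → f₂ t = f t := by
    intro t h
    change f (f₁.symm t) = f t
    have : f₁.symm t = t := by rw [OrderIso.symm_apply_eq, h1out t h]
    rw [this]
  have hf₁ : f₁ ∈ L hK := by
    refine ⟨?_, a, b, ?_, ?_⟩
    · intro x hx
      by_cases hcase : ∀ i, x i ∈ C
      · obtain ⟨w, hw1, hw2⟩ := hbdd x hcase
        obtain ⟨j, z, l, c, hz, haf⟩ := hQ x hx
        refine ⟨j, min z w, l, c, fun i => lt_min (hz i) (hw1 i), fun y hy1 hy2 => ?_⟩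
        rw [h1in y (hC _ _ (hy2.trans (min_le_right _ _)) hw2)]
        exact haf y hy1 (hy2.trans (min_le_left _ _))
      · push Not at hcase
        obtain ⟨i, hi⟩ := hcase
        obtain ⟨z, hz⟩ := exists_ub hK x
        refine ⟨i, z, 1, 0, hz, fun y hy1 _ => ?_⟩
        rw [h1out y (fun h => hi (hC _ _ hy1 h))]; ring
    · intro s hs
      by_cases h : s ∈ C
      · rw [h1in s h, hbd1 s hs]
      · exact h1out s h
    · intro s hs
      by_cases h : s ∈ C
      · rw [h1in s h, hbd2 s hs]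
      · exact h1out s h
  refine ⟨f₁, hf₁, f₂, (L hK).mul_mem ⟨hQ, a, b, hbd1, hbd2⟩ ((L hK).inv_mem hf₁), ?_, ?_, ?_, ?_⟩
  · intro h
    have h1 := h1in x₀ hx₀C
    rw [h] at h1
    change x₀ = f x₀ at h1
    exact absurd h1 hx₀.ne
  · intro h
    have h1 := h2out z₀ hz₀C
    rw [h] at h1
    change z₀ = f z₀ at h1
    exact absurd h1 hz₀'.ne
  · intro t
    by_cases h : t ∈ C
    · rw [h1in t h, h2in t h]; exact min_eq_right (hpos t)
    · rw [h1out t h, h2out t h]; exact min_eq_left (hpos t)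
  · intro t
    by_cases h : t ∈ C
    · rw [h1in t h, h2in t h]; exact max_eq_left (hpos t)
    · rw [h1out t h, h2out t h]; exact max_eq_right (hpos t)

lemma sat_hyper : Sat Hyperreal := by
  intro a b hab
  have ha : ∀ j, ∃ A : ℕ → ℝ, Hyperreal.ofSeq A = a j := fun j => Hyperreal.ofSeq_surjective (a j)
  have hb : ∀ j, ∃ B : ℕ → ℝ, Hyperreal.ofSeq B = b j := fun j => Hyperreal.ofSeq_surjective (b j)
  choose A hA using ha
  choose B hB using hb
  classical
  let P : ℕ → ℕ → Prop := fun n m => ∀ j ≤ m, ∀ k ≤ m, A j n < B k n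
  have hz : ∀ n, ∃ z : ℝ, P n (Nat.findGreatest (P n) n) →
      (∀ j ≤ Nat.findGreatest (P n) n, A j n < z) ∧ ∀ k ≤ Nat.findGreatest (P n) n, z < B k n := by
    intro n
    by_cases h : P n (Nat.findGreatest (P n) n)
    · generalize hmdef : Nat.findGreatest (P n) n = m at h
      have hne : (Finset.range (m + 1)).Nonempty := ⟨0, Finset.mem_range.mpr (Nat.succ_pos m)⟩
      have hlt : (Finset.range (m + 1)).sup' hne (fun j => A j n) <
          (Finset.range (m + 1)).inf' hne (fun k => B k n) := by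
        rw [Finset.sup'_lt_iff]
        intro j hj
        rw [Finset.lt_inf'_iff]
        intro k hk
        exact h j (Nat.lt_succ_iff.mp (Finset.mem_range.mp hj)) k
          (Nat.lt_succ_iff.mp (Finset.mem_range.mp hk))
      obtain ⟨z, hz1, hz2⟩ := exists_between hlt
      rw [Finset.sup'_lt_iff] at hz1
      rw [Finset.lt_inf'_iff] at hz2
      exact ⟨z, fun _ => ⟨fun j hj => hz1 j (Finset.mem_range.mpr (Nat.lt_succ_iff.mpr hj)),
        fun k hk => hz2 k (Finset.mem_range.mpr (Nat.lt_succ_iff.mpr hk))⟩⟩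
    · exact ⟨0, fun h' => absurd h' h⟩
  choose Z hZ using hz
  have hev : ∀ i, ∀ᶠ n in (Filter.hyperfilter ℕ : Filter ℕ), i ≤ n ∧ P n i := by
    intro i
    apply Filter.Eventually.and
    · apply Filter.hyperfilter_le_cofinite
      rw [Nat.cofinite_eq_atTop]
      exact Filter.eventually_ge_atTop i
    · have : ∀ j ≤ i, ∀ k ≤ i, ∀ᶠ n in (Filter.hyperfilter ℕ : Filter ℕ), A j n < B k n := by
        intro j _ k _
        rw [← Hyperreal.ofSeq_lt_ofSeq, hA, hB]
        exact hab j k
      have h2 : ∀ j ∈ Finset.range (i + 1), ∀ᶠ n in (Filter.hyperfilter ℕ : Filter ℕ),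
          ∀ k ∈ Finset.range (i + 1), A j n < B k n := by
        intro j hj
        rw [Filter.eventually_all_finset]
        intro k hk
        exact this j (Nat.lt_succ_iff.mp (Finset.mem_range.mp hj)) k
          (Nat.lt_succ_iff.mp (Finset.mem_range.mp hk))
      rw [← Filter.eventually_all_finset] at h2
      refine h2.mono fun n hn j hj k hk => hn j (Finset.mem_range.mpr (Nat.lt_succ_iff.mpr hj)) k
        (Finset.mem_range.mpr (Nat.lt_succ_iff.mpr hk))
  have hfin : ∀ i n, i ≤ n → P n i → A i n < Z n ∧ Z n < B i n := by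
    intro i n h1 h2
    have h3 := Nat.findGreatest_spec (P := P n) h1 h2
    have h4 := Nat.le_findGreatest (P := P n) h1 h2
    obtain ⟨h5, h6⟩ := hZ n h3
    exact ⟨h5 i h4, h6 i h4⟩
  refine ⟨Hyperreal.ofSeq Z, fun j => ?_, fun k => ?_⟩
  · rw [← hA j, Hyperreal.ofSeq_lt_ofSeq]
    exact (hev j).mono fun n hn => (hfin j n hn.1 hn.2).1
  · rw [← hB k, Hyperreal.ofSeq_lt_ofSeq]
    exact (hev k).mono fun n hn => (hfin k n hn.1 hn.2).2

end Pool.Agent.Helper1.NoPrime
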