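import Mathlib

set_option autoImplicit false

namespace Pool.Agent.Helper1.QData

/-- abstract properties of the division ring of the infinite quantum torus at `q = -1` -/
structure QData (D : Type) [Ring D] (u v : ℕ → D) : Prop where
  uu : ∀ n m, u n * u m = u m * u n
  vv : ∀ n m, v n * v m = v m * v n
  vu_ne : ∀ n m, n ≠ m → v n * u m = u m * v n
  vu : ∀ n, v n * u n = -(u n * v n)
  u0 : ∀ n, u n ≠ 0
  v0 : ∀ n, v n ≠ 0
  ev : ∀ d, ∃ M : ℕ, ∀ m, M ≤ m → d * u m = u m * d ∧ d * v m = v m * d
  cen : ∀ z, (∀ n, z * u n = u n * z) → (∀ n, z * v n = v n * z) → z ∈ Subring.center D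
  inv : ∀ z ∈ Subring.center D, z ≠ 0 → ∃ w, z * w = 1
  two : (2 : D) ≠ 0

section Step

variable {D : Type} [Ring D]

theorem center_comm {z : D} (hz : z ∈ Subring.center D) (d : D) : z * d = d * z :=
  ((Subring.mem_center_iff.1 hz) d).symm

theorem inv_center [NoZeroDivisors D] {z w : D} (hz : z ∈ Subring.center D) (hzw : z * w = 1) :
    w ∈ Subring.center D := by
  rw [Subring.mem_center_iff]
  intro d
  have h1 : w * z = 1 := by rw [← center_comm hz]; exact hzw
  calc d * w = (w * z) * d * w := by rw [h1, one_mul]
    _ = w * d * (z * w) := by rw [mul_assoc w z d, center_comm hz d]; simp only [mul_assoc]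
    _ = w * d := by rw [hzw, mul_one]

/-- one step of finite generation -/
theorem step_fg (E : Subalgebra (Subring.center D) D) (w w' g g' h : D)
    (hw2 : w * w ∈ Subring.center D) (hww : w * w' = 1) (hww' : w' * w = 1)
    (hg : g ∈ E) (hg' : g' ∈ E) (hgg' : g' * g = 1) (hgg : g * g' = 1)
    (hwg : w * g = -(g * w)) (hst : ∀ d ∈ E, w * d * w' ∈ E)
    (hh : h ∈ Subring.center D) (hh2 : h + h = 1)
    (E' : Subalgebra (Subring.center D) D) (hE' : ∀ d, d ∈ E' ↔ d ∈ E ∧ d * w = w * d)
    (hfg : (Subalgebra.toSubmodule E').FG) : (Subalgebra.toSubmodule E).FG := by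
  have heq : Subalgebra.toSubmodule E = Subalgebra.toSubmodule E' ⊔
      (Subalgebra.toSubmodule E').map (LinearMap.mulRight (Subring.center D) g) := by
    apply le_antisymm
    · intro d hd
      rw [Subalgebra.mem_toSubmodule] at hd
      have hhE : h ∈ E := by
        have : h = algebraMap (Subring.center D) D ⟨h, hh⟩ := rfl
        rw [this]; exact E.algebraMap_mem _
      set A := w * d * w' with hA
      have hAE : A ∈ E := hst d hd
      have wA : w * A = d * w := by
        rw [hA, ← mul_assoc, ← mul_assoc, center_comm hw2 d, mul_assoc, mul_assoc, hww, mul_one]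
      have Aw : A * w = w * d := by
        rw [hA, mul_assoc, hww', mul_one]
      have h1 : h * (d + A) ∈ E' := by
        rw [hE']
        refine ⟨E.mul_mem hhE (E.add_mem hd hAE), ?_⟩
        have e0 : (d + A) * w = w * (d + A) := by
          rw [add_mul, mul_add, wA, Aw, add_comm]
        rw [mul_assoc, e0, ← mul_assoc, center_comm hh w, mul_assoc]
      have h2 : (h * (d - A)) * g' ∈ E' := by
        rw [hE']
        refine ⟨E.mul_mem (E.mul_mem hhE (E.sub_mem hd hAE)) hg', ?_⟩
        have hwg' : w * g' = -(g' * w) := by
          calc w * g' = (g' * g) * (w * g') := by rw [hgg', one_mul]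
            _ = g' * (g * w) * g' := by simp only [mul_assoc]
            _ = g' * (-(w * g)) * g' := by rw [hwg, neg_neg]
            _ = -(g' * w * (g * g')) := by
              rw [mul_neg, neg_mul]; simp only [mul_assoc]
            _ = -(g' * w) := by rw [hgg, mul_one]
        have hg'w : g' * w = -(w * g') := by rw [hwg', neg_neg]
        have e1 : (d - A) * w = -(w * (d - A)) := by
          rw [sub_mul, mul_sub, wA, Aw, neg_sub]
        calc h * (d - A) * g' * w = h * ((d - A) * (g' * w)) := by simp only [mul_assoc]
          _ = h * (-(((d - A) * w) * g')) := by rw [hg'w, mul_neg]; simp only [mul_assoc]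
          _ = h * (w * (d - A) * g') := by rw [e1, neg_mul, neg_neg]
          _ = (h * w) * ((d - A) * g') := by simp only [mul_assoc]
          _ = w * (h * (d - A) * g') := by rw [center_comm hh w]; simp only [mul_assoc]
      have h3 : d = h * (d + A) + (h * (d - A)) * g' * g := by
        rw [mul_assoc (h * (d - A)) g' g, hgg', mul_one, ← mul_add]
        have : d + A + (d - A) = d + d := by abel
        rw [this, mul_add, ← add_mul, hh2, one_mul]
      rw [h3]
      exact Submodule.add_mem_sup h1 ⟨_, h2, rfl⟩
    · apply sup_le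
      · intro d hd
        exact ((hE' d).1 hd).1
      · rintro _ ⟨d, hd, rfl⟩
        exact E.mul_mem ((hE' d).1 hd).1 hg
  rw [heq]
  exact hfg.sup (hfg.map _)

end Step

section Main

variable {D : Type} [Ring D] [NoZeroDivisors D] {u v : ℕ → D}

/-- interleaved generators -/
def gen (u v : ℕ → D) (k : ℕ) : D := if k % 2 = 0 then v (k / 2) else u (k / 2)
/-- partners -/
def par (u v : ℕ → D) (k : ℕ) : D := if k % 2 = 0 then u (k / 2) else v (k / 2)

theorem gen_gen (h : QData D u v) (j k : ℕ) :
    gen u v j * gen u v k = gen u v k * gen u v j ∨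
      gen u v j * gen u v k = -(gen u v k * gen u v j) := by
  unfold gen
  split_ifs with h1 h2 h2
  · left; exact h.vv _ _
  · by_cases h3 : j / 2 = k / 2
    · right; rw [h3]; exact h.vu _
    · left; exact h.vu_ne _ _ h3
  · by_cases h3 : k / 2 = j / 2
    · right; rw [h3, h.vu, neg_neg]
    · left; exact (h.vu_ne _ _ h3).symm
  · left; exact h.uu _ _

theorem gen_par (h : QData D u v) (k : ℕ) :
    gen u v k * par u v k = -(par u v k * gen u v k) := by
  unfold gen par
  split_ifs with h1
  · exact h.vu _
  · rw [h.vu, neg_neg]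

theorem gen_par_lt (h : QData D u v) (j k : ℕ) (hjk : k + 1 ≤ j) :
    gen u v j * par u v k = par u v k * gen u v j := by
  unfold gen par
  split_ifs with h1 h2 h2
  · exact h.vu_ne _ _ (by omega)
  · exact h.vv _ _
  · exact h.uu _ _
  · exact (h.vu_ne _ _ (by omega)).symm

theorem sq_comm (h : QData D u v) (n : ℕ) :
    u n * u n ∈ Subring.center D ∧ v n * v n ∈ Subring.center D := by
  constructor
  · apply h.cen
    · intro m; rw [mul_assoc, h.uu n m, ← mul_assoc, h.uu n m, mul_assoc]
    · intro m
      by_cases hm : m = n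
      · subst hm
        rw [mul_assoc, ← neg_neg (u m * v m), ← h.vu, mul_neg, ← mul_assoc, ← neg_mul,
          ← h.vu, mul_assoc]
      · rw [mul_assoc, ← h.vu_ne m n hm, ← mul_assoc, ← h.vu_ne m n hm, mul_assoc]
  · apply h.cen
    · intro m
      by_cases hm : n = m
      · subst hm
        rw [mul_assoc, h.vu, mul_neg, ← mul_assoc, h.vu, neg_mul, neg_neg, mul_assoc]
      · rw [mul_assoc, h.vu_ne n m hm, ← mul_assoc, h.vu_ne n m hm, mul_assoc]
    · intro m; rw [mul_assoc, h.vv n m, ← mul_assoc, h.vv n m, mul_assoc]

theorem gen_sq (h : QData D u v) (k : ℕ) : gen u v k * gen u v k ∈ Subring.center D := by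
  unfold gen
  split_ifs
  · exact (sq_comm h _).2
  · exact (sq_comm h _).1

theorem par_sq (h : QData D u v) (k : ℕ) : par u v k * par u v k ∈ Subring.center D := by
  unfold par
  split_ifs
  · exact (sq_comm h _).1
  · exact (sq_comm h _).2

theorem gen_ne (h : QData D u v) (k : ℕ) : gen u v k ≠ 0 := by
  unfold gen
  split_ifs
  · exact h.v0 _
  · exact h.u0 _

theorem par_ne (h : QData D u v) (k : ℕ) : par u v k ≠ 0 := by
  unfold par
  split_ifs
  · exact h.u0 _
  · exact h.v0 _

/-- inverse of an element with central nonzero square -/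
theorem inv_of_sq (h : QData D u v) (a : D) (ha : a ≠ 0) (h2 : a * a ∈ Subring.center D) :
    ∃ z ∈ Subring.center D, a * (a * z) = 1 ∧ (a * z) * a = 1 := by
  obtain ⟨z, hz⟩ := h.inv _ h2 (mul_ne_zero ha ha)
  have hzc := inv_center h2 hz
  refine ⟨z, hzc, by rw [← mul_assoc]; exact hz, ?_⟩
  rw [mul_assoc, center_comm hzc a, ← mul_assoc]; exact hz

/-- the filtration -/
def Ek (u v : ℕ → D) (k : ℕ) : Subalgebra (Subring.center D) D :=
  Subalgebra.centralizer _ {x | ∃ j, k ≤ j ∧ x = gen u v j}

theorem mem_Ek (k : ℕ) (d : D) : d ∈ Ek u v k ↔ ∀ j, k ≤ j → gen u v j * d = d * gen u v j := by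
  unfold Ek
  rw [Subalgebra.mem_centralizer_iff]
  constructor
  · intro h j hj; exact h _ ⟨j, hj, rfl⟩
  · rintro h _ ⟨j, hj, rfl⟩; exact h j hj

theorem Ek_fg (h : QData D u v) (k : ℕ) : (Subalgebra.toSubmodule (Ek u v k)).FG := by
  induction k with
  | zero =>
    have : Subalgebra.toSubmodule (Ek u v 0) = Submodule.span (Subring.center D) {(1 : D)} := by
      apply le_antisymm
      · intro z hz
        rw [Subalgebra.mem_toSubmodule, mem_Ek] at hz
        have hzc : z ∈ Subring.center D := by
          apply h.cen
          · intro n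
            have := hz (2 * n + 1) (Nat.zero_le _)
            have e : gen u v (2 * n + 1) = u n := by
              unfold gen; rw [if_neg (by omega)]; congr 1; omega
            rw [e] at this; exact this.symm
          · intro n
            have := hz (2 * n) (Nat.zero_le _)
            have e : gen u v (2 * n) = v n := by
              unfold gen; rw [if_pos (by omega)]; congr 1; omega
            rw [e] at this; exact this.symm
        rw [Submodule.mem_span_singleton]
        exact ⟨⟨z, hzc⟩, by change z * 1 = z; rw [mul_one]⟩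
      · rw [Submodule.span_le]
        rintro _ rfl
        exact (Ek u v 0).one_mem
    rw [this]
    exact Submodule.fg_span_singleton _
  | succ k ih =>
    obtain ⟨z, hz, hz1, hz2⟩ := inv_of_sq h (gen u v k) (gen_ne h k) (gen_sq h k)
    obtain ⟨y, hy, hy1, hy2⟩ := inv_of_sq h (par u v k) (par_ne h k) (par_sq h k)
    obtain ⟨t, ht⟩ := h.inv 2 (by
      have : (2 : D) = ((2 : Subring.center D) : D) := rfl
      rw [this]; exact Subtype.mem _) h.two
    have htc : t ∈ Subring.center D := inv_center (by
      have : (2 : D) = ((2 : Subring.center D) : D) := rfl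
      rw [this]; exact Subtype.mem _) ht
    have hpar : par u v k ∈ Ek u v (k + 1) := by
      rw [mem_Ek]; intro j hj; exact gen_par_lt h j k hj
    refine step_fg (Ek u v (k + 1)) (gen u v k) (gen u v k * z) (par u v k) (par u v k * y) t
      (gen_sq h k) hz1 hz2 hpar ?_ hy2 hy1 (gen_par h k) ?_ htc (by rw [← two_mul]; exact ht)
      (Ek u v k) ?_ ih
    · have : y = algebraMap (Subring.center D) D ⟨y, hy⟩ := rfl
      rw [this]; exact (Ek u v (k + 1)).mul_mem hpar ((Ek u v (k + 1)).algebraMap_mem _)
    · intro d hd
      rw [mem_Ek] at hd ⊢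
      intro j hj
      have h1 := hd j hj
      rcases gen_gen h j k with h2 | h2
      · calc gen u v j * (gen u v k * d * (gen u v k * z))
            = (gen u v j * gen u v k) * d * gen u v k * z := by simp only [mul_assoc]
          _ = gen u v k * (gen u v j * d) * gen u v k * z := by rw [h2]; simp only [mul_assoc]
          _ = gen u v k * d * (gen u v j * gen u v k) * z := by rw [h1]; simp only [mul_assoc]
          _ = gen u v k * d * gen u v k * (gen u v j * z) := by rw [h2]; simp only [mul_assoc]
          _ = gen u v k * d * (gen u v k * z) * gen u v j := by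
            rw [← center_comm hz]; simp only [mul_assoc]
      · calc gen u v j * (gen u v k * d * (gen u v k * z))
            = (gen u v j * gen u v k) * d * gen u v k * z := by simp only [mul_assoc]
          _ = -(gen u v k * (gen u v j * d) * gen u v k * z) := by
            rw [h2]; simp only [neg_mul, mul_assoc]
          _ = -(gen u v k * d * (gen u v j * gen u v k) * z) := by rw [h1]; simp only [mul_assoc]
          _ = gen u v k * d * gen u v k * (gen u v j * z) := by
            rw [h2]; simp only [neg_mul, mul_neg, neg_neg, mul_assoc]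
          _ = gen u v k * d * (gen u v k * z) * gen u v j := by
            rw [← center_comm hz]; simp only [mul_assoc]
    · intro d
      rw [mem_Ek, mem_Ek]
      constructor
      · intro hd
        exact ⟨fun j hj => hd j (by omega), (hd k le_rfl).symm⟩
      · rintro ⟨h1, h2⟩ j hj
        rcases Nat.lt_or_ge k j with h3 | h3
        · exact h1 j h3
        · have : j = k := by omega
          rw [this]; exact h2.symm

theorem exists_Ek (h : QData D u v) (d : D) : ∃ k, d ∈ Ek u v k := by
  obtain ⟨M, hM⟩ := h.ev d
  refine ⟨2 * M, ?_⟩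
  rw [mem_Ek]
  intro j hj
  unfold gen
  split_ifs
  · exact ((hM (j / 2) (by omega)).2).symm
  · exact ((hM (j / 2) (by omega)).1).symm

theorem integral (h : QData D u v) (d : D) : IsIntegral (Subring.center D) d := by
  obtain ⟨k, hk⟩ := exists_Ek h d
  exact IsIntegral.of_mem_of_fg (Ek u v k) (Ek_fg h k) d hk

theorem exists_inv_aux (h : QData D u v) (d : D) (hd : d ≠ 0) :
    ∀ (n : ℕ) (p : Polynomial (Subring.center D)), p.Monic → p.natDegree ≤ n →
      Polynomial.aeval d p = 0 → ∃ e, e * d = 1 := by
  intro n
  induction n with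
  | zero =>
    intro p hp hn h0
    have : p = 1 := by
      apply hp.natDegree_eq_zero.1; omega
    rw [this, map_one] at h0
    exfalso
    apply hd
    calc d = 1 * d := (one_mul d).symm
      _ = 0 := by rw [h0, zero_mul]
  | succ n ih =>
    intro p hp hn h0
    have hdiv : p = p.divX * Polynomial.X + Polynomial.C (p.coeff 0) := (Polynomial.divX_mul_X_add p).symm
    have h1 : Polynomial.aeval d p.divX * d + (p.coeff 0 : D) = 0 := by
      have h2 := h0
      rw [hdiv, map_add, map_mul, Polynomial.aeval_X, Polynomial.aeval_C] at h2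
      exact h2
    by_cases hc : p.coeff 0 = 0
    · rcases Nat.eq_zero_or_pos p.natDegree with hd0 | hd0
      · exact ih p hp (by omega) h0
      · apply ih p.divX
        · rw [Polynomial.Monic, Polynomial.leadingCoeff, Polynomial.natDegree_divX_eq_natDegree_tsub_one,
            Polynomial.coeff_divX]
          have : p.natDegree - 1 + 1 = p.natDegree := by omega
          rw [this]; exact hp
        · rw [Polynomial.natDegree_divX_eq_natDegree_tsub_one]; omega
        · rw [hc] at h1
          have h3 : Polynomial.aeval d p.divX * d = 0 := by simpa using h1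
          rcases mul_eq_zero.1 h3 with h4 | h4
          · exact h4
          · exact absurd h4 hd
    · have hc' : (p.coeff 0 : D) ≠ 0 := fun h5 => hc (Subtype.ext h5)
      obtain ⟨w, hw⟩ := h.inv _ (p.coeff 0).2 hc'
      refine ⟨-(w * Polynomial.aeval d p.divX), ?_⟩
      have h5 : Polynomial.aeval d p.divX * d = -(p.coeff 0 : D) := eq_neg_of_add_eq_zero_left h1
      rw [neg_mul, mul_assoc, h5, mul_neg, neg_neg, ← center_comm (p.coeff 0).2]
      exact hw

theorem exists_inv (h : QData D u v) (d : D) (hd : d ≠ 0) : ∃ e, e * d = 1 := by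
  obtain ⟨p, hp, h0⟩ := integral h d
  exact exists_inv_aux h d hd p.natDegree p hp le_rfl h0

end Main

end Pool.Agent.Helper1.QData
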