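import Mathlib
import Pool.Agent.Helper1.QData

set_option autoImplicit false

namespace Pool.Agent.Helper1.QEndo

open Pool.Agent.Helper1.QData

variable {D : Type} [DivisionRing D] {u v : ℕ → D}

/-- the elements `t_m = v_m u_{m+1}` -/
def t (u v : ℕ → D) (m : ℕ) : D := v m * u (m + 1)

/-- products of the units `1 + t_m` -/
noncomputable def w (u v : ℕ → D) : ℕ → D
  | 0 => 1
  | m + 1 => w u v m * (1 + t u v m)

theorem ut (h : QData D u v) (m : ℕ) : u m * t u v m = -(t u v m * u m) := by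
  unfold t
  rw [← mul_assoc, mul_assoc (v m), ← h.uu m (m + 1), ← mul_assoc (v m), h.vu m, neg_mul, neg_neg]

theorem t_comm_of (m : ℕ) (d : D) (h1 : d * v m = v m * d) (h2 : d * u (m+1) = u (m+1) * d) :
    d * t u v m = t u v m * d := by
  unfold t
  rw [← mul_assoc, h1, mul_assoc, h2, mul_assoc]

theorem one_add_t_ne (h : QData D u v) (m : ℕ) : 1 + t u v m ≠ 0 := by
  intro h0
  have ht : t u v m = -1 := (neg_eq_of_add_eq_zero_right h0).symm
  have h1 := ut h m
  rw [ht] at h1
  have h2 : (2 : D) * u m = 0 := by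
    have h3 : -u m = u m := by simpa using h1
    rw [two_mul]; nth_rewrite 1 [← h3]; exact neg_add_cancel _
  rcases mul_eq_zero.1 h2 with h3 | h3
  · exact h.two h3
  · exact h.u0 m h3

theorem one_sub_t_ne (h : QData D u v) (m : ℕ) : 1 - t u v m ≠ 0 := by
  intro h0
  have ht : t u v m = 1 := (sub_eq_zero.1 h0).symm
  have h1 := ut h m
  rw [ht] at h1
  have h2 : (2 : D) * u m = 0 := by
    have h3 : u m = -u m := by simpa using h1
    rw [two_mul]; nth_rewrite 2 [h3]; exact add_neg_cancel _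
  rcases mul_eq_zero.1 h2 with h3 | h3
  · exact h.two h3
  · exact h.u0 m h3

theorem w_ne (h : QData D u v) (m : ℕ) : w u v m ≠ 0 := by
  induction m with
  | zero => exact one_ne_zero
  | succ m ih => exact mul_ne_zero ih (one_add_t_ne h m)

/-- conjugation by `w_m` -/
noncomputable def sg (u v : ℕ → D) (m : ℕ) (d : D) : D := w u v m * d * (w u v m)⁻¹

theorem sg_succ (h : QData D u v) (m : ℕ) (d : D) (hd : d * t u v m = t u v m * d) :
    sg u v (m + 1) d = sg u v m d := by
  unfold sg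
  have h1 : (1 + t u v m) * d = d * (1 + t u v m) := by
    rw [add_mul, mul_add, hd, one_mul, mul_one]
  change w u v m * (1 + t u v m) * d * (w u v m * (1 + t u v m))⁻¹ = _
  rw [mul_inv_rev, mul_assoc (w u v m) _ d, h1]
  have h2 := one_add_t_ne h m
  calc w u v m * (d * (1 + t u v m)) * ((1 + t u v m)⁻¹ * (w u v m)⁻¹)
      = w u v m * d * ((1 + t u v m) * (1 + t u v m)⁻¹) * (w u v m)⁻¹ := by
        simp only [mul_assoc]
    _ = _ := by rw [mul_inv_cancel₀ h2, mul_one]

theorem exists_stable (h : QData D u v) (d : D) :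
    ∃ M : ℕ, ∀ m, M ≤ m → sg u v m d = sg u v M d := by
  obtain ⟨M, hM⟩ := h.ev d
  refine ⟨M, fun m hm => ?_⟩
  induction m, hm using Nat.le_induction with
  | base => rfl
  | succ m hm ih =>
    rw [sg_succ h m d (t_comm_of m d (hM m hm).2 (hM (m+1) (by omega)).1), ih]

/-- the limit endomorphism, as a function -/
noncomputable def sigF (h : QData D u v) (d : D) : D :=
  sg u v (Classical.choose (exists_stable h d)) d

theorem sigF_spec (h : QData D u v) (d : D) : ∃ M : ℕ, ∀ m, M ≤ m → sigF h d = sg u v m d :=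
  ⟨Classical.choose (exists_stable h d), fun m hm =>
    (Classical.choose_spec (exists_stable h d) m hm).symm⟩

/-- the limit endomorphism -/
noncomputable def sig (h : QData D u v) : D →+* D where
  toFun := sigF h
  map_zero' := by
    obtain ⟨M, hM⟩ := sigF_spec h 0
    rw [hM M le_rfl]; simp [sg]
  map_one' := by
    obtain ⟨M, hM⟩ := sigF_spec h 1
    rw [hM M le_rfl]; unfold sg; rw [mul_one, mul_inv_cancel₀ (w_ne h M)]
  map_add' a b := by
    obtain ⟨M1, h1⟩ := sigF_spec h a
    obtain ⟨M2, h2⟩ := sigF_spec h b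
    obtain ⟨M3, h3⟩ := sigF_spec h (a + b)
    rw [h1 (max M1 (max M2 M3)) (by omega), h2 (max M1 (max M2 M3)) (by omega),
      h3 (max M1 (max M2 M3)) (by omega)]
    unfold sg; rw [mul_add, add_mul]
  map_mul' a b := by
    obtain ⟨M1, h1⟩ := sigF_spec h a
    obtain ⟨M2, h2⟩ := sigF_spec h b
    obtain ⟨M3, h3⟩ := sigF_spec h (a * b)
    rw [h1 (max M1 (max M2 M3)) (by omega), h2 (max M1 (max M2 M3)) (by omega),
      h3 (max M1 (max M2 M3)) (by omega)]
    unfold sg
    generalize max M1 (max M2 M3) = m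
    calc w u v m * (a * b) * (w u v m)⁻¹
        = w u v m * a * 1 * b * (w u v m)⁻¹ := by simp only [mul_assoc, one_mul]
      _ = w u v m * a * ((w u v m)⁻¹ * w u v m) * b * (w u v m)⁻¹ := by
          rw [inv_mul_cancel₀ (w_ne h m)]
      _ = _ := by simp only [mul_assoc]

theorem sig_center (h : QData D u v) (c : D) (hc : c ∈ Subring.center D) : sig h c = c := by
  change sigF h c = c
  obtain ⟨M, hM⟩ := sigF_spec h c
  rw [hM M le_rfl]
  unfold sg
  rw [← center_comm hc, mul_assoc, mul_inv_cancel₀ (w_ne h M), mul_one]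

/-- `z_m = w_m⁻¹ u_0 w_m` -/
noncomputable def z (u v : ℕ → D) (m : ℕ) : D := (w u v m)⁻¹ * u 0 * w u v m

theorem z_succ (m : ℕ) : z u v (m + 1) = (1 + t u v m)⁻¹ * z u v m * (1 + t u v m) := by
  unfold z
  change (w u v m * (1 + t u v m))⁻¹ * u 0 * (w u v m * (1 + t u v m)) = _
  rw [mul_inv_rev]
  simp only [mul_assoc]

/-- commutes with all generators of index at least `m` -/
def Cm (u v : ℕ → D) (m : ℕ) (d : D) : Prop := ∀ k, m ≤ k → d * u k = u k * d ∧ d * v k = v k * d

theorem Cm_mul {m : ℕ} {a b : D} (ha : Cm u v m a) (hb : Cm u v m b) : Cm u v m (a * b) := by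
  intro k hk
  exact ⟨by rw [mul_assoc, (hb k hk).1, ← mul_assoc, (ha k hk).1, mul_assoc],
    by rw [mul_assoc, (hb k hk).2, ← mul_assoc, (ha k hk).2, mul_assoc]⟩

theorem Cm_add {m : ℕ} {a b : D} (ha : Cm u v m a) (hb : Cm u v m b) : Cm u v m (a + b) := by
  intro k hk
  exact ⟨by rw [add_mul, mul_add, (hb k hk).1, (ha k hk).1],
    by rw [add_mul, mul_add, (hb k hk).2, (ha k hk).2]⟩

theorem Cm_neg {m : ℕ} {a : D} (ha : Cm u v m a) : Cm u v m (-a) := by
  intro k hk
  exact ⟨by rw [neg_mul, mul_neg, (ha k hk).1], by rw [neg_mul, mul_neg, (ha k hk).2]⟩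

theorem Cm_center {m : ℕ} {a : D} (ha : a ∈ Subring.center D) : Cm u v m a :=
  fun _ _ => ⟨center_comm ha _, center_comm ha _⟩

theorem Cm_mono {m m' : ℕ} (hm : m ≤ m') {a : D} (ha : Cm u v m a) : Cm u v m' a :=
  fun k hk => ha k (hm.trans hk)

theorem Cm_u (h : QData D u v) (m : ℕ) : Cm u v (m+1) (u m) :=
  fun k hk => ⟨h.uu _ _, (h.vu_ne k m (by omega)).symm⟩

theorem Cm_v (h : QData D u v) (m : ℕ) : Cm u v (m+1) (v m) :=
  fun k hk => ⟨h.vu_ne m k (by omega), h.vv _ _⟩

theorem t_sq_center (h : QData D u v) (m : ℕ) : t u v m * t u v m ∈ Subring.center D := by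
  have h1 : t u v m * t u v m = (v m * v m) * (u (m+1) * u (m+1)) := by
    unfold t
    calc v m * u (m+1) * (v m * u (m+1)) = v m * (u (m+1) * v m) * u (m+1) := by
          simp only [mul_assoc]
      _ = v m * (v m * u (m+1)) * u (m+1) := by rw [← h.vu_ne m (m+1) (by omega)]
      _ = _ := by simp only [mul_assoc]
  rw [h1]
  exact Subring.mul_mem _ (sq_comm h m).2 (sq_comm h (m+1)).1

theorem z_form (h : QData D u v) (m : ℕ) :
    ∃ a b : D, Cm u v m a ∧ Cm u v m b ∧ b ≠ 0 ∧ z u v m = a + b * u m := by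
  induction m with
  | zero =>
    refine ⟨0, 1, fun k _ => by simp, fun k _ => by simp, one_ne_zero, ?_⟩
    simp [z, w]
  | succ m ih =>
    obtain ⟨a, b, ha, hb, hb0, hz⟩ := ih
    set s := t u v m with hs
    have hsq := t_sq_center h m
    rw [← hs] at hsq
    have hus : u m * s = -(s * u m) := ut h m
    have h1 : 1 + s ≠ 0 := one_add_t_ne h m
    have h2 : 1 - s ≠ 0 := one_sub_t_ne h m
    have h12 : (1 + s) * (1 - s) = 1 - s * s := by noncomm_ring
    have h3 : 1 - s * s ≠ 0 := by rw [← h12]; exact mul_ne_zero h1 h2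
    set c := (1 - s * s)⁻¹ with hc
    have hcc : c ∈ Subring.center D := by
      have h4 : 1 - s * s ∈ Subring.center D := Subring.sub_mem _ (Subring.one_mem _) hsq
      exact inv_center h4 (mul_inv_cancel₀ h3)
    have has : a * s = s * a := t_comm_of m a (ha m le_rfl).2 (ha (m+1) (by omega)).1
    have hbs : b * s = s * b := t_comm_of m b (hb m le_rfl).2 (hb (m+1) (by omega)).1
    -- `(1+s)⁻¹ = c (1 - s)`
    have hinv : (1 + s)⁻¹ = c * (1 - s) := by
      apply inv_eq_of_mul_eq_one_left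
      rw [mul_assoc]
      have h5 : (1 - s) * (1 + s) = 1 - s * s := by noncomm_ring
      rw [h5, hc, inv_mul_cancel₀ h3]
    have hsu : s * u m = (v m * u m) * u (m + 1) := by
      rw [hs]; unfold t
      rw [mul_assoc, ← h.uu m (m+1), ← mul_assoc]
    refine ⟨a + b * ((1 + s * s) * c * u m), -(2 * c * b * (v m * u m)), ?_, ?_, ?_, ?_⟩
    · apply Cm_add (Cm_mono (Nat.le_succ m) ha)
      apply Cm_mul (Cm_mono (Nat.le_succ m) hb)
      apply Cm_mul _ (Cm_u h m)
      exact Cm_mul (Cm_center (Subring.add_mem _ (Subring.one_mem _) hsq)) (Cm_center hcc)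
    · apply Cm_neg
      apply Cm_mul _ (Cm_mul (Cm_v h m) (Cm_u h m))
      apply Cm_mul _ (Cm_mono (Nat.le_succ m) hb)
      apply Cm_mul _ (Cm_center hcc)
      have : (2 : D) = ((2 : Subring.center D) : D) := rfl
      rw [this]; exact Cm_center (Subtype.mem _)
    · rw [neg_ne_zero]
      refine mul_ne_zero (mul_ne_zero (mul_ne_zero h.two ?_) hb0) (mul_ne_zero (h.v0 m) (h.u0 m))
      exact inv_ne_zero h3
    · rw [z_succ, hz, ← hs]
      have e1 : (1 + s)⁻¹ * a * (1 + s) = a := by
        have : a * (1 + s) = (1 + s) * a := by rw [mul_add, add_mul, has, mul_one, one_mul]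
        rw [mul_assoc, this, ← mul_assoc, inv_mul_cancel₀ h1, one_mul]
      have e2 : u m * (1 + s) = (1 - s) * u m := by
        rw [mul_add, sub_mul, hus, mul_one, one_mul, sub_eq_add_neg]
      have e3 : (1 + s)⁻¹ * (b * u m) * (1 + s) = b * (c * ((1 - s) * (1 - s)) * u m) := by
        have hb1 : (1 - s) * b = b * (1 - s) := by rw [mul_sub, sub_mul, hbs, mul_one, one_mul]
        calc (1 + s)⁻¹ * (b * u m) * (1 + s) = (1 + s)⁻¹ * b * (u m * (1 + s)) := by
              simp only [mul_assoc]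
          _ = c * ((1 - s) * b) * ((1 - s) * u m) := by rw [hinv, e2]; simp only [mul_assoc]
          _ = (c * b) * (1 - s) * ((1 - s) * u m) := by rw [hb1]; simp only [mul_assoc]
          _ = _ := by rw [center_comm hcc b]; simp only [mul_assoc]
      rw [mul_add (1 + s)⁻¹ a (b * u m), add_mul ((1 + s)⁻¹ * a) _ (1 + s), e1, e3]
      have e4 : (1 - s) * (1 - s) = (1 + s * s) - 2 * s := by noncomm_ring
      rw [e4, mul_sub, sub_mul, mul_sub, add_assoc]
      congr 1
      have e5 : b * (c * (1 + s * s) * u m) = b * ((1 + s * s) * c * u m) := by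
        rw [center_comm hcc (1 + s * s)]
      have e6 : b * (c * (2 * s) * u m) = 2 * c * b * (v m * u m) * u (m + 1) := by
        rw [mul_assoc (2 * c * b), ← hsu]
        have : b * (c * (2 * s) * u m) = b * c * 2 * (s * u m) := by simp only [mul_assoc]
        rw [this]
        congr 1
        rw [← center_comm hcc b, mul_assoc, mul_assoc, ← (Commute.ofNat_left 2 b).eq,
          ← mul_assoc c, ← (Commute.ofNat_left 2 c).eq, mul_assoc]
      rw [e5, e6, neg_mul, sub_eq_add_neg]

theorem not_surj (h : QData D u v) : ∀ d, sig h d ≠ u 0 := by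
  intro d hd
  change sigF h d = u 0 at hd
  obtain ⟨M, hM⟩ := sigF_spec h d
  have key : ∀ m, M ≤ m → d = z u v m := by
    intro m hm
    have h1 := hM m hm
    rw [hd] at h1
    unfold sg at h1
    unfold z
    rw [h1]
    have h2 := w_ne h m
    calc d = 1 * d * 1 := by rw [one_mul, mul_one]
      _ = ((w u v m)⁻¹ * w u v m) * d * ((w u v m)⁻¹ * w u v m) := by rw [inv_mul_cancel₀ h2]
      _ = _ := by simp only [mul_assoc]
  have h1 := key M le_rfl
  have h2 := key (M+1) (Nat.le_succ M)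
  rw [z_succ, ← h1] at h2
  -- `d` commutes with `1 + t_M`
  have h3 : (1 + t u v M) * d = d * (1 + t u v M) := by
    nth_rewrite 1 [h2]
    rw [← mul_assoc, ← mul_assoc, mul_inv_cancel₀ (one_add_t_ne h M), one_mul]
  have h4 : t u v M * d = d * t u v M := by
    rw [add_mul, mul_add, one_mul, mul_one] at h3
    exact add_left_cancel h3
  obtain ⟨a, b, ha, hb, hb0, hz⟩ := z_form h M
  rw [h1, hz] at h4
  have has : a * t u v M = t u v M * a := t_comm_of M a (ha M le_rfl).2 (ha (M+1) (by omega)).1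
  have hbs : b * t u v M = t u v M * b := t_comm_of M b (hb M le_rfl).2 (hb (M+1) (by omega)).1
  rw [mul_add, add_mul, has] at h4
  have h5 := add_left_cancel h4
  rw [mul_assoc, ut h M, mul_neg, ← mul_assoc, ← mul_assoc, hbs] at h5
  have h6 : (2 : D) * (t u v M * b * u M) = 0 := by
    rw [two_mul]; nth_rewrite 2 [h5]; exact add_neg_cancel _
  rcases mul_eq_zero.1 h6 with h7 | h7
  · exact h.two h7
  · refine (mul_ne_zero (mul_ne_zero ?_ hb0) (h.u0 M)) h7
    exact mul_ne_zero (h.v0 M) (h.u0 (M+1))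

end Pool.Agent.Helper1.QEndo
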