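import Mathlib

set_option autoImplicit false

namespace Pool.Agent.Helper1.QTorus

open SkewMonoidAlgebra

/-- skew monoid algebras over domains with faithful actions, of monoids with unique products -/
theorem skew_noZeroDivisors {k G : Type*} [Ring k] [NoZeroDivisors k] [Monoid G]
    [MulSemiringAction G k] [UniqueProds G] (hinj : ∀ (g : G) (a : k), g • a = 0 → a = 0) :
    NoZeroDivisors (SkewMonoidAlgebra k G) := by
  classical
  constructor
  intro f g hfg
  by_contra hcon
  push Not at hcon
  obtain ⟨hf, hg⟩ := hcon
  have hf' : f.support.Nonempty := by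
    rw [Finset.nonempty_iff_ne_empty]
    intro h; exact hf (support_eq_empty.1 h)
  have hg' : g.support.Nonempty := by
    rw [Finset.nonempty_iff_ne_empty]
    intro h; exact hg (support_eq_empty.1 h)
  obtain ⟨a, ha, b, hb, hu⟩ := UniqueProds.uniqueMul_of_nonempty hf' hg'
  have h1 : (f * g).coeff (a * b) = f.coeff a * (a • g.coeff b) := by
    rw [coeff_mul, SkewMonoidAlgebra.sum_def, Finsupp.sum, Finset.sum_eq_single a]
    · rw [SkewMonoidAlgebra.sum_def, Finsupp.sum, Finset.sum_eq_single b]
      · rw [if_pos rfl]
      · intro c hc hcb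
        rw [if_neg]
        intro h
        exact hcb (hu ha hc h).2
      · intro hc
        have : g.coeff b = 0 := by simpa [Finsupp.mem_support_iff] using hc
        rw [this]; simp
    · intro c hc hca
      rw [SkewMonoidAlgebra.sum_def, Finsupp.sum]
      apply Finset.sum_eq_zero
      intro d hd
      rw [if_neg]
      intro h
      exact hca (hu hc hd h).1
    · intro hc
      have : f.coeff a = 0 := by simpa [Finsupp.mem_support_iff] using hc
      rw [SkewMonoidAlgebra.sum_def, Finsupp.sum]
      apply Finset.sum_eq_zero
      intro d _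
      rw [this]; simp
  rw [hfg] at h1
  have h2 : f.coeff a * (a • g.coeff b) = 0 := h1.symm
  rcases mul_eq_zero.1 h2 with h3 | h3
  · exact (mem_support_iff.1 ha) h3
  · exact (mem_support_iff.1 hb) (hinj _ _ h3)

/-- the polynomial ring in the variables `i_n` -/
abbrev P : Type := MvPolynomial ℕ ℚ
/-- exponents of the `j_n` -/
abbrev G : Type := Multiplicative (ℕ →₀ ℕ)

/-- sign change automorphism attached to a group element -/
noncomputable def sgn (g : G) : P →ₐ[ℚ] P :=
  MvPolynomial.aeval fun n => ((-1 : P) ^ (Multiplicative.toAdd g n)) * MvPolynomial.X n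

theorem sgn_X (g : G) (n : ℕ) :
    sgn g (MvPolynomial.X n) = (-1) ^ (Multiplicative.toAdd g n) * MvPolynomial.X n := by
  simp [sgn]

theorem sgn_one : sgn 1 = AlgHom.id ℚ P := by
  apply MvPolynomial.algHom_ext
  intro n
  rw [sgn_X]; simp

theorem sgn_mul (g h : G) : sgn (g * h) = (sgn g).comp (sgn h) := by
  apply MvPolynomial.algHom_ext
  intro n
  have e : Multiplicative.toAdd (g * h) n = Multiplicative.toAdd g n + Multiplicative.toAdd h n := rfl
  rw [AlgHom.comp_apply, sgn_X, sgn_X, e, map_mul (sgn g), map_pow, map_neg, map_one, sgn_X,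
    pow_add]
  ring

noncomputable instance : MulSemiringAction G P where
  smul g a := sgn g a
  one_smul a := by
    change sgn 1 a = a
    rw [sgn_one]; rfl
  mul_smul g h a := by
    change sgn (g * h) a = sgn g (sgn h a)
    rw [sgn_mul]; rfl
  smul_zero g := map_zero _
  smul_add g a b := map_add _ _ _
  smul_one g := map_one _
  smul_mul g a b := map_mul _ _ _

theorem smul_def' (g : G) (a : P) : g • a = sgn g a := rfl

theorem sgn_sgn (g : G) (a : P) : sgn g (sgn g a) = a := by
  have : (sgn g).comp (sgn g) = AlgHom.id ℚ P := by
    apply MvPolynomial.algHom_ext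
    intro n
    rw [AlgHom.comp_apply, sgn_X, map_mul, map_pow, map_neg, map_one, sgn_X, ← mul_assoc,
      ← mul_pow]
    simp
  exact DFunLike.congr_fun this a

/-- the quantum polynomial ring -/
abbrev R : Type := SkewMonoidAlgebra P G

instance : NoZeroDivisors R := skew_noZeroDivisors (fun g a h => by
  rw [smul_def'] at h
  rw [← sgn_sgn g a, h, map_zero])

instance : Nontrivial R := inferInstance

/-- generators -/
noncomputable def ri (n : ℕ) : R := single 1 (MvPolynomial.X n)
noncomputable def rj (n : ℕ) : R := single (Multiplicative.ofAdd (Finsupp.single n 1)) 1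

theorem ri_ri (n m : ℕ) : ri n * ri m = ri m * ri n := by
  unfold ri
  rw [single_mul_single, single_mul_single, one_smul, one_smul, mul_comm (MvPolynomial.X n)]

theorem rj_rj (n m : ℕ) : rj n * rj m = rj m * rj n := by
  unfold rj
  rw [single_mul_single, single_mul_single, smul_one, smul_one, mul_comm (Multiplicative.ofAdd _)]

theorem rj_ri_ne (n m : ℕ) (h : n ≠ m) : rj n * ri m = ri m * rj n := by
  unfold ri rj
  rw [single_mul_single, single_mul_single, smul_def', sgn_X]
  simp [Finsupp.single_apply, h]

theorem rj_ri (n : ℕ) : rj n * ri n = - (ri n * rj n) := by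
  unfold ri rj
  rw [single_mul_single, single_mul_single, smul_def', sgn_X]
  simp [Finsupp.single_apply, ← single_neg]

theorem ri_ne (n : ℕ) : ri n ≠ 0 := by
  unfold ri
  rw [Ne, single_eq_zero]
  exact MvPolynomial.X_ne_zero n

theorem rj_ne (n : ℕ) : rj n ≠ 0 := by
  unfold rj
  rw [Ne, single_eq_zero]
  exact one_ne_zero

/-- every element of `R` is obtained from rationals, `ri` and `rj` by sums and products -/
theorem R_induction {motive : R → Prop} (hq : ∀ q : ℚ, motive (single 1 (MvPolynomial.C q)))
    (hi : ∀ n, motive (ri n)) (hj : ∀ n, motive (rj n))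
    (hadd : ∀ a b, motive a → motive b → motive (a + b))
    (hmul : ∀ a b, motive a → motive b → motive (a * b)) : ∀ r, motive r := by
  have h1 : ∀ p : P, motive (single 1 p) := by
    intro p
    induction p using MvPolynomial.induction_on with
    | C a => exact hq a
    | add p q hp hq' => rw [single_add]; exact hadd _ _ hp hq'
    | mul_X p n hp =>
      have : (single 1 (p * MvPolynomial.X n) : R) = single 1 p * ri n := by
        unfold ri; rw [single_mul_single, one_smul, one_mul]
      rw [this]; exact hmul _ _ hp (hi n)
  have h2 : ∀ g : ℕ →₀ ℕ, motive (single (Multiplicative.ofAdd g) 1) := by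
    intro g
    induction g using Finsupp.induction with
    | zero => exact h1 1
    | single_add n b f _ _ hf =>
      have h3 : ∀ b : ℕ, motive (single (Multiplicative.ofAdd (Finsupp.single n b)) 1) := by
        intro b
        induction b with
        | zero => rw [Finsupp.single_zero]; exact h1 1
        | succ b ih =>
          have : (single (Multiplicative.ofAdd (Finsupp.single n (b+1))) 1 : R) =
              single (Multiplicative.ofAdd (Finsupp.single n b)) 1 * rj n := by
            unfold rj
            rw [single_mul_single, smul_one, mul_one, ← ofAdd_add, ← Finsupp.single_add]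
          rw [this]; exact hmul _ _ ih (hj n)
      have : (single (Multiplicative.ofAdd (Finsupp.single n b + f)) 1 : R) =
          single (Multiplicative.ofAdd (Finsupp.single n b)) 1 *
            single (Multiplicative.ofAdd f) 1 := by
        rw [single_mul_single, smul_one, mul_one, ← ofAdd_add]
      rw [this]; exact hmul _ _ (h3 b) hf
  intro r
  induction r using SkewMonoidAlgebra.induction_on with
  | zero =>
    have := h1 0
    rwa [single_zero] at this
  | single g a =>
    have : (single g a : R) = single 1 a * single g 1 := by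
      rw [single_mul_single, one_smul, one_mul, mul_one]
    rw [this]
    exact hmul _ _ (h1 a) (h2 _)
  | add a b ha hb => exact hadd _ _ ha hb

theorem C_central (q : ℚ) (r : R) : single 1 (MvPolynomial.C q) * r = r * single 1 (MvPolynomial.C q) := by
  refine SkewMonoidAlgebra.ext fun g => ?_
  rw [coeff_single_one_mul, coeff_mul_single_one, smul_def']
  have : sgn g (MvPolynomial.C q) = MvPolynomial.C q := by
    simp [sgn]
  rw [this, mul_comm]

/-- commuting with all generators implies central -/
theorem central_of_comm (z : R) (hi : ∀ n, z * ri n = ri n * z) (hj : ∀ n, z * rj n = rj n * z) :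
    ∀ r, z * r = r * z := by
  apply R_induction
  · intro q; rw [C_central]
  · exact hi
  · exact hj
  · intro a b ha hb; rw [mul_add, add_mul, ha, hb]
  · intro a b ha hb; rw [← mul_assoc, ha, mul_assoc, hb, mul_assoc]

/-- every element commutes with all but finitely many generators -/
theorem eventually_comm (r : R) : ∃ M : ℕ, ∀ m, M ≤ m → r * ri m = ri m * r ∧ r * rj m = rj m * r := by
  induction r using R_induction with
  | hq q => exact ⟨0, fun m _ => ⟨C_central q _, C_central q _⟩⟩
  | hi n =>
    exact ⟨n + 1, fun m hm => ⟨ri_ri n m, (rj_ri_ne m n (by omega)).symm⟩⟩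
  | hj n =>
    exact ⟨n + 1, fun m hm => ⟨rj_ri_ne n m (by omega), rj_rj n m⟩⟩
  | hadd a b ha hb =>
    obtain ⟨A, hA⟩ := ha
    obtain ⟨B, hB⟩ := hb
    refine ⟨max A B, fun m hm => ?_⟩
    have h1 := hA m (le_trans (le_max_left _ _) hm)
    have h2 := hB m (le_trans (le_max_right _ _) hm)
    exact ⟨by rw [add_mul, mul_add, h1.1, h2.1], by rw [add_mul, mul_add, h1.2, h2.2]⟩
  | hmul a b ha hb =>
    obtain ⟨A, hA⟩ := ha
    obtain ⟨B, hB⟩ := hb
    refine ⟨max A B, fun m hm => ?_⟩
    have h1 := hA m (le_trans (le_max_left _ _) hm)
    have h2 := hB m (le_trans (le_max_right _ _) hm)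
    exact ⟨by rw [mul_assoc, h2.1, ← mul_assoc, h1.1, mul_assoc],
      by rw [mul_assoc, h2.2, ← mul_assoc, h1.2, mul_assoc]⟩

end Pool.Agent.Helper1.QTorus
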