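import Mathlib

set_option autoImplicit false

namespace Pool.Agent.Helper1.TwistExt

/-- pairs `d + x e` with `x² = 0` and `d x = x σ(d)` -/
@[ext] structure A {D : Type} [DivisionRing D] (σ : D →+* D) where
  d : D
  e : D

namespace A

variable {D : Type} [DivisionRing D] {σ : D →+* D}

instance : Zero (A σ) := ⟨⟨0, 0⟩⟩
instance : One (A σ) := ⟨⟨1, 0⟩⟩
instance : Add (A σ) := ⟨fun x y => ⟨x.d + y.d, x.e + y.e⟩⟩
instance : Neg (A σ) := ⟨fun x => ⟨-x.d, -x.e⟩⟩
instance : Mul (A σ) := ⟨fun x y => ⟨x.d * y.d, σ x.d * y.e + x.e * y.d⟩⟩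

theorem zero_def : (0 : A σ) = ⟨0, 0⟩ := rfl
theorem one_def : (1 : A σ) = ⟨1, 0⟩ := rfl
theorem add_def (x y : A σ) : x + y = ⟨x.d + y.d, x.e + y.e⟩ := rfl
theorem neg_def (x : A σ) : -x = ⟨-x.d, -x.e⟩ := rfl
theorem mul_def (x y : A σ) : x * y = ⟨x.d * y.d, σ x.d * y.e + x.e * y.d⟩ := rfl

instance : Ring (A σ) where
  add_assoc x y z := by ext <;> simp only [add_def, add_assoc]
  zero_add x := by ext <;> simp only [add_def, zero_def, zero_add]
  add_zero x := by ext <;> simp only [add_def, zero_def, add_zero]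
  add_comm x y := by ext <;> simp only [add_def, add_comm]
  neg_add_cancel x := by ext <;> simp only [add_def, neg_def, zero_def, neg_add_cancel]
  mul_assoc x y z := by
    ext
    · simp only [mul_def, mul_assoc]
    · simp only [mul_def, map_mul, mul_add, add_mul, mul_assoc, add_assoc]
  one_mul x := by ext <;> simp [mul_def, one_def]
  mul_one x := by ext <;> simp [mul_def, one_def]
  left_distrib x y z := by
    ext
    · simp only [mul_def, add_def, mul_add]
    · simp only [mul_def, add_def, mul_add]; abel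
  right_distrib x y z := by
    ext
    · simp only [mul_def, add_def, add_mul]
    · simp only [mul_def, add_def, map_add, add_mul]; abel
  zero_mul x := by ext <;> simp [mul_def, zero_def]
  mul_zero x := by ext <;> simp [mul_def, zero_def]
  nsmul := nsmulRec
  zsmul := zsmulRec

theorem right_inv (x : A σ) (hx : x.d ≠ 0) : ∃ y : A σ, x * y = 1 := by
  have hs : σ x.d ≠ 0 := (map_ne_zero σ).2 hx
  refine ⟨⟨x.d⁻¹, -((σ x.d)⁻¹ * (x.e * x.d⁻¹))⟩, ?_⟩
  ext
  · simp only [mul_def, one_def]; exact mul_inv_cancel₀ hx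
  · simp only [mul_def, one_def]
    rw [mul_neg, ← mul_assoc, mul_inv_cancel₀ hs, one_mul, neg_add_cancel]

theorem right_chain (a b : Submodule (A σ)ᵐᵒᵖ (A σ)) : a ≤ b ∨ b ≤ a := by
  by_cases h : a ≤ b
  · exact Or.inl h
  right
  rw [SetLike.not_le_iff_exists] at h
  obtain ⟨x, hxa, hxb⟩ := h
  have hmul : ∀ (c : Submodule (A σ)ᵐᵒᵖ (A σ)) (y : A σ), y ∈ c → ∀ z, y * z ∈ c := by
    intro c y hy z
    exact c.smul_mem (MulOpposite.op z) hy
  have htop : ∀ (c : Submodule (A σ)ᵐᵒᵖ (A σ)) (y : A σ), y ∈ c → y.d ≠ 0 → ∀ z, z ∈ c := by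
    intro c y hy hd z
    obtain ⟨y', hy'⟩ := right_inv y hd
    have := hmul c y hy (y' * z)
    rwa [← mul_assoc, hy', one_mul] at this
  intro y hy
  by_cases hx : x.d = 0
  · by_cases hyd : y.d = 0
    · have hxe : x.e ≠ 0 := by
        intro h0
        apply hxb
        have : x = 0 := by ext <;> simp [hx, h0, zero_def]
        rw [this]; exact b.zero_mem
      have : y = x * ⟨x.e⁻¹ * y.e, 0⟩ := by
        ext
        · simp [mul_def, hx, hyd]
        · simp [mul_def, hxe]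
      rw [this]
      exact hmul a x hxa _
    · exact absurd (htop b y hy hyd x) hxb
  · exact htop a x hxa hx y

theorem right_distributive (a b c : Submodule (A σ)ᵐᵒᵖ (A σ)) :
    a ⊓ (b ⊔ c) = (a ⊓ b) ⊔ (a ⊓ c) := by
  apply le_antisymm
  · rcases right_chain b c with h | h
    · rw [sup_eq_right.2 h]; exact le_sup_right
    · rw [sup_eq_left.2 h]; exact le_sup_left
  · exact sup_le (inf_le_inf_left _ le_sup_left) (inf_le_inf_left _ le_sup_right)

theorem mem_span (g : D) (y : A σ) :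
    y ∈ Submodule.span (A σ) {(⟨0, g⟩ : A σ)} ↔ ∃ d : D, y = ⟨0, σ d * g⟩ := by
  rw [Submodule.mem_span_singleton]
  constructor
  · rintro ⟨x, rfl⟩
    refine ⟨x.d, ?_⟩
    rw [smul_eq_mul, mul_def]
    simp
  · rintro ⟨d, rfl⟩
    refine ⟨⟨d, 0⟩, ?_⟩
    rw [smul_eq_mul, mul_def]
    simp

theorem not_left_distributive (z : D) (hz : ∀ d, σ d ≠ z) :
    ¬ ∀ a b c : Submodule (A σ) (A σ), a ⊓ (b ⊔ c) = (a ⊓ b) ⊔ (a ⊓ c) := by
  intro H
  have h := H (Submodule.span (A σ) {(⟨0, 1 + z⟩ : A σ)}) (Submodule.span (A σ) {(⟨0, 1⟩ : A σ)})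
    (Submodule.span (A σ) {(⟨0, z⟩ : A σ)})
  have h1 : (⟨0, 1 + z⟩ : A σ) ∈ Submodule.span (A σ) {(⟨0, 1 + z⟩ : A σ)} ⊓
      (Submodule.span (A σ) {(⟨0, 1⟩ : A σ)} ⊔ Submodule.span (A σ) {(⟨0, z⟩ : A σ)}) := by
    refine ⟨Submodule.mem_span_singleton_self _, ?_⟩
    have : (⟨0, 1 + z⟩ : A σ) = ⟨0, 1⟩ + ⟨0, z⟩ := by ext <;> simp [add_def]
    rw [this]
    exact Submodule.add_mem_sup (Submodule.mem_span_singleton_self _)
      (Submodule.mem_span_singleton_self _)
  rw [h] at h1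
  have e1 : Submodule.span (A σ) {(⟨0, 1 + z⟩ : A σ)} ⊓ Submodule.span (A σ) {(⟨0, 1⟩ : A σ)} = ⊥ := by
    rw [eq_bot_iff]
    rintro y ⟨hy1, hy2⟩
    obtain ⟨d1, rfl⟩ := (mem_span _ _).1 hy1
    obtain ⟨d2, hd2⟩ := (mem_span _ _).1 hy2
    have h3 : σ d1 * (1 + z) = σ d2 := by
      have := congrArg A.e hd2
      simpa using this
    by_cases hd : d1 = 0
    · subst hd
      rw [Submodule.mem_bot]
      simp [zero_def]
    · exfalso
      apply hz (d1⁻¹ * d2 - 1)
      have hs : σ d1 ≠ 0 := (map_ne_zero σ).2 hd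
      rw [map_sub, map_mul, map_inv₀, map_one, ← h3, ← mul_assoc, inv_mul_cancel₀ hs, one_mul,
        add_sub_cancel_left]
  have e2 : Submodule.span (A σ) {(⟨0, 1 + z⟩ : A σ)} ⊓ Submodule.span (A σ) {(⟨0, z⟩ : A σ)} = ⊥ := by
    rw [eq_bot_iff]
    rintro y ⟨hy1, hy2⟩
    obtain ⟨d1, rfl⟩ := (mem_span _ _).1 hy1
    obtain ⟨d2, hd2⟩ := (mem_span _ _).1 hy2
    have h3 : σ d1 * (1 + z) = σ d2 * z := congrArg A.e hd2
    by_cases hd : d1 = 0
    · subst hd
      rw [Submodule.mem_bot]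
      simp [zero_def]
    · exfalso
      have hs : σ d1 ≠ 0 := (map_ne_zero σ).2 hd
      -- `(σ (d1⁻¹ d2) - 1) z = 1`
      have h4 : σ (d1⁻¹ * d2 - 1) * z = 1 := by
        rw [map_sub, map_mul, map_inv₀, map_one, sub_mul, mul_assoc, ← h3, ← mul_assoc,
          inv_mul_cancel₀ hs, one_mul, one_mul, add_sub_cancel_right]
      apply hz ((d1⁻¹ * d2 - 1)⁻¹)
      rw [map_inv₀]
      exact inv_eq_of_mul_eq_one_right h4
  rw [e1, e2, sup_bot_eq, Submodule.mem_bot] at h1
  have h5 : (1 : D) + z = 0 := congrArg A.e h1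
  apply hz (-1)
  rw [map_neg, map_one]
  exact (eq_neg_of_add_eq_zero_right h5).symm

/-- the projection to `D` -/
def prD : A σ →+* D where
  toFun x := x.d
  map_zero' := rfl
  map_one' := rfl
  map_add' _ _ := rfl
  map_mul' _ _ := rfl

theorem integral (hσ : ∀ c ∈ Subring.center D, σ c = c)
    (hint : ∀ d : D, IsIntegral (Subring.center D) d) (x : A σ) :
    ∃ p : Polynomial (Subring.center (A σ)),
      p.Monic ∧ Polynomial.eval₂ (Subring.center (A σ)).subtype x p = 0 := by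
  let ι : Subring.center D →+* Subring.center (A σ) :=
    { toFun := fun c => ⟨⟨c.1, 0⟩, by
        rw [Subring.mem_center_iff]
        intro y
        have hc := Subring.mem_center_iff.1 c.2
        ext
        · simp only [mul_def]; exact hc _
        · simp only [mul_def]
          rw [hσ _ c.2, mul_zero, zero_mul, zero_add, add_zero]; exact hc _⟩
      map_zero' := rfl
      map_one' := rfl
      map_add' := fun a b => by
        apply Subtype.ext
        change (⟨(a + b : D), 0⟩ : A σ) = ⟨a, 0⟩ + ⟨b, 0⟩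
        ext <;> simp [add_def]
      map_mul' := fun a b => by
        apply Subtype.ext
        change (⟨(a * b : D), 0⟩ : A σ) = ⟨a, 0⟩ * ⟨b, 0⟩
        ext <;> simp [mul_def] }
  obtain ⟨f, hf, hf0⟩ := hint x.d
  set q : Polynomial (Subring.center (A σ)) := f.map ι with hq
  have hcomm : ∀ k, Commute ((Subring.center (A σ)).subtype (q.coeff k)) x := by
    intro k
    exact ((Subring.mem_center_iff.1 (q.coeff k).2) x).symm
  refine ⟨q * q, (hf.map ι).mul (hf.map ι), ?_⟩
  rw [Polynomial.eval₂_mul_noncomm _ _ hcomm]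
  have h1 : (Polynomial.eval₂ (Subring.center (A σ)).subtype x q).d = 0 := by
    change prD (Polynomial.eval₂ (Subring.center (A σ)).subtype x q) = 0
    rw [hq, Polynomial.eval₂_map, Polynomial.hom_eval₂]
    exact hf0
  ext
  · simp only [mul_def]; rw [h1]; simp [zero_def]
  · simp only [mul_def]; rw [h1]; simp [zero_def]

end A

end Pool.Agent.Helper1.TwistExt
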